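import Mathlib
import Pool.Graph.R_pool_sql_team_seeded_63374d34.N730.PT.Key

set_option autoImplicit false
set_option linter.unusedSectionVars false

/-! The singular series of a pair `m, m + d` in a class modulo the product of the small primes. -/

namespace Pool.Agent.H68.MG
open Finset
open Pool.Agent.H373R2.T7 Pool.Agent.N730.PT

/-- product of the primes up to `w` -/
def Dw (w : ℕ) : ℕ := ∏ p ∈ pz w, p

lemma Dw_pos (w : ℕ) : 0 < Dw w := prod_pos fun p hp => (mem_pz.1 hp).2.pos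

/-- the number of bad classes at a prime of `T` dividing `n` -/
lemma rho_mem' (T : Finset ℕ) (c n p : ℕ) (hp3 : 3 ≤ p) (hp : p.Prime) (hpT : p ∈ T) (hc : ¬ p ∣ c)
    (hn : p ∣ n) : rhoA (Qc T c n) p = p - 2 := by
  classical
  unfold rhoA
  have h : (range p).filter (fun r => ¬ p ∣ r ∧ Qc T c n p r) = ((range p).filter (fun r => ¬ p ∣ r)).erase (c % p) := by
    ext r
    rw [mem_filter, mem_erase, mem_filter]
    constructor
    · rintro ⟨h1, h2, h3⟩
      refine ⟨?_, h1, h2⟩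
      rw [mem_range] at h1
      unfold Qc at h3
      rcases h3 with h3 | h3
      · rw [Nat.mod_eq_of_lt h1] at h3
        exact h3.2
      · rw [Nat.mod_eq_of_lt h1, Nat.mod_eq_zero_of_dvd hn] at h3
        exact absurd (h3 ▸ dvd_zero _) h2
    · rintro ⟨h1, h2, h3⟩
      refine ⟨h2, h3, ?_⟩
      unfold Qc
      left
      rw [mem_range] at h2
      rw [Nat.mod_eq_of_lt h2]
      exact ⟨hpT, h1⟩
  rw [h, card_erase_of_mem, card_range_ndvd p (by omega)]
  · omega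
  · rw [mem_filter, mem_range]
    refine ⟨Nat.mod_lt _ (by omega), ?_⟩
    intro h2
    exact hc ((Nat.dvd_mod_iff (dvd_refl p)).1 h2)

/-- the local factor -/
noncomputable def sgl (p d : ℕ) : ℝ := if p ∣ d then (p : ℝ) / ((p : ℝ) - 1) else 1 - 1 / ((p : ℝ) - 1) ^ 2

/-- the singular series -/
noncomputable def sg (w z d : ℕ) : ℝ := ∏ p ∈ ow z \ ow w, sgl p d

lemma pz_split (w z : ℕ) (hw : 2 ≤ w) (hwz : w ≤ z) : pz z = pz w ∪ (ow z \ ow w) := by
  ext p
  simp only [mem_union, mem_sdiff, mem_ow, mem_pz]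
  constructor
  · rintro ⟨h1, h2⟩
    by_cases h : p ≤ w
    · exact Or.inl ⟨h, h2⟩
    · exact Or.inr ⟨⟨by omega, h1, h2⟩, by omega⟩
  · rintro (⟨h1, h2⟩ | ⟨⟨h1, h2, h3⟩, _⟩)
    · exact ⟨by omega, h2⟩
    · exact ⟨h2, h3⟩

lemma pz_disj (w z : ℕ) (hw : 2 ≤ w) : Disjoint (pz w) (ow z \ ow w) := by
  rw [disjoint_left]
  intro p hp hp2
  rw [mem_pz] at hp
  simp only [mem_sdiff, mem_ow] at hp2
  exact hp2.2 ⟨hp2.1.1, hp.1, hp.2⟩

lemma mem_big {w z p : ℕ} (hp : p ∈ ow z \ ow w) : 3 ≤ p ∧ w < p ∧ p ≤ z ∧ p.Prime := by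
  simp only [mem_sdiff, mem_ow] at hp
  refine ⟨hp.1.1, ?_, hp.1.2.1, hp.1.2.2⟩
  by_contra h
  exact hp.2 ⟨hp.1.1, by omega, hp.1.2.2⟩

lemma sing2 (w z : ℕ) (hw : 2 ≤ w) (hwz : w ≤ z) (c n d : ℕ) (hc : ∀ p ∈ pz w, ¬ p ∣ c) (hn : ∀ p ∈ pz w, p ∣ n)
    (hd : ∀ p ∈ ow z \ ow w, (p ∣ n ↔ p ∣ d)) :
    Vz w ^ 2 * ((Vz z)⁻¹ * ∏ p ∈ pz z, (1 - (rhoA (Qc (ow w) c n) p : ℝ) / (p - 1 : ℝ))) =
      (Dw w : ℝ)⁻¹ * sg w z d := by
  have h1 : Vz z = Vz w * ∏ p ∈ ow z \ ow w, (1 - 1 / (p : ℝ)) := by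
    unfold Vz
    rw [pz_split w z hw hwz, prod_union (pz_disj w z hw)]
  have h2 : Vz w * ∏ p ∈ pz w, (1 - (rhoA (Qc (ow w) c n) p : ℝ) / (p - 1 : ℝ)) = (Dw w : ℝ)⁻¹ := by
    unfold Vz Dw
    rw [← prod_mul_distrib]
    push_cast
    rw [← prod_inv_distrib]
    apply prod_congr rfl
    intro p hp
    have hp' := mem_pz.1 hp
    by_cases h2 : p = 2
    · rw [rho_notMem _ _ _ _ hp'.2 (by rw [h2]; exact two_notMem_ow w), if_pos (hn p hp), h2]
      norm_num
    · have h3 : 3 ≤ p := by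
        have := hp'.2.two_le
        omega
      have h4 : (3 : ℝ) ≤ p := by exact_mod_cast h3
      rw [rho_mem' (ow w) c n p h3 hp'.2 (mem_ow.2 ⟨h3, hp'.1, hp'.2⟩) (hc p hp) (hn p hp), Nat.cast_sub (by omega)]
      have h5 : (p : ℝ) - 1 ≠ 0 := by
        have : 0 < (p : ℝ) - 1 := by linarith
        exact this.ne'
      have h6 : (p : ℝ) ≠ 0 := by
        have : 0 < (p : ℝ) := by linarith
        exact this.ne'
      push_cast
      field_simp
      ring
  have h3 : (∏ p ∈ ow z \ ow w, (1 - 1 / (p : ℝ)))⁻¹ *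
      ∏ p ∈ ow z \ ow w, (1 - (rhoA (Qc (ow w) c n) p : ℝ) / (p - 1 : ℝ)) = sg w z d := by
    unfold sg
    rw [← prod_inv_distrib, ← prod_mul_distrib]
    apply prod_congr rfl
    intro p hp
    obtain ⟨p3, pw, _, pp⟩ := mem_big hp
    have h4 : (3 : ℝ) ≤ p := by exact_mod_cast p3
    have h5 : (p : ℝ) - 1 ≠ 0 := by
      have : 0 < (p : ℝ) - 1 := by linarith
      exact this.ne'
    have h6 : (p : ℝ) ≠ 0 := by
      have : 0 < (p : ℝ) := by linarith
      exact this.ne'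
    have h7 : (1 : ℝ) - 1 / p = (p - 1) / p := by field_simp
    have hpT : p ∉ ow w := (mem_sdiff.1 hp).2
    rw [rho_notMem _ _ _ _ pp hpT, h7, inv_div]
    unfold sgl
    by_cases hpd : p ∣ d
    · rw [if_pos hpd, if_pos ((hd p hp).2 hpd)]
      simp
    · rw [if_neg hpd, if_neg (fun h => hpd ((hd p hp).1 h))]
      push_cast
      field_simp
      ring
  have hV := (Vz_pos w).ne'
  rw [h1, pz_split w z hw hwz, prod_union (pz_disj w z hw), mul_inv, ← h2, ← h3]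
  field_simp

/-- the majorant -/
noncomputable def ug (w z d : ℕ) : ℝ := ∏ p ∈ ow z \ ow w, if p ∣ d then (p : ℝ) / ((p : ℝ) - 1) else 1

lemma one_le_ug (w z d : ℕ) : 1 ≤ ug w z d := by
  unfold ug
  have h1 : ∏ p ∈ ow z \ ow w, (1 : ℝ) ≤ ∏ p ∈ ow z \ ow w, if p ∣ d then (p : ℝ) / ((p : ℝ) - 1) else 1 := by
    apply prod_le_prod (fun _ _ => zero_le_one)
    intro p hp
    have h4 : (3 : ℝ) ≤ p := by exact_mod_cast (mem_big hp).1
    split_ifs
    · rw [le_div_iff₀ (by linarith)]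
      linarith
    · exact le_rfl
  simpa using h1

lemma sg_le (w z d : ℕ) : sg w z d ≤ ug w z d := by
  unfold sg ug
  apply prod_le_prod
  · intro p hp
    have h4 : (3 : ℝ) ≤ p := by exact_mod_cast (mem_big hp).1
    unfold sgl
    split_ifs
    · exact div_nonneg (by linarith) (by linarith)
    · rw [sub_nonneg, div_le_one (by nlinarith)]
      nlinarith
  · intro p hp
    have h4 : (3 : ℝ) ≤ p := by exact_mod_cast (mem_big hp).1
    unfold sgl
    split_ifs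
    · exact le_rfl
    · have : 0 ≤ 1 / ((p : ℝ) - 1) ^ 2 := by positivity
      linarith

lemma sg_ge (w z d : ℕ) (hw : 2 ≤ w) (hwz : w ≤ z) : 1 - 1 / (w : ℝ) ≤ sg w z d := by
  have h1 := tail_prod w hw z hwz
  have hzr : (2 : ℝ) ≤ z := by exact_mod_cast hw.trans hwz
  have hwr : (2 : ℝ) ≤ w := by exact_mod_cast hw
  have h2 : (1 : ℝ) ≤ (z : ℝ) / (z - 1) := by
    rw [le_div_iff₀ (by linarith)]
    linarith
  have h5 : 0 ≤ 1 - 1 / (w : ℝ) := by
    rw [sub_nonneg, div_le_one (by linarith)]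
    linarith
  calc 1 - 1 / (w : ℝ) = (1 - 1 / (w : ℝ)) * 1 := by ring
    _ ≤ (1 - 1 / (w : ℝ)) * ((z : ℝ) / (z - 1)) := mul_le_mul_of_nonneg_left h2 h5
    _ ≤ _ := h1
    _ ≤ _ := by
      unfold sg
      apply prod_le_prod
      · intro p hp
        have h : (3 : ℝ) ≤ p := by exact_mod_cast (mem_big hp).1
        rw [sub_nonneg, div_le_one (by nlinarith)]
        nlinarith
      · intro p hp
        have h : (3 : ℝ) ≤ p := by exact_mod_cast (mem_big hp).1
        have h6 : 0 < (p : ℝ) - 1 := by linarith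
        unfold sgl
        split_ifs
        · have h7 : (1 : ℝ) ≤ p / (p - 1) := by
            rw [le_div_iff₀ h6]; linarith
          have h8 : 0 ≤ 1 / ((p : ℝ) - 1) ^ 2 := by positivity
          linarith
        · exact le_rfl

lemma cp_bd (p : ℝ) (hp : 3 ≤ p) : 0 ≤ (p / (p - 1)) ^ 4 - 1 ∧ (p / (p - 1)) ^ 4 - 1 ≤ 16 / p := by
  obtain ⟨t, ht⟩ : ∃ t, t = 1 / (p - 1) := ⟨_, rfl⟩
  have h1 : 0 < p - 1 := by linarith
  have ht0 : 0 < t := by rw [ht]; positivity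
  have ht1 : t ≤ 1 / 2 := by
    rw [ht, div_le_div_iff₀ h1 (by norm_num)]
    linarith
  have e1 : p / (p - 1) = 1 + t := by
    rw [ht]
    field_simp
    ring
  have e2 : p = (1 + t) / t := by
    rw [ht]
    field_simp
    ring
  rw [e1]
  constructor
  · have : 1 ≤ (1 + t) ^ 4 := one_le_pow₀ (by linarith)
    linarith
  · rw [e2, div_div_eq_mul_div, le_div_iff₀ (by linarith)]
    have h3 : t ^ 2 ≤ t / 2 := by nlinarith
    have h4 : t ^ 3 ≤ t / 4 := by nlinarith [mul_le_mul_of_nonneg_left h3 ht0.le]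
    have h5 : t ^ 4 ≤ t / 8 := by nlinarith [mul_le_mul_of_nonneg_left h4 ht0.le]
    nlinarith [mul_le_mul_of_nonneg_left h5 ht0.le]

/-- the average of the majorant -/
lemma ug_avg (w z M : ℕ) (hw : 2 ≤ w) (hwz : w ≤ z) : ∑ d ∈ Icc 1 M, ug w z d ^ 4 ≤ M * Real.exp (16 / w) := by
  classical
  obtain ⟨P, hP⟩ : ∃ P, P = ow z \ ow w := ⟨_, rfl⟩
  obtain ⟨c, hc⟩ : ∃ c : ℕ → ℝ, c = fun p : ℕ => ((p : ℝ) / ((p : ℝ) - 1)) ^ 4 - 1 := ⟨_, rfl⟩
  have hc0 : ∀ p ∈ P, 0 ≤ c p := by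
    intro p hp
    rw [hP] at hp
    rw [hc]
    exact (cp_bd p (by exact_mod_cast (mem_big hp).1)).1
  have h1 : ∀ d, ug w z d ^ 4 = ∑ S ∈ P.powerset, (∏ p ∈ S, c p) * (if (∏ p ∈ S, p) ∣ d then 1 else 0) := by
    intro d
    unfold ug
    rw [← hP, ← prod_pow]
    have e1 : ∀ p ∈ P, (if p ∣ d then (p : ℝ) / ((p : ℝ) - 1) else 1) ^ 4 = (if p ∣ d then c p else 0) + 1 := by
      intro p _
      rw [hc]
      split_ifs
      · ring
      · ring
    rw [prod_congr rfl e1, prod_add_one]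
    apply sum_congr rfl
    intro S hS
    rw [mem_powerset] at hS
    split_ifs with hd
    · rw [mul_one]
      apply prod_congr rfl
      intro p hp
      rw [if_pos ((dvd_prod_of_mem (fun p => p) hp).trans hd)]
    · rw [mul_zero]
      have h2 : ¬ ∀ p ∈ S, p ∣ d := by
        intro h3
        apply hd
        exact (prod_dvd_iff S (fun p hp => by
          have := hS hp
          rw [hP] at this
          exact (mem_big this).2.2.2) d).1 h3
      push Not at h2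
      obtain ⟨p, hp, hpd⟩ := h2
      apply prod_eq_zero hp
      rw [if_neg hpd]
  have h2 : ∀ S ∈ P.powerset, ∑ d ∈ Icc 1 M, (∏ p ∈ S, c p) * (if (∏ p ∈ S, p) ∣ d then (1 : ℝ) else 0) ≤
      (∏ p ∈ S, c p) * (M / ∏ p ∈ S, (p : ℝ)) := by
    intro S hS
    rw [mem_powerset] at hS
    rw [← mul_sum]
    apply mul_le_mul_of_nonneg_left _ (prod_nonneg fun p hp => hc0 p (hS hp))
    rw [← sum_filter, sum_const, nsmul_eq_mul, mul_one]
    have e1 : ((Icc 1 M).filter (fun d => (∏ p ∈ S, p) ∣ d)).card = M / ∏ p ∈ S, p := by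
      rw [← Nat.Ioc_filter_dvd_card_eq_div]
      rfl
    rw [e1]
    have e2 := @Nat.cast_div_le ℝ _ _ _ M (∏ p ∈ S, p)
    push_cast at e2
    exact e2
  calc ∑ d ∈ Icc 1 M, ug w z d ^ 4 = ∑ d ∈ Icc 1 M, ∑ S ∈ P.powerset, (∏ p ∈ S, c p) * (if (∏ p ∈ S, p) ∣ d then 1 else 0) :=
        sum_congr rfl fun d _ => h1 d
    _ = ∑ S ∈ P.powerset, ∑ d ∈ Icc 1 M, (∏ p ∈ S, c p) * (if (∏ p ∈ S, p) ∣ d then 1 else 0) := sum_comm
    _ ≤ ∑ S ∈ P.powerset, (∏ p ∈ S, c p) * (M / ∏ p ∈ S, (p : ℝ)) := sum_le_sum h2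
    _ = M * ∏ p ∈ P, (c p / p + 1) := by
        rw [prod_add_one, mul_sum]
        apply sum_congr rfl
        intro S _
        rw [prod_div_distrib]
        ring
    _ ≤ M * Real.exp (16 / w) := by
        apply mul_le_mul_of_nonneg_left _ (Nat.cast_nonneg _)
        have e3 : ∏ p ∈ P, (c p / p + 1) ≤ ∏ p ∈ P, Real.exp (16 * ((p : ℝ) ^ 2)⁻¹) := by
          apply prod_le_prod
          · intro p hp
            have := hc0 p hp
            positivity
          · intro p hp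
            have hp' := hp
            rw [hP] at hp'
            have h3 : (3 : ℝ) ≤ p := by exact_mod_cast (mem_big hp').1
            have e4 := (cp_bd p h3).2
            have e5 : c p / p ≤ 16 * ((p : ℝ) ^ 2)⁻¹ := by
              rw [div_le_iff₀ (by linarith), hc]
              refine e4.trans (le_of_eq ?_)
              have : (p : ℝ) ≠ 0 := by linarith
              field_simp
            linarith [Real.add_one_le_exp (16 * ((p : ℝ) ^ 2)⁻¹)]
        refine e3.trans ?_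
        rw [← Real.exp_sum, ← mul_sum]
        apply Real.exp_le_exp.2
        have e6 : ∑ p ∈ P, ((p : ℝ) ^ 2)⁻¹ ≤ ∑ p ∈ Ioc w z, ((p : ℝ) ^ 2)⁻¹ := by
          apply sum_le_sum_of_subset_of_nonneg
          · intro p hp
            rw [hP] at hp
            have := mem_big hp
            rw [mem_Ioc]
            exact ⟨this.2.1, this.2.2.1⟩
          · intro p _ _
            positivity
        have e7 := sum_Ioc_inv_sq_le_sub (α := ℝ) (k := w) (n := z) (by omega) hwz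
        have e8 : (0 : ℝ) ≤ (z : ℝ)⁻¹ := by positivity
        have e9 : ∑ p ∈ P, ((p : ℝ) ^ 2)⁻¹ ≤ (w : ℝ)⁻¹ := by linarith
        calc 16 * ∑ p ∈ P, ((p : ℝ) ^ 2)⁻¹ ≤ 16 * (w : ℝ)⁻¹ := by linarith
          _ = 16 / w := by ring

lemma four_ineq (a b : ℝ) : (a + b) ^ 4 ≤ 8 * (a ^ 4 + b ^ 4) := by
  nlinarith [sq_nonneg (a - b), sq_nonneg (a + b), sq_nonneg (a ^ 2 - b ^ 2), sq_nonneg (a * b),
    mul_nonneg (sq_nonneg (a - b)) (sq_nonneg (a + b)), mul_nonneg (sq_nonneg (a - b)) (sq_nonneg (a - b)),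
    mul_nonneg (sq_nonneg (a - b)) (sq_nonneg a), mul_nonneg (sq_nonneg (a - b)) (sq_nonneg b)]

/-- the singular series is close to one in the mean of order four -/
theorem sg_avg (w z M : ℕ) (hw : 2 ≤ w) (hwz : w ≤ z) :
    ∑ d ∈ Icc 1 M, (sg w z d - 1) ^ 4 ≤ M * (8 * (Real.exp (16 / w) - 1 + (1 / (w : ℝ)) ^ 4)) := by
  have h1 : ∀ d ∈ Icc 1 M, (sg w z d - 1) ^ 4 ≤ 8 * ((ug w z d ^ 4 - 1) + (1 / (w : ℝ)) ^ 4) := by
    intro d _
    have e1 := sg_ge w z d hw hwz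
    have e2 := sg_le w z d
    have e3 := one_le_ug w z d
    have hw0 : 0 ≤ 1 / (w : ℝ) := by positivity
    have e4 : |sg w z d - 1| ≤ (ug w z d - 1) + 1 / (w : ℝ) := by
      rw [abs_le]
      constructor <;> linarith
    have e5 : (sg w z d - 1) ^ 4 ≤ ((ug w z d - 1) + 1 / (w : ℝ)) ^ 4 := by
      rw [show (sg w z d - 1) ^ 4 = |sg w z d - 1| ^ 4 by
        rw [show (4 : ℕ) = 2 * 2 by norm_num, pow_mul, pow_mul, sq_abs]]
      exact pow_le_pow_left₀ (abs_nonneg _) e4 4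
    have e6 : (ug w z d - 1) ^ 4 ≤ ug w z d ^ 4 - 1 := by
      obtain ⟨v, hv⟩ : ∃ v, v = ug w z d - 1 := ⟨_, rfl⟩
      have hv0 : 0 ≤ v := by linarith
      have : ug w z d = v + 1 := by linarith
      rw [this]
      have h3 : (v + 1 - 1) = v := by ring
      rw [h3]
      nlinarith [pow_nonneg hv0 2, pow_nonneg hv0 3, pow_nonneg hv0 4]
    have e7 := four_ineq (ug w z d - 1) (1 / (w : ℝ))
    linarith
  refine (sum_le_sum h1).trans ?_
  rw [← mul_sum, sum_add_distrib, sum_sub_distrib, sum_const, sum_const, Nat.card_Icc, Nat.add_sub_cancel]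
  have h2 := ug_avg w z M hw hwz
  simp only [nsmul_eq_mul, mul_one]
  linarith

end Pool.Agent.H68.MG
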