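import Mathlib
import Pool.Agent.H68.MG.Sing

set_option autoImplicit false
set_option linter.unusedSectionVars false
set_option linter.unusedVariables false

/-! Correlations of the von Mangoldt function in a class modulo the product of the small primes. -/

namespace Pool.Agent.H68.MG
open Finset
open Pool.Agent.H373R2.T7 Pool.Agent.N730.PT

open scoped ArithmeticFunction.vonMangoldt

lemma modD (w j b : ℕ) : (∀ p ∈ pz w, j % p = b % p) ↔ j % Dw w = b % Dw w := by
  have h1 : ∀ q : ℕ, j % q = b % q ↔ q ∣ ((b : ℤ) - j).natAbs := by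
    intro q
    rw [← Int.natCast_dvd]
    exact Nat.modEq_iff_dvd
  rw [h1]
  unfold Dw
  rw [← prod_dvd_iff (pz w) (fun p hp => (mem_pz.1 hp).2)]
  exact forall₂_congr fun p _ => h1 p

lemma sum_class (D K b : ℕ) (hb0 : 0 < b) (hbD : b < D) (f : ℕ → ℝ) :
    ∑ m ∈ range K, f (D * m + b) = ∑ j ∈ Icc 1 (D * K), if j % D = b then f j else 0 := by
  rw [← sum_filter]
  symm
  apply sum_nbij' (fun j => j / D) (fun m => D * m + b)
  · intro j hj
    rw [mem_filter, mem_Icc] at hj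
    rw [mem_range]
    by_contra h
    have h1 := Nat.mul_le_mul_left D (not_lt.1 h)
    have h2 := Nat.div_add_mod j D
    omega
  · intro m hm
    rw [mem_range] at hm
    rw [mem_filter, mem_Icc]
    refine ⟨⟨by omega, ?_⟩, ?_⟩
    · have h1 := Nat.mul_le_mul_left D (Nat.succ_le_of_lt hm)
      rw [Nat.mul_succ] at h1
      omega
    · rw [Nat.mul_add_mod, Nat.mod_eq_of_lt hbD]
  · intro j hj
    have h2 := Nat.div_add_mod j D
    rw [mem_filter] at hj
    rw [hj.2] at h2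
    exact h2
  · intro m _
    rw [Nat.mul_add_div (by omega), Nat.div_eq_of_lt hbD, add_zero]
  · intro j hj
    have h2 := Nat.div_add_mod j D
    rw [mem_filter] at hj
    rw [hj.2] at h2
    rw [h2]

/-- `b` is a reduced class -/
structure Cls (w b : ℕ) : Prop where
  lt : b < Dw w
  cop : ∀ p ∈ pz w, ¬ p ∣ b

lemma Cls.pos {w b : ℕ} (h : Cls w b) (hw : 2 ≤ w) : 0 < b := by
  rcases Nat.eq_zero_or_pos b with h1 | h1
  · exact absurd (h1 ▸ dvd_zero 2) (h.cop 2 (mem_pz.2 ⟨hw, Nat.prime_two⟩))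
  · exact h1

lemma Cls.of {w b p : ℕ} (h : Cls w b) (hp : p ∈ pz w) (m : ℕ) : ¬ p ∣ Dw w * m + b := by
  intro h1
  have h2 : p ∣ Dw w := dvd_prod_of_mem _ hp
  exact h.cop p hp ((Nat.dvd_add_right (h2.mul_right m)).1 h1)

lemma cond_iff (w z b n j : ℕ) (hw : 2 ≤ w) (hwz : w ≤ z) (hb : Cls w b) (hn : ∀ p ∈ pz w, p ∣ n) :
    (∀ p ∈ pz z, ¬ Qc (ow w) b n p j) ↔ j % Dw w = b ∧ ∀ p ∈ ow z \ ow w, j % p ≠ n % p := by
  have e1 : j % Dw w = b ↔ (∀ p ∈ pz w, j % p = b % p) := by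
    rw [modD, Nat.mod_eq_of_lt hb.lt]
  rw [e1]
  have e2 : ∀ p ∈ pz w, (¬ Qc (ow w) b n p j ↔ j % p = b % p) := by
    intro p hp
    have hp' := mem_pz.1 hp
    have hb1 : b % p ≠ 0 := fun h => hb.cop p hp (Nat.dvd_of_mod_eq_zero h)
    unfold Qc
    rw [Nat.mod_eq_zero_of_dvd (hn p hp)]
    by_cases h2 : p = 2
    · have h3 : p ∉ ow w := by rw [h2]; exact two_notMem_ow w
      subst h2
      constructor
      · intro h
        by_contra h4
        apply h
        right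
        omega
      · intro h h4
        rcases h4 with h4 | h4
        · exact h3 h4.1
        · omega
    · have h3 : p ∈ ow w := mem_ow.2 ⟨by have := hp'.2.two_le; omega, hp'.1, hp'.2⟩
      constructor
      · intro h
        by_contra h4
        exact h (Or.inl ⟨h3, h4⟩)
      · intro h h4
        rcases h4 with h4 | h4
        · exact h4.2 h
        · exact hb1 (h ▸ h4)
  have e3 : ∀ p ∈ ow z \ ow w, (¬ Qc (ow w) b n p j ↔ j % p ≠ n % p) := by
    intro p hp
    have h3 : p ∉ ow w := (mem_sdiff.1 hp).2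
    unfold Qc
    constructor
    · intro h h4
      exact h (Or.inr h4)
    · intro h h4
      rcases h4 with h4 | h4
      · exact h3 h4.1
      · exact h h4
  rw [pz_split w z hw hwz]
  constructor
  · intro h
    exact ⟨fun p hp => (e2 p hp).1 (h p (mem_union_left _ hp)), fun p hp => (e3 p hp).1 (h p (mem_union_right _ hp))⟩
  · rintro ⟨h1, h2⟩ p hp
    rcases mem_union.1 hp with h | h
    · exact (e2 p h).2 (h1 p h)
    · exact (e3 p h).2 (h2 p h)

/-- the normalised weight -/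
noncomputable def lamn (w b m : ℕ) : ℝ := Vz w * Λ (Dw w * m + b)

lemma lamn_nonneg (w b m : ℕ) : 0 ≤ lamn w b m :=
  mul_nonneg (Vz_pos w).le ArithmeticFunction.vonMangoldt_nonneg

theorem first_moment (w : ℕ) (hw : 2 ≤ w) : ∃ N0 : ℕ, ∀ X : ℕ, N0 ≤ X → ∀ b, Cls w b → ∀ K : ℕ, Dw w * K ≤ X →
    |∑ m ∈ range K, lamn w b m - K| ≤ X / Real.log X ^ 3 := by
  classical
  obtain ⟨m1, h1⟩ := prefix_model w (by omega) 1
  obtain ⟨m2, h2⟩ := ev_L' (w + 1)
  refine ⟨max m1 m2, fun X hX b hb K hK => ?_⟩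
  have b2 := h2 X (le_trans (le_max_right _ _) hX)
  have hL0 : 0 < Real.log X := by
    have : (0 : ℝ) ≤ w := Nat.cast_nonneg _
    linarith
  have key := h1 X (le_trans (le_max_left _ _) hX) w (by omega) (by rw [pow_one]; linarith) (ow w) (subset_refl _) b 0
    (Dw w * K) hK
  rw [sum_filter] at key
  have e1 : ∑ j ∈ Icc 1 (Dw w * K), (if ∀ p ∈ pz w, ¬ Qc (ow w) b 0 p j then Λ j else 0) =
      ∑ m ∈ range K, Λ (Dw w * m + b) := by
    rw [sum_class (Dw w) K b (hb.pos hw) hb.lt (fun j => Λ j)]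
    apply sum_congr rfl
    intro j _
    have e2 := cond_iff w w b 0 j hw le_rfl hb (fun p _ => dvd_zero p)
    have e3 : (∀ p ∈ ow w \ ow w, j % p ≠ 0 % p) := by
      intro p hp
      simp at hp
    by_cases hj : j % Dw w = b
    · rw [if_pos hj, if_pos (e2.2 ⟨hj, e3⟩)]
    · rw [if_neg hj, if_neg (fun h => hj (e2.1 h).1)]
  have e4 := sing2 w w hw le_rfl b 0 0 hb.cop (fun p _ => dvd_zero p) (fun p hp => by simp at hp)
  have e5 : sg w w 0 = 1 := by
    unfold sg
    rw [sdiff_self]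
    rfl
  rw [e5, mul_one] at e4
  obtain ⟨P, hP⟩ : ∃ P : ℝ, P = ∏ p ∈ pz w, (1 - (rhoA (Qc (ow w) b 0) p : ℝ) / (p - 1 : ℝ)) := ⟨_, rfl⟩
  rw [← hP] at e4 key
  have hV := Vz_pos w
  have hV1 := Vz_le_one w
  have hD : (0 : ℝ) < Dw w := by exact_mod_cast Dw_pos w
  have e6 : Vz w * P = (Dw w : ℝ)⁻¹ := by
    rw [← e4]
    field_simp
  rw [e1] at key
  have e7 : ∑ m ∈ range K, lamn w b m - K = Vz w * (∑ m ∈ range K, Λ (Dw w * m + b) - ((Dw w * K : ℕ) : ℝ) * P) := by
    unfold lamn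
    rw [← mul_sum, mul_sub]
    congr 1
    push_cast
    calc (K : ℝ) = (Dw w : ℝ) * K * (Dw w : ℝ)⁻¹ := by field_simp
      _ = _ := by rw [← e6]; ring
  rw [e7, abs_mul, abs_of_pos hV]
  calc Vz w * _ ≤ 1 * (X / Real.log X ^ 3) := by
        apply mul_le_mul hV1 key (abs_nonneg _) zero_le_one
    _ = _ := one_mul _

theorem second_model (w : ℕ) (hw : 2 ≤ w) (E : ℕ) : ∃ N0 : ℕ, ∀ X : ℕ, N0 ≤ X → ∀ z : ℕ, w ≤ z →
    (z : ℝ) ≤ Real.log X ^ E → ∀ b, Cls w b → ∀ M d : ℕ, d ≤ M → Dw w * M ≤ X →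
    |∑ m ∈ range (M - d), Vz w ^ 2 * (Λ (Dw w * m + b) * lamz z (Dw w * (m + d) + b)) - ((M - d : ℕ) : ℝ) * sg w z d| ≤
      X / Real.log X ^ 2 := by
  classical
  obtain ⟨m1, h1⟩ := prefix_model w (by omega) E
  obtain ⟨m2, h2⟩ := ev_L' 1
  obtain ⟨m3, h3⟩ := Vz_inv_small E
  refine ⟨max m1 (max m2 m3), fun X hX z hwz hz b hb M d hd hM => ?_⟩
  have b2 := h2 X (le_trans (le_trans (le_max_left _ _) (le_max_right _ _)) hX)
  have hL0 : 0 < Real.log X := by linarith
  have b3 := h3 X (le_trans (le_trans (le_max_right _ _) (le_max_right _ _)) hX) z (by omega) hz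
  obtain ⟨P, hP⟩ : ∃ P : ℕ, P = ∏ p ∈ pz z, p := ⟨_, rfl⟩
  have hP0 : 0 < P := by
    rw [hP]
    exact prod_pos fun p hp => (mem_pz.1 hp).2.pos
  obtain ⟨n, hn⟩ : ∃ n : ℕ, n = Dw w * d * (P - 1) := ⟨_, rfl⟩
  have hnP : n + Dw w * d = Dw w * d * P := by
    rw [hn]
    obtain ⟨Q, hQ⟩ : ∃ Q, P = Q + 1 := ⟨P - 1, by omega⟩
    rw [hQ, Nat.add_sub_cancel]
    ring
  have hpP : ∀ p ∈ pz z, p ∣ P := by
    intro p hp
    rw [hP]
    exact dvd_prod_of_mem _ hp
  have hpD : ∀ p ∈ pz w, p ∣ Dw w := fun p hp => dvd_prod_of_mem _ hp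
  have hnw : ∀ p ∈ pz w, p ∣ n := by
    intro p hp
    rw [hn]
    exact ((hpD p hp).mul_right d).mul_right _
  have hbig : ∀ p ∈ ow z \ ow w, p ∈ pz z := by
    intro p hp
    have := mem_big hp
    exact mem_pz.2 ⟨this.2.2.1, this.2.2.2⟩
  have hnd : ∀ p ∈ ow z \ ow w, (p ∣ n ↔ p ∣ d) := by
    intro p hp
    have hp' := mem_big hp
    have e1 : p ∣ n ↔ p ∣ Dw w * d := by
      have e2 : p ∣ n + Dw w * d := by
        rw [hnP]
        exact (hpP p (hbig p hp)).mul_left _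
      constructor
      · intro h
        exact (Nat.dvd_add_right h).1 e2
      · intro h
        exact (Nat.dvd_add_left h).1 e2
    rw [e1, hp'.2.2.2.dvd_mul]
    constructor
    · rintro (h | h)
      · exfalso
        unfold Dw at h
        rw [Prime.dvd_finsetProd_iff hp'.2.2.2.prime] at h
        obtain ⟨q, hq, hpq⟩ := h
        have hq' := mem_pz.1 hq
        rw [(Nat.prime_dvd_prime_iff_eq hp'.2.2.2 hq'.2)] at hpq
        omega
      · exact h
    · exact Or.inr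
  have hmod : ∀ p ∈ ow z \ ow w, ∀ j : ℕ, (j % p = n % p ↔ p ∣ j + Dw w * d) := by
    intro p hp j
    have e2 : p ∣ n + Dw w * d := by
      rw [hnP]
      exact (hpP p (hbig p hp)).mul_left _
    constructor
    · intro h
      have h5 : j ≡ n [MOD p] := h
      have h6 : j + Dw w * d ≡ n + Dw w * d [MOD p] := h5.add_right _
      exact (h6.dvd_iff (dvd_refl p)).2 e2
    · intro h
      have h6 : j + Dw w * d ≡ n + Dw w * d [MOD p] :=
        ((Nat.modEq_zero_iff_dvd).2 h).trans ((Nat.modEq_zero_iff_dvd).2 e2).symm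
      exact Nat.ModEq.add_right_cancel' _ h6
  have key := h1 X (le_trans (le_max_left _ _) hX) z (by omega) hz (ow w) (subset_refl _) b n
    (Dw w * (M - d)) ((Nat.mul_le_mul_left _ (Nat.sub_le _ _)).trans hM)
  rw [sum_filter] at key
  have e1 : ∑ j ∈ Icc 1 (Dw w * (M - d)), (if ∀ p ∈ pz z, ¬ Qc (ow w) b n p j then Λ j else 0) =
      ∑ m ∈ range (M - d), if (∀ p ∈ ow z \ ow w, ¬ p ∣ (Dw w * m + b) + Dw w * d) then Λ (Dw w * m + b) else 0 := by
    rw [sum_class (Dw w) (M - d) b (hb.pos hw) hb.lt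
      (fun j => if (∀ p ∈ ow z \ ow w, ¬ p ∣ j + Dw w * d) then Λ j else 0)]
    apply sum_congr rfl
    intro j _
    have e2 := cond_iff w z b n j hw hwz hb hnw
    have e3 : (∀ p ∈ ow z \ ow w, j % p ≠ n % p) ↔ (∀ p ∈ ow z \ ow w, ¬ p ∣ j + Dw w * d) :=
      forall₂_congr fun p hp => not_congr (hmod p hp j)
    rw [e3] at e2
    by_cases hj : j % Dw w = b
    · by_cases hk : (∀ p ∈ ow z \ ow w, ¬ p ∣ j + Dw w * d)
      · rw [if_pos hj, if_pos hk, if_pos (e2.2 ⟨hj, hk⟩)]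
      · rw [if_pos hj, if_neg hk, if_neg (fun h => hk (e2.1 h).2)]
    · rw [if_neg hj, if_neg (fun h => hj (e2.1 h).1)]
  have e3 : ∑ m ∈ range (M - d), Vz w ^ 2 * (Λ (Dw w * m + b) * lamz z (Dw w * (m + d) + b)) =
      Vz w ^ 2 * ((Vz z)⁻¹ * ∑ m ∈ range (M - d),
        if (∀ p ∈ ow z \ ow w, ¬ p ∣ (Dw w * m + b) + Dw w * d) then Λ (Dw w * m + b) else 0) := by
    rw [mul_sum, mul_sum]
    apply sum_congr rfl
    intro m _
    congr 1
    have e4 : Dw w * (m + d) + b = (Dw w * m + b) + Dw w * d := by ring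
    have e5 : (∀ p ∈ pz z, ¬ p ∣ Dw w * (m + d) + b) ↔ (∀ p ∈ ow z \ ow w, ¬ p ∣ (Dw w * m + b) + Dw w * d) := by
      rw [pz_split w z hw hwz]
      constructor
      · intro h p hp
        rw [← e4]
        exact h p (mem_union_right _ hp)
      · intro h p hp
        rcases mem_union.1 hp with h5 | h5
        · exact hb.of h5 _
        · rw [e4]
          exact h p h5
    unfold lamz
    by_cases hk : (∀ p ∈ ow z \ ow w, ¬ p ∣ (Dw w * m + b) + Dw w * d)
    · rw [if_pos hk, if_pos (e5.2 hk)]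
      ring
    · rw [if_neg hk, if_neg (fun h => hk (e5.1 h))]
      ring
  rw [e1] at key
  have e4 := sing2 w z hw hwz b n d hb.cop hnw hnd
  obtain ⟨R, hR⟩ : ∃ R : ℝ, R = ∏ p ∈ pz z, (1 - (rhoA (Qc (ow w) b n) p : ℝ) / (p - 1 : ℝ)) := ⟨_, rfl⟩
  rw [← hR] at e4 key
  rw [e3]
  obtain ⟨S, hS⟩ : ∃ S : ℝ, S = ∑ m ∈ range (M - d),
        if (∀ p ∈ ow z \ ow w, ¬ p ∣ (Dw w * m + b) + Dw w * d) then Λ (Dw w * m + b) else 0 := ⟨_, rfl⟩
  rw [← hS] at key ⊢
  have hD : (0 : ℝ) < Dw w := by exact_mod_cast Dw_pos w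
  have e5 : Vz w ^ 2 * ((Vz z)⁻¹ * S) - ((M - d : ℕ) : ℝ) * sg w z d =
      Vz w ^ 2 * ((Vz z)⁻¹ * (S - ((Dw w * (M - d) : ℕ) : ℝ) * R)) := by
    have e6 : ((M - d : ℕ) : ℝ) * sg w z d = ((Dw w * (M - d) : ℕ) : ℝ) * ((Dw w : ℝ)⁻¹ * sg w z d) := by
      push_cast
      field_simp
    rw [e6, ← e4]
    ring
  rw [e5, abs_mul, abs_mul, abs_of_pos (inv_pos.2 (Vz_pos z)), abs_of_nonneg (sq_nonneg _)]
  have hV2 : Vz w ^ 2 ≤ 1 := pow_le_one₀ (Vz_pos w).le (Vz_le_one w)
  have hXX : (0 : ℝ) ≤ X := Nat.cast_nonneg _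
  calc Vz w ^ 2 * ((Vz z)⁻¹ * _) ≤ 1 * (Real.log X * (X / Real.log X ^ 3)) := by
        apply mul_le_mul hV2 _ (mul_nonneg (inv_pos.2 (Vz_pos z)).le (abs_nonneg _)) zero_le_one
        exact mul_le_mul b3 key (abs_nonneg _) hL0.le
    _ = _ := by
        field_simp

/-- the error of the model -/
noncomputable def er (w z b M d : ℕ) : ℝ :=
  ∑ m ∈ range (M - d), Λ (Dw w * m + b) * (Λ (Dw w * (m + d) + b) - lamz z (Dw w * (m + d) + b))

theorem er_l2 (w : ℕ) (hw : 2 ≤ w) (U : ℕ) : ∃ B : ℕ, ∀ E : ℕ, ∃ N0 : ℕ, ∀ M : ℕ, N0 ≤ M → ∀ z : ℕ,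
    Real.log (Dw w * M : ℕ) ^ B ≤ z → (z : ℝ) ≤ Real.log (Dw w * M : ℕ) ^ E → ∀ b, Cls w b →
    ∑ d ∈ range M, er w z b M d ^ 2 ≤
      ((Dw w * M : ℕ) / Real.log (Dw w * M : ℕ) ^ U) ^ 2 * ((Dw w * M : ℕ) * Real.log (Dw w * M : ℕ) ^ 2) := by
  obtain ⟨B, hB⟩ := sup_prefix U
  refine ⟨B, fun E => ?_⟩
  obtain ⟨m1, h1⟩ := hB E
  refine ⟨max m1 1, fun M hM z hz1 hz2 b hb => ?_⟩
  have hDpos := Dw_pos w
  obtain ⟨X, hX⟩ : ∃ X, X = Dw w * M := ⟨_, rfl⟩
  have hXM : M ≤ X := by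
    rw [hX]
    exact Nat.le_mul_of_pos_left M hDpos
  rw [← hX] at hz1 hz2 ⊢
  have b1 := h1 X ((le_trans (le_max_left _ _) hM).trans hXM) z hz1 hz2 X le_rfl
  have hM1 : 1 ≤ M := le_trans (le_max_right _ _) hM
  have key := cv_l2 X (fun j => if (X + 1 - j) % Dw w = b then Λ (X + 1 - j) else 0)
    (fun n => Λ n - lamz z n) (X / Real.log X ^ U) b1
  have e1 : ∀ d ∈ range M, er w z b M d = cv X (fun j => if (X + 1 - j) % Dw w = b then Λ (X + 1 - j) else 0)
      (fun n => Λ n - lamz z n) (X + 1 + Dw w * d) := by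
    intro d hd
    rw [mem_range] at hd
    unfold er
    have e0 : ∑ m ∈ range (M - d), Λ (Dw w * m + b) * (Λ (Dw w * (m + d) + b) - lamz z (Dw w * (m + d) + b)) =
        ∑ j ∈ Icc 1 (Dw w * (M - d)), if j % Dw w = b then Λ j * (Λ (j + Dw w * d) - lamz z (j + Dw w * d)) else 0 := by
      rw [← sum_class (Dw w) (M - d) b (hb.pos hw) hb.lt (fun j => Λ j * (Λ (j + Dw w * d) - lamz z (j + Dw w * d)))]
      apply sum_congr rfl
      intro m _
      rw [show Dw w * (m + d) + b = Dw w * m + b + Dw w * d by ring]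
    rw [e0]
    unfold cv
    have hDd : Dw w * d ≤ X := by
      rw [hX]
      exact Nat.mul_le_mul_left _ hd.le
    have hsub : Dw w * (M - d) = X - Dw w * d := by
      rw [Nat.mul_sub, hX]
    rw [hsub]
    -- inner sums
    have e2 : ∀ j ∈ Icc 1 X, (∑ k ∈ Icc 1 X, if j + k = X + 1 + Dw w * d then
        (fun j => if (X + 1 - j) % Dw w = b then Λ (X + 1 - j) else 0) j * (fun n => Λ n - lamz z n) k else 0) =
        if Dw w * d < j then (if (X + 1 - j) % Dw w = b then Λ (X + 1 - j) else 0) *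
          (Λ (X + 1 - j + Dw w * d) - lamz z (X + 1 - j + Dw w * d)) else 0 := by
      intro j hj
      rw [mem_Icc] at hj
      simp only
      by_cases hdj : Dw w * d < j
      · rw [if_pos hdj, sum_eq_single (X + 1 - j + Dw w * d)]
        · rw [if_pos (by omega)]
        · intro k _ hk
          rw [if_neg (by omega)]
        · intro h
          exfalso
          apply h
          rw [mem_Icc]
          omega
      · rw [if_neg hdj]
        apply sum_eq_zero
        intro k hk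
        rw [mem_Icc] at hk
        rw [if_neg (by omega)]
    have e3 : (Icc 1 X).filter (fun j => Dw w * d < j) = Icc (Dw w * d + 1) X := by
      ext j
      rw [mem_filter, mem_Icc, mem_Icc]
      omega
    rw [sum_congr rfl e2]
    conv_rhs => rw [← sum_filter, e3]
    apply sum_nbij' (fun j => X + 1 - j) (fun j => X + 1 - j)
    · intro j hj
      rw [mem_Icc] at hj ⊢
      omega
    · intro j hj
      rw [mem_Icc] at hj ⊢
      omega
    · intro j hj
      rw [mem_Icc] at hj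
      omega
    · intro j hj
      rw [mem_Icc] at hj
      omega
    · intro j hj
      rw [mem_Icc] at hj
      have e4 : X + 1 - (X + 1 - j) = j := by omega
      rw [e4]
      split_ifs <;> ring
  have e5 : ∑ d ∈ range M, er w z b M d ^ 2 ≤ ∑ n ∈ Icc 1 (2 * X),
      cv X (fun j => if (X + 1 - j) % Dw w = b then Λ (X + 1 - j) else 0) (fun n => Λ n - lamz z n) n ^ 2 := by
    rw [sum_congr rfl (fun d hd => by rw [e1 d hd])]
    have hinj : Set.InjOn (fun d => X + 1 + Dw w * d) (range M : Set ℕ) := by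
      intro d _ d' _ h
      simp only at h
      have h2 : Dw w * d = Dw w * d' := by omega
      exact Nat.eq_of_mul_eq_mul_left hDpos h2
    rw [← sum_image (f := fun n => cv X (fun j => if (X + 1 - j) % Dw w = b then Λ (X + 1 - j) else 0) (fun n => Λ n - lamz z n) n ^ 2)
      (g := fun d => X + 1 + Dw w * d) hinj]
    apply sum_le_sum_of_subset_of_nonneg
    · intro n hn
      rw [mem_image] at hn
      obtain ⟨d, hd, rfl⟩ := hn
      rw [mem_range] at hd
      rw [mem_Icc]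
      have h2 : Dw w * (d + 1) ≤ X := by
        rw [hX]
        exact Nat.mul_le_mul_left _ hd
      rw [Nat.mul_succ] at h2
      omega
    · intro n _ _
      exact sq_nonneg _
  refine e5.trans (key.trans ?_)
  apply mul_le_mul_of_nonneg_left _ (sq_nonneg _)
  have e6 : ∀ j ∈ Icc 1 X, (fun j => if (X + 1 - j) % Dw w = b then Λ (X + 1 - j) else 0) j ^ 2 ≤ Real.log X ^ 2 := by
    intro j hj
    rw [mem_Icc] at hj
    simp only
    have hlog : 0 ≤ Real.log X := Real.log_natCast_nonneg X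
    apply pow_le_pow_left₀
    · split_ifs
      · exact ArithmeticFunction.vonMangoldt_nonneg
      · exact le_rfl
    · split_ifs
      · refine ArithmeticFunction.vonMangoldt_le_log.trans ?_
        apply Real.log_le_log
        · exact_mod_cast (by omega : 0 < X + 1 - j)
        · exact_mod_cast (by omega : X + 1 - j ≤ X)
      · exact hlog
  refine (sum_le_sum e6).trans ?_
  rw [sum_const, Nat.card_Icc, nsmul_eq_mul, Nat.add_sub_cancel]

end Pool.Agent.H68.MG
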