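import Mathlib
import Pool.Agent.H68.MG.Pair

set_option autoImplicit false
set_option linter.unusedSectionVars false
set_option linter.unusedVariables false

/-! The fourth moment of the autocorrelation of the normalised von Mangoldt function in a class. -/

namespace Pool.Agent.H68.MG
open Finset
open Pool.Agent.H373R2.T7 Pool.Agent.N730.PT

open scoped ArithmeticFunction.vonMangoldt

lemma kap_bd (w : ℕ) (hw : 32 ≤ w) : 8 * (Real.exp (16 / w) - 1 + (1 / (w : ℝ)) ^ 4) ≤ 264 / w := by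
  have hw' : (32 : ℝ) ≤ w := by exact_mod_cast hw
  have hw0 : (0 : ℝ) < w := by linarith
  have h1 : |(16 / w : ℝ)| ≤ 1 := by
    rw [abs_of_nonneg (by positivity), div_le_one hw0]
    linarith
  have h2 := Real.abs_exp_sub_one_le h1
  rw [abs_of_nonneg (show (0 : ℝ) ≤ 16 / w by positivity)] at h2
  have h3 := (le_abs_self _).trans h2
  have h4 : (1 / (w : ℝ)) ^ 4 ≤ 1 / w := by
    have h5 : 0 ≤ 1 / (w : ℝ) := by positivity
    have h6 : 1 / (w : ℝ) ≤ 1 := by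
      rw [div_le_one hw0]
      linarith
    calc (1 / (w : ℝ)) ^ 4 ≤ (1 / (w : ℝ)) ^ 1 := pow_le_pow_of_le_one h5 h6 (by norm_num)
      _ = _ := pow_one _
  calc 8 * (Real.exp (16 / w) - 1 + (1 / (w : ℝ)) ^ 4) ≤ 8 * (2 * (16 / w) + 1 / w) := by linarith
    _ = 264 / w := by ring

lemma twentyseven (a b c : ℝ) : (a + b + c) ^ 4 ≤ 27 * (a ^ 4 + b ^ 4 + c ^ 4) := by
  have h1 : (a + b + c) ^ 2 ≤ 3 * (a ^ 2 + b ^ 2 + c ^ 2) := by
    nlinarith [sq_nonneg (a - b), sq_nonneg (b - c), sq_nonneg (a - c)]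
  have h2 : (a ^ 2 + b ^ 2 + c ^ 2) ^ 2 ≤ 3 * (a ^ 4 + b ^ 4 + c ^ 4) := by
    nlinarith [sq_nonneg (a ^ 2 - b ^ 2), sq_nonneg (b ^ 2 - c ^ 2), sq_nonneg (a ^ 2 - c ^ 2)]
  have h3 : ((a + b + c) ^ 2) ^ 2 ≤ (3 * (a ^ 2 + b ^ 2 + c ^ 2)) ^ 2 :=
    pow_le_pow_left₀ (sq_nonneg _) h1 2
  nlinarith

/-- the autocorrelations -/
noncomputable def acr (w b M d : ℕ) : ℝ := ∑ m ∈ range (M - d), (lamn w b m - 1) * (lamn w b (m + d) - 1)

lemma lamn_le (w : ℕ) (b M m : ℕ) (hb : Cls w b) (hw : 2 ≤ w) (hm : m < M) : lamn w b m ≤ Real.log (Dw w * M : ℕ) := by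
  unfold lamn
  have h1 : (0 : ℝ) ≤ Λ (Dw w * m + b) := ArithmeticFunction.vonMangoldt_nonneg
  calc Vz w * Λ (Dw w * m + b) ≤ 1 * Λ (Dw w * m + b) := mul_le_mul_of_nonneg_right (Vz_le_one w) h1
    _ = Λ (Dw w * m + b) := one_mul _
    _ ≤ Real.log ((Dw w * m + b : ℕ) : ℝ) := ArithmeticFunction.vonMangoldt_le_log
    _ ≤ _ := by
      apply Real.log_le_log
      · have := hb.pos hw
        exact_mod_cast (by omega : 0 < Dw w * m + b)
      · have h2 := Nat.mul_le_mul_left (Dw w) (Nat.succ_le_of_lt hm)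
        rw [Nat.mul_succ] at h2
        have := hb.lt
        exact_mod_cast (by omega : Dw w * m + b ≤ Dw w * M)

theorem arith_gen (w : ℕ) (hw : 2 ≤ w) (η : ℝ) (hη : 0 < η) : ∃ M₀ : ℕ, ∀ M ≥ M₀, ∀ b, Cls w b →
    ∑ d ∈ range M, acr w b M d ^ 4 ≤
      (27 * (8 * (Real.exp (16 / w) - 1 + (1 / (w : ℝ)) ^ 4)) + η / 2) * (M : ℝ) ^ 5 := by
  have hwr0 : (0 : ℝ) < w := by
    have : (2 : ℝ) ≤ w := by exact_mod_cast hw
    linarith
  have hDpos := Dw_pos w
  obtain ⟨D, hD⟩ : ∃ D : ℝ, D = Dw w := ⟨_, rfl⟩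
  have hD0 : 0 < D := by rw [hD]; exact_mod_cast hDpos
  obtain ⟨B, hB⟩ := er_l2 w hw 4
  obtain ⟨m1, h1⟩ := hB (B + 2)
  obtain ⟨m2, h2⟩ := second_model w hw (B + 2)
  obtain ⟨m3, h3⟩ := first_moment w hw
  obtain ⟨m4, h4⟩ := Vz_inv_small (B + 2)
  obtain ⟨m5, h5⟩ := ev_L' (w + 2 + 27 * 256 * D ^ 4 * 6 / η + 27 * D ^ 3 * 6 / η)
  obtain ⟨m6, h6⟩ := ev_log' 8 (6 * D / η)
  refine ⟨max (max (max m1 m2) (max m3 m4)) (max (max m5 m6) 1), fun M hM b hb => ?_⟩
  have c1 : m1 ≤ M := le_trans (le_trans (le_trans (le_max_left _ _) (le_max_left _ _)) (le_max_left _ _)) hM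
  have c2 : m2 ≤ M := le_trans (le_trans (le_trans (le_max_right _ _) (le_max_left _ _)) (le_max_left _ _)) hM
  have c3 : m3 ≤ M := le_trans (le_trans (le_trans (le_max_left _ _) (le_max_right _ _)) (le_max_left _ _)) hM
  have c4 : m4 ≤ M := le_trans (le_trans (le_trans (le_max_right _ _) (le_max_right _ _)) (le_max_left _ _)) hM
  have c5 : m5 ≤ M := le_trans (le_trans (le_trans (le_max_left _ _) (le_max_left _ _)) (le_max_right _ _)) hM
  have c6 : m6 ≤ M := le_trans (le_trans (le_trans (le_max_right _ _) (le_max_left _ _)) (le_max_right _ _)) hM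
  have c7 : 1 ≤ M := le_trans (le_trans (le_max_right _ _) (le_max_right _ _)) hM
  have hM0 : (0 : ℝ) < M := by exact_mod_cast c7
  obtain ⟨X, hX⟩ : ∃ X, X = Dw w * M := ⟨_, rfl⟩
  have hXM : M ≤ X := by
    rw [hX]
    exact Nat.le_mul_of_pos_left M hDpos
  have hXr : (X : ℝ) = D * M := by
    rw [hX, hD]
    push_cast
    ring
  have hX1 : (1 : ℝ) ≤ X := by exact_mod_cast c7.trans hXM
  have hX0 : (0 : ℝ) < X := by linarith
  obtain ⟨L, hL⟩ : ∃ L : ℝ, L = Real.log X := ⟨_, rfl⟩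
  have d5 := h5 X (c5.trans hXM)
  have d6 := h6 X (c6.trans hXM)
  rw [← hL] at d5 d6
  have hL1 : 1 ≤ L := by
    have e1 : 0 ≤ 27 * 256 * D ^ 4 * 6 / η := by positivity
    have e2 : 0 ≤ 27 * D ^ 3 * 6 / η := by positivity
    linarith
  have hLw : (w : ℝ) + 2 ≤ L := by
    have e1 : 0 ≤ 27 * 256 * D ^ 4 * 6 / η := by positivity
    have e2 : 0 ≤ 27 * D ^ 3 * 6 / η := by positivity
    linarith
  have hL0 : 0 < L := by linarith
  obtain ⟨z, hz⟩ : ∃ z : ℕ, z = ⌈L ^ (B + 1)⌉₊ := ⟨_, rfl⟩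
  have hz1 : L ^ (B + 1) ≤ z := by rw [hz]; exact Nat.le_ceil _
  have hz1' : L ^ B ≤ z := (pow_le_pow_right₀ hL1 (by omega)).trans hz1
  have hz2 : (z : ℝ) ≤ L ^ (B + 2) := by
    rw [hz]
    have e1 := Nat.ceil_lt_add_one (a := L ^ (B + 1)) (by positivity)
    have e2 : (1 : ℝ) ≤ L ^ (B + 1) := one_le_pow₀ hL1
    have e3 : L ^ (B + 2) = L * L ^ (B + 1) := by ring
    rw [e3]
    nlinarith
  have hwz : w ≤ z := by
    have e1 : (w : ℝ) ≤ z := by
      calc (w : ℝ) ≤ L := by linarith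
        _ = L ^ 1 := (pow_one _).symm
        _ ≤ L ^ (B + 1) := pow_le_pow_right₀ hL1 (by omega)
        _ ≤ z := hz1
    exact_mod_cast e1
  have k1 := h1 M c1 z (by rw [← hX, ← hL]; exact hz1') (by rw [← hX, ← hL]; exact hz2) b hb
  rw [← hX, ← hL] at k1
  have k2 := h2 X (c2.trans hXM) z hwz (by rw [← hL]; exact hz2) b hb M
  have k3 := h3 X (c3.trans hXM) b hb
  have k4 := h4 X (c4.trans hXM) z (by omega) (by rw [← hL]; exact hz2)
  rw [← hL] at k2 k3 k4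
  -- the case of positive differences
  have hmain : ∀ d, d ≤ M → |acr w b M d - ((M - d : ℕ) : ℝ) * (sg w z d - 1)| ≤ 4 * (X / L ^ 2) + |er w z b M d| := by
    intro d hd
    have e1 := k2 d hd (by rw [hX])
    have e2 := k3 (M - d) (by rw [hX]; exact Nat.mul_le_mul_left _ (Nat.sub_le _ _))
    have e3 := k3 M (by rw [hX])
    have e4 := k3 d (by rw [hX]; exact Nat.mul_le_mul_left _ hd)
    have e5 : ∑ m ∈ range (M - d), lamn w b (m + d) = ∑ m ∈ range M, lamn w b m - ∑ m ∈ range d, lamn w b m := by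
      have e0 := sum_range_add (fun m => lamn w b m) d (M - d)
      rw [Nat.add_sub_cancel' hd] at e0
      rw [e0, add_sub_cancel_left]
      apply sum_congr rfl
      intro m _
      rw [add_comm]
    have e6 : acr w b M d = (∑ m ∈ range (M - d), Vz w ^ 2 * (Λ (Dw w * m + b) * lamz z (Dw w * (m + d) + b))) +
        Vz w ^ 2 * er w z b M d - ∑ m ∈ range (M - d), lamn w b m - ∑ m ∈ range (M - d), lamn w b (m + d) +
        ((M - d : ℕ) : ℝ) := by
      unfold acr er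
      rw [mul_sum, ← sum_add_distrib, ← sum_sub_distrib, ← sum_sub_distrib]
      have e7 : ((M - d : ℕ) : ℝ) = ∑ m ∈ range (M - d), (1 : ℝ) := by simp
      rw [e7, ← sum_add_distrib]
      apply sum_congr rfl
      intro m _
      unfold lamn
      ring
    have e7 : ((M - d : ℕ) : ℝ) = (M : ℝ) - d := Nat.cast_sub hd
    have e8 : Vz w ^ 2 ≤ 1 := pow_le_one₀ (Vz_pos w).le (Vz_le_one w)
    have e9 : |Vz w ^ 2 * er w z b M d| ≤ |er w z b M d| := by
      rw [abs_mul, abs_of_nonneg (sq_nonneg _)]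
      exact mul_le_of_le_one_left (abs_nonneg _) e8
    have e10 : (X : ℝ) / L ^ 3 ≤ X / L ^ 2 := by
      apply div_le_div_of_nonneg_left hX0.le (by positivity)
      exact pow_le_pow_right₀ hL1 (by norm_num)
    rw [e6, e5]
    rw [e7] at e1 e2 ⊢
    rw [abs_le] at e1 e2 e3 e4 e9 ⊢
    constructor
    · linarith [e1.1, e2.2, e3.2, e4.1, e9.1]
    · linarith [e1.2, e2.1, e3.1, e4.2, e9.2]
  have her : ∀ d, |er w z b M d| ≤ M * L ^ 2 := by
    intro d
    unfold er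
    refine (abs_sum_le_sum_abs _ _).trans ?_
    have e1 : ∀ m ∈ range (M - d), |Λ (Dw w * m + b) * (Λ (Dw w * (m + d) + b) - lamz z (Dw w * (m + d) + b))| ≤ L ^ 2 := by
      intro m hm
      rw [mem_range] at hm
      have hlog : ∀ m', m' < M → Λ (Dw w * m' + b) ≤ L := by
        intro m' hm'
        refine ArithmeticFunction.vonMangoldt_le_log.trans ?_
        rw [hL]
        apply Real.log_le_log
        · have := hb.pos hw
          exact_mod_cast (by omega : 0 < Dw w * m' + b)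
        · have h2 := Nat.mul_le_mul_left (Dw w) (Nat.succ_le_of_lt hm')
          rw [Nat.mul_succ] at h2
          have := hb.lt
          rw [hX]
          exact_mod_cast (by omega : Dw w * m' + b ≤ Dw w * M)
      have e2 := hlog m (by omega)
      have e3 := hlog (m + d) (by omega)
      have e4 : (0 : ℝ) ≤ Λ (Dw w * m + b) := ArithmeticFunction.vonMangoldt_nonneg
      have e5 : (0 : ℝ) ≤ Λ (Dw w * (m + d) + b) := ArithmeticFunction.vonMangoldt_nonneg
      have e6 := lamz_nonneg z (Dw w * (m + d) + b)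
      have e7 : lamz z (Dw w * (m + d) + b) ≤ L := by
        unfold lamz
        split_ifs
        · exact k4
        · exact hL0.le
      rw [abs_mul, abs_of_nonneg e4, sq]
      apply mul_le_mul e2 _ (abs_nonneg _) hL0.le
      rw [abs_le]
      constructor <;> linarith
    refine (sum_le_sum e1).trans ?_
    rw [sum_const, card_range, nsmul_eq_mul]
    apply mul_le_mul_of_nonneg_right _ (by positivity)
    exact_mod_cast Nat.sub_le _ _
  have hM5 : (0 : ℝ) ≤ (M : ℝ) ^ 5 := by positivity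
  -- the zero difference
  have h0 : acr w b M 0 ^ 4 ≤ η / 6 * (M : ℝ) ^ 5 := by
    have e1 : |acr w b M 0| ≤ M * L ^ 2 := by
      unfold acr
      refine (abs_sum_le_sum_abs _ _).trans ?_
      have e2 : ∀ m ∈ range (M - 0), |(lamn w b m - 1) * (lamn w b (m + 0) - 1)| ≤ L ^ 2 := by
        intro m hm
        rw [mem_range] at hm
        have e3 := lamn_le w b M m hb hw (by omega)
        rw [← hX, ← hL] at e3
        have e4 := lamn_nonneg w b m
        have e5 : |lamn w b m - 1| ≤ L := by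
          rw [abs_le]
          constructor <;> linarith
        rw [add_zero, abs_mul, sq]
        exact mul_le_mul e5 e5 (abs_nonneg _) hL0.le
      refine (sum_le_sum e2).trans ?_
      rw [sum_const, card_range, nsmul_eq_mul, Nat.sub_zero]
    have e2 : acr w b M 0 ^ 4 ≤ (M * L ^ 2) ^ 4 := by
      rw [show acr w b M 0 ^ 4 = |acr w b M 0| ^ 4 by
        rw [show (4 : ℕ) = 2 * 2 by norm_num, pow_mul, pow_mul, sq_abs]]
      exact pow_le_pow_left₀ (abs_nonneg _) e1 4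
    refine e2.trans ?_
    have e3 : 6 * D / η * L ^ 8 ≤ X := by
      refine d6.trans ?_
      rw [Real.sqrt_le_left hX0.le]
      nlinarith
    rw [hXr] at e3
    have e4 : L ^ 8 ≤ η / 6 * M := by
      have e5 : D * (6 / η * L ^ 8) ≤ D * M := by
        calc D * (6 / η * L ^ 8) = 6 * D / η * L ^ 8 := by ring
          _ ≤ _ := e3
      have e6 := le_of_mul_le_mul_left e5 hD0
      calc L ^ 8 = η / 6 * (6 / η * L ^ 8) := by field_simp
        _ ≤ η / 6 * M := mul_le_mul_of_nonneg_left e6 (by positivity)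
    calc ((M : ℝ) * L ^ 2) ^ 4 = M ^ 4 * L ^ 8 := by ring
      _ ≤ M ^ 4 * (η / 6 * M) := mul_le_mul_of_nonneg_left e4 (by positivity)
      _ = _ := by ring
  -- the other differences
  have hd : ∀ d ∈ Icc 1 M, acr w b M d ^ 4 ≤
      27 * ((M : ℝ) ^ 4 * (sg w z d - 1) ^ 4 + (4 * (X / L ^ 2)) ^ 4 + (M * L ^ 2) ^ 2 * er w z b M d ^ 2) := by
    intro d hd
    rw [mem_Icc] at hd
    have e1 := hmain d hd.2
    have e2 : |acr w b M d| ≤ |((M - d : ℕ) : ℝ) * (sg w z d - 1)| + 4 * (X / L ^ 2) + |er w z b M d| := by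
      have e3 := abs_sub_abs_le_abs_sub (acr w b M d) (((M - d : ℕ) : ℝ) * (sg w z d - 1))
      linarith
    have e3 : acr w b M d ^ 4 ≤ (|((M - d : ℕ) : ℝ) * (sg w z d - 1)| + 4 * (X / L ^ 2) + |er w z b M d|) ^ 4 := by
      rw [show acr w b M d ^ 4 = |acr w b M d| ^ 4 by
        rw [show (4 : ℕ) = 2 * 2 by norm_num, pow_mul, pow_mul, sq_abs]]
      exact pow_le_pow_left₀ (abs_nonneg _) e2 4
    refine e3.trans ((twentyseven _ _ _).trans ?_)
    have e4 : |((M - d : ℕ) : ℝ) * (sg w z d - 1)| ^ 4 ≤ (M : ℝ) ^ 4 * (sg w z d - 1) ^ 4 := by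
      rw [abs_mul, mul_pow, abs_of_nonneg (Nat.cast_nonneg _)]
      rw [show |sg w z d - 1| ^ 4 = (sg w z d - 1) ^ 4 by
        rw [show (4 : ℕ) = 2 * 2 by norm_num, pow_mul, pow_mul, sq_abs]]
      apply mul_le_mul_of_nonneg_right _ (by positivity)
      apply pow_le_pow_left₀ (Nat.cast_nonneg _)
      exact_mod_cast Nat.sub_le _ _
    have e5 : |er w z b M d| ^ 4 ≤ (M * L ^ 2) ^ 2 * er w z b M d ^ 2 := by
      calc |er w z b M d| ^ 4 = |er w z b M d| ^ 2 * er w z b M d ^ 2 := by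
            rw [← sq_abs (er w z b M d)]
            ring
        _ ≤ _ := by
            apply mul_le_mul_of_nonneg_right _ (sq_nonneg _)
            exact pow_le_pow_left₀ (abs_nonneg _) (her d) 2
    linarith
  have hsum : ∑ d ∈ range M, acr w b M d ^ 4 ≤ acr w b M 0 ^ 4 + ∑ d ∈ Icc 1 (M - 1), acr w b M d ^ 4 := by
    obtain ⟨K, hK⟩ : ∃ K, M = K + 1 := ⟨M - 1, by omega⟩
    have e1 : range M = insert 0 (Icc 1 (M - 1)) := by
      ext d
      rw [mem_range, mem_insert, mem_Icc]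
      omega
    rw [e1, sum_insert (by simp)]
  have hsum2 : ∑ d ∈ Icc 1 (M - 1), acr w b M d ^ 4 ≤
      27 * ((M : ℝ) ^ 4 * (M * (8 * (Real.exp (16 / w) - 1 + (1 / (w : ℝ)) ^ 4))) + M * (4 * (X / L ^ 2)) ^ 4 +
        (M * L ^ 2) ^ 2 * ((X / L ^ 4) ^ 2 * (X * L ^ 2))) := by
    have hsub : Icc 1 (M - 1) ⊆ Icc 1 M := Icc_subset_Icc_right (Nat.sub_le _ _)
    refine (sum_le_sum fun d h => hd d (hsub h)).trans ?_
    rw [← mul_sum, sum_add_distrib, sum_add_distrib, ← mul_sum, ← mul_sum, sum_const, Nat.card_Icc, nsmul_eq_mul]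
    have e1 : ∑ d ∈ Icc 1 (M - 1), (sg w z d - 1) ^ 4 ≤ M * (8 * (Real.exp (16 / w) - 1 + (1 / (w : ℝ)) ^ 4)) := by
      refine le_trans (sum_le_sum_of_subset_of_nonneg hsub fun d _ _ => by positivity) (sg_avg w z M hw hwz)
    have e2 : ((M - 1 + 1 - 1 : ℕ) : ℝ) ≤ M := by exact_mod_cast (by omega : M - 1 + 1 - 1 ≤ M)
    have e3 : ∑ d ∈ Icc 1 (M - 1), er w z b M d ^ 2 ≤ (X / L ^ 4) ^ 2 * (X * L ^ 2) := by
      refine le_trans (sum_le_sum_of_subset_of_nonneg ?_ fun d _ _ => by positivity) k1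
      intro d hd'
      rw [mem_Icc] at hd'
      rw [mem_range]
      omega
    have e4 := mul_le_mul_of_nonneg_left e1 (show (0 : ℝ) ≤ (M : ℝ) ^ 4 by positivity)
    have e5 := mul_le_mul_of_nonneg_right e2 (show (0 : ℝ) ≤ (4 * ((X : ℝ) / L ^ 2)) ^ 4 by positivity)
    have e6 := mul_le_mul_of_nonneg_left e3 (show (0 : ℝ) ≤ ((M : ℝ) * L ^ 2) ^ 2 by positivity)
    linarith
  have f1 : 27 * ((M : ℝ) ^ 4 * (M * (8 * (Real.exp (16 / w) - 1 + (1 / (w : ℝ)) ^ 4)))) =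
      27 * (8 * (Real.exp (16 / w) - 1 + (1 / (w : ℝ)) ^ 4)) * (M : ℝ) ^ 5 := by ring
  have f2 : 27 * ((M : ℝ) * (4 * (X / L ^ 2)) ^ 4) ≤ η / 6 * (M : ℝ) ^ 5 := by
    have e1 : 27 * ((M : ℝ) * (4 * (X / L ^ 2)) ^ 4) = 27 * 256 * D ^ 4 / L ^ 8 * (M : ℝ) ^ 5 := by
      rw [hXr]
      field_simp
      ring
    rw [e1]
    apply mul_le_mul_of_nonneg_right _ hM5
    rw [div_le_iff₀ (by positivity)]
    have e2 : 27 * 256 * D ^ 4 * 6 / η ≤ L := by
      have e3 : 0 ≤ 27 * D ^ 3 * 6 / η := by positivity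
      linarith
    have e3 : L ≤ L ^ 8 := by
      calc L = L ^ 1 := (pow_one _).symm
        _ ≤ L ^ 8 := pow_le_pow_right₀ hL1 (by norm_num)
    have e4 : 27 * 256 * D ^ 4 * 6 / η ≤ L ^ 8 := e2.trans e3
    calc 27 * 256 * D ^ 4 = η / 6 * (27 * 256 * D ^ 4 * 6 / η) := by field_simp
      _ ≤ η / 6 * L ^ 8 := mul_le_mul_of_nonneg_left e4 (by positivity)
  have f3 : 27 * ((M * L ^ 2) ^ 2 * ((X / L ^ 4) ^ 2 * (X * L ^ 2))) ≤ η / 6 * (M : ℝ) ^ 5 := by
    have e1 : 27 * ((M * L ^ 2) ^ 2 * ((X / L ^ 4) ^ 2 * (X * L ^ 2))) = 27 * D ^ 3 / L ^ 2 * (M : ℝ) ^ 5 := by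
      rw [hXr]
      field_simp
    rw [e1]
    apply mul_le_mul_of_nonneg_right _ hM5
    rw [div_le_iff₀ (by positivity)]
    have e2 : 27 * D ^ 3 * 6 / η ≤ L := by
      have e3 : 0 ≤ 27 * 256 * D ^ 4 * 6 / η := by positivity
      linarith
    have e3 : L ≤ L ^ 2 := by
      calc L = L ^ 1 := (pow_one _).symm
        _ ≤ L ^ 2 := pow_le_pow_right₀ hL1 (by norm_num)
    have e4 : 27 * D ^ 3 * 6 / η ≤ L ^ 2 := e2.trans e3
    calc 27 * D ^ 3 = η / 6 * (27 * D ^ 3 * 6 / η) := by field_simp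
      _ ≤ η / 6 * L ^ 2 := mul_le_mul_of_nonneg_left e4 (by positivity)
  rw [add_mul]
  linarith

theorem arith (η : ℝ) (hη : 0 < η) : ∃ w₀ : ℕ, 2 ≤ w₀ ∧ ∀ w ≥ w₀, ∃ M₀ : ℕ, ∀ M ≥ M₀, ∀ b, Cls w b →
    ∑ d ∈ range M, acr w b M d ^ 4 ≤ η * (M : ℝ) ^ 5 := by
  refine ⟨max 32 ⌈14256 / η⌉₊, le_trans (by norm_num) (le_max_left _ _), fun w hw0 => ?_⟩
  have hw32 : 32 ≤ w := (le_max_left _ _).trans hw0
  have hwη : 14256 / η ≤ w := by
    have h1 := Nat.le_ceil (14256 / η)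
    have h2 : ((⌈14256 / η⌉₊ : ℕ) : ℝ) ≤ w := by exact_mod_cast (le_max_right _ _).trans hw0
    linarith
  have hw : 2 ≤ w := by omega
  have hwr : (32 : ℝ) ≤ w := by exact_mod_cast hw32
  have hwr0 : (0 : ℝ) < w := by linarith
  have hkap : 27 * (8 * (Real.exp (16 / w) - 1 + (1 / (w : ℝ)) ^ 4)) ≤ η / 2 := by
    have h1 := kap_bd w hw32
    have h2 : 27 * (264 / (w : ℝ)) ≤ η / 2 := by
      rw [div_le_iff₀ hη] at hwη
      rw [← mul_div_assoc, div_le_iff₀ hwr0]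
      linarith
    linarith
  obtain ⟨M₀, H⟩ := arith_gen w hw η hη
  refine ⟨M₀, fun M hM b hb => (H M hM b hb).trans ?_⟩
  apply mul_le_mul_of_nonneg_right _ (by positivity)
  linarith

end Pool.Agent.H68.MG
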