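import Mathlib

set_option autoImplicit false
set_option linter.unusedSectionVars false

/-! Counting cliques of a Cayley sum graph with weights whose pair correlations are close to those of a
bounded weight. -/

namespace Pool.Agent.H68.MG
open Finset

variable {G : Type} [AddCommGroup G] [Fintype G] [DecidableEq G]

/-- the indicator function -/
noncomputable def ic (A : Finset G) (x : G) : ℝ := if x ∈ A then 1 else 0

lemma ic_nonneg (A : Finset G) (x : G) : 0 ≤ ic A x := by unfold ic; split_ifs <;> norm_num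
lemma ic_le (A : Finset G) (x : G) : ic A x ≤ 1 := by unfold ic; split_ifs <;> norm_num

/-- weighted codegrees -/
noncomputable def cod (A : Finset G) (w : G → ℝ) (x x' : G) : ℝ := ∑ y, w y * (ic A (x + y) * ic A (x' + y))

/-- autocorrelation -/
noncomputable def aut (g : G → ℝ) (d : G) : ℝ := ∑ x, g x * g (x + d)

lemma aut_neg (g : G → ℝ) (d : G) : aut g (-d) = aut g d := by
  unfold aut
  rw [← Equiv.sum_comp (Equiv.addRight d) (fun x => g x * g (x + -d))]
  apply sum_congr rfl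
  intro x _
  simp only [Equiv.coe_addRight, add_neg_cancel_right]
  ring

lemma cod_add (A : Finset G) (v w : G → ℝ) (x x' : G) :
    cod A (fun y => v y + w y) x x' = cod A v x x' + cod A w x x' := by
  unfold cod
  rw [← sum_add_distrib]
  apply sum_congr rfl
  intro y _
  ring

lemma cod_nonneg (A : Finset G) (w : G → ℝ) (hw : ∀ x, 0 ≤ w x) (x x' : G) : 0 ≤ cod A w x x' :=
  sum_nonneg fun y _ => mul_nonneg (hw y) (mul_nonneg (ic_nonneg A _) (ic_nonneg A _))

lemma cod_le (A : Finset G) (w : G → ℝ) (hw : ∀ x, 0 ≤ w x) (x x' : G) : cod A w x x' ≤ ∑ y, w y := by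
  apply sum_le_sum
  intro y _
  apply mul_le_of_le_one_right (hw y)
  exact mul_le_one₀ (ic_le A _) (ic_nonneg A _) (ic_le A _)

/-- powers of codegrees -/
lemma sum_cod_pow {κ : Type} [Fintype κ] [DecidableEq κ] (A : Finset G) (g w : G → ℝ) :
    ∑ x, ∑ x', g x * g x' * cod A w x x' ^ Fintype.card κ =
      ∑ y : κ → G, (∏ i, w (y i)) * (∑ x, g x * ∏ i, ic A (x + y i)) ^ 2 := by
  classical
  have h1 : ∀ x x', cod A w x x' ^ Fintype.card κ =
      ∑ y : κ → G, ∏ i, (w (y i) * (ic A (x + y i) * ic A (x' + y i))) := by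
    intro x x'
    unfold cod
    have h := Finset.prod_univ_sum (fun _ : κ => (univ : Finset G)) (fun _ y => w y * (ic A (x + y) * ic A (x' + y)))
    rw [Finset.prod_const, Finset.card_univ] at h
    rw [h]
    apply sum_congr _ (fun _ _ => rfl)
    ext y
    simp
  have h2 : ∀ x x', g x * g x' * cod A w x x' ^ Fintype.card κ =
      ∑ y : κ → G, (∏ i, w (y i)) * ((g x * ∏ i, ic A (x + y i)) * (g x' * ∏ i, ic A (x' + y i))) := by
    intro x x'
    rw [h1, mul_sum]
    apply sum_congr rfl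
    intro y _
    rw [prod_mul_distrib, prod_mul_distrib]
    ring
  rw [sum_congr rfl (fun x _ => (sum_congr rfl (fun x' _ => h2 x x')).trans sum_comm), sum_comm]
  apply sum_congr rfl
  intro y _
  rw [sq, sum_mul_sum, mul_sum]
  apply sum_congr rfl
  intro x _
  rw [mul_sum]

/-- codegrees with constant weight are functions of the difference -/
lemma cod_one (A : Finset G) (x x' : G) : cod A (fun _ => 1) x x' = aut (ic A) (x' - x) := by
  unfold cod aut
  rw [← Equiv.sum_comp (Equiv.addLeft x) (fun z => ic A z * ic A (z + (x' - x)))]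
  apply sum_congr rfl
  intro y _
  simp only [Equiv.coe_addLeft, one_mul]
  congr 2
  abel

lemma sum_diff (g : G → ℝ) (f : G → ℝ) :
    ∑ x, ∑ x', g x * g x' * f (x' - x) = ∑ d, f d * aut g d := by
  have h1 : ∀ x, ∑ x', g x * g x' * f (x' - x) = ∑ d, f d * (g x * g (x + d)) := by
    intro x
    rw [← Equiv.sum_comp (Equiv.addLeft x) (fun x' => g x * g x' * f (x' - x))]
    apply sum_congr rfl
    intro d _
    simp only [Equiv.coe_addLeft, add_sub_cancel_left]
    ring
  rw [sum_congr rfl (fun x _ => h1 x), sum_comm]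
  apply sum_congr rfl
  intro d _
  unfold aut
  rw [mul_sum]

lemma aut_ic_bd (A : Finset G) (d : G) : 0 ≤ aut (ic A) d ∧ aut (ic A) d ≤ Fintype.card G := by
  constructor
  · exact sum_nonneg fun x _ => mul_nonneg (ic_nonneg A _) (ic_nonneg A _)
  · unfold aut
    calc ∑ x, ic A x * ic A (x + d) ≤ ∑ _x : G, (1 : ℝ) := by
          apply sum_le_sum
          intro x _
          exact mul_le_one₀ (ic_le A _) (ic_nonneg A _) (ic_le A _)
      _ = Fintype.card G := by simp

/-- the main term -/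
lemma bounded_weight {κ : Type} [Fintype κ] [DecidableEq κ] (A : Finset G) (g h : G → ℝ) (c : ℝ) (hh : ∀ x, 0 ≤ h x ∧ h x ≤ c) :
    0 ≤ ∑ x, ∑ x', g x * g x' * cod A h x x' ^ Fintype.card κ ∧
    ∑ x, ∑ x', g x * g x' * cod A h x x' ^ Fintype.card κ ≤
      c ^ Fintype.card κ * ((Fintype.card G : ℝ) ^ Fintype.card κ * ∑ d, |aut g d|) := by
  constructor
  · rw [sum_cod_pow]
    exact sum_nonneg fun y _ => mul_nonneg (prod_nonneg fun i _ => (hh _).1) (sq_nonneg _)
  · have h1 : ∑ x, ∑ x', g x * g x' * cod A h x x' ^ Fintype.card κ ≤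
        c ^ Fintype.card κ * ∑ x, ∑ x', g x * g x' * cod A (fun _ => 1) x x' ^ Fintype.card κ := by
      rw [sum_cod_pow, sum_cod_pow, mul_sum]
      apply sum_le_sum
      intro y _
      rw [← mul_assoc]
      apply mul_le_mul_of_nonneg_right _ (sq_nonneg _)
      rw [prod_const_one, mul_one]
      calc ∏ i, h (y i) ≤ ∏ _i : κ, c := prod_le_prod (fun i _ => (hh _).1) (fun i _ => (hh _).2)
        _ = c ^ Fintype.card κ := by simp
    refine h1.trans ?_
    by_cases hne : Nonempty G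
    · obtain ⟨x0⟩ := hne
      have hc : 0 ≤ c := (hh x0).1.trans (hh x0).2
      apply mul_le_mul_of_nonneg_left _ (pow_nonneg hc _)
      have h2 : ∑ x, ∑ x', g x * g x' * cod A (fun _ => 1) x x' ^ Fintype.card κ =
          ∑ d, aut (ic A) d ^ Fintype.card κ * aut g d := by
        rw [← sum_diff]
        apply sum_congr rfl
        intro x _
        apply sum_congr rfl
        intro x' _
        rw [cod_one]
      rw [h2, mul_sum]
      apply sum_le_sum
      intro d _
      calc aut (ic A) d ^ Fintype.card κ * aut g d ≤ aut (ic A) d ^ Fintype.card κ * |aut g d| :=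
            mul_le_mul_of_nonneg_left (le_abs_self _) (pow_nonneg (aut_ic_bd A d).1 _)
        _ ≤ _ := mul_le_mul_of_nonneg_right (pow_le_pow_left₀ (aut_ic_bd A d).1 (aut_ic_bd A d).2 _) (abs_nonneg _)
    · exact absurd ⟨(0 : G)⟩ hne

/-- the form of a four cycle -/
noncomputable def cyc (A : Finset G) (w1 w2 g : G → ℝ) : ℝ :=
  ∑ x, ∑ x', ∑ y, ∑ y', w1 x * w2 x' * (g y * g y') *
    ((ic A (x + y) * ic A (x' + y)) * (ic A (x + y') * ic A (x' + y')))

lemma cyc_eq1 (A : Finset G) (w1 w2 g : G → ℝ) :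
    cyc A w1 w2 g = ∑ x, ∑ x', w1 x * w2 x' * cod A g x x' ^ 2 := by
  unfold cyc cod
  apply sum_congr rfl
  intro x _
  apply sum_congr rfl
  intro x' _
  rw [sq, sum_mul_sum, mul_sum]
  apply sum_congr rfl
  intro y _
  rw [mul_sum]
  apply sum_congr rfl
  intro y' _
  ring

lemma cyc_eq2 (A : Finset G) (w g : G → ℝ) :
    cyc A w w g = ∑ y, ∑ y', g y * g y' * cod A w y y' ^ 2 := by
  have h1 : cyc A w w g = ∑ y, ∑ y', ∑ x, ∑ x', w x * w x' * (g y * g y') *
    ((ic A (x + y) * ic A (x' + y)) * (ic A (x + y') * ic A (x' + y'))) := by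
    unfold cyc
    calc _ = ∑ x, ∑ y, ∑ x', ∑ y', w x * w x' * (g y * g y') *
        ((ic A (x + y) * ic A (x' + y)) * (ic A (x + y') * ic A (x' + y'))) :=
          sum_congr rfl fun x _ => sum_comm
      _ = ∑ y, ∑ x, ∑ x', ∑ y', w x * w x' * (g y * g y') *
        ((ic A (x + y) * ic A (x' + y)) * (ic A (x + y') * ic A (x' + y'))) := sum_comm
      _ = ∑ y, ∑ x, ∑ y', ∑ x', w x * w x' * (g y * g y') *
        ((ic A (x + y) * ic A (x' + y)) * (ic A (x + y') * ic A (x' + y'))) :=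
          sum_congr rfl fun y _ => sum_congr rfl fun x _ => sum_comm
      _ = _ := sum_congr rfl fun y _ => sum_comm
  rw [h1]
  apply sum_congr rfl
  intro y _
  apply sum_congr rfl
  intro y' _
  unfold cod
  rw [sq, sum_mul_sum, mul_sum]
  apply sum_congr rfl
  intro x _
  rw [mul_sum]
  apply sum_congr rfl
  intro x' _
  rw [add_comm x y, add_comm x' y, add_comm x y', add_comm x' y']
  ring

lemma cyc_sub (A : Finset G) (w1 w2 g : G → ℝ) :
    cyc A w1 w2 g = ∑ p : G × G × G, (ic A p.1 * ic A p.2.1 * (ic A p.2.2 * ic A (p.2.2 - p.1 + p.2.1))) *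
      ∑ x, w1 x * g (p.1 - x) * (g (p.2.1 - x) * w2 (p.2.2 - p.1 + x)) := by
  have e1 : ∀ x : G, ∑ x', ∑ y, ∑ y', w1 x * w2 x' * (g y * g y') *
      ((ic A (x + y) * ic A (x' + y)) * (ic A (x + y') * ic A (x' + y'))) =
      ∑ a, ∑ b, ∑ c, w1 x * w2 (c - a + x) * (g (a - x) * g (b - x)) *
      ((ic A a * ic A c) * (ic A b * ic A (c - a + b))) := by
    intro x
    rw [sum_comm]
    rw [← Equiv.sum_comp (Equiv.subRight x)]
    apply sum_congr rfl
    intro a _
    rw [sum_comm]
    rw [← Equiv.sum_comp (Equiv.subRight x)]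
    apply sum_congr rfl
    intro b _
    rw [← Equiv.sum_comp (Equiv.subRight (a - x))]
    apply sum_congr rfl
    intro c _
    simp only [Equiv.subRight_apply]
    have h1 : x + (a - x) = a := by abel
    have h2 : c - (a - x) + (a - x) = c := by abel
    have h3 : x + (b - x) = b := by abel
    have h4 : c - (a - x) + (b - x) = c - a + b := by abel
    have h5 : c - (a - x) = c - a + x := by abel
    rw [h1, h2, h3, h4, h5]
  unfold cyc
  rw [sum_congr rfl (fun x _ => e1 x), Fintype.sum_prod_type, sum_comm]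
  apply sum_congr rfl
  intro a _
  rw [Fintype.sum_prod_type, sum_comm]
  apply sum_congr rfl
  intro b _
  rw [sum_comm]
  apply sum_congr rfl
  intro c _
  simp only
  rw [mul_sum]
  apply sum_congr rfl
  intro x _
  ring

lemma aut_shift (g : G → ℝ) (x x' : G) : ∑ a, g (a - x) * g (a - x') = aut g (x' - x) := by
  rw [← aut_neg]
  unfold aut
  rw [← Equiv.sum_comp (Equiv.subRight x) (fun z => g z * g (z + -(x' - x)))]
  apply sum_congr rfl
  intro a _
  simp only [Equiv.subRight_apply]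
  congr 2
  abel

lemma aut_shift' (w : G → ℝ) (a x x' : G) : ∑ c, w (c - a + x) * w (c - a + x') = aut w (x' - x) := by
  unfold aut
  rw [← Equiv.sum_comp (Equiv.addRight (x - a)) (fun z => w z * w (z + (x' - x)))]
  apply sum_congr rfl
  intro c _
  simp only [Equiv.coe_addRight]
  congr 2
  · abel
  · abel

lemma cyc_sq (A : Finset G) (w1 w2 g : G → ℝ) :
    cyc A w1 w2 g ^ 2 ≤ (Fintype.card G : ℝ) ^ 3 * ∑ d, aut g d ^ 2 * aut w2 d * aut w1 d := by
  rw [cyc_sub]
  refine (sum_mul_sq_le_sq_mul_sq _ _ _).trans ?_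
  have h1 : ∑ p : G × G × G, (ic A p.1 * ic A p.2.1 * (ic A p.2.2 * ic A (p.2.2 - p.1 + p.2.1))) ^ 2 ≤
      (Fintype.card G : ℝ) ^ 3 := by
    calc _ ≤ ∑ _p : G × G × G, (1 : ℝ) := by
          apply sum_le_sum
          intro p _
          apply pow_le_one₀
          · exact mul_nonneg (mul_nonneg (ic_nonneg A _) (ic_nonneg A _)) (mul_nonneg (ic_nonneg A _) (ic_nonneg A _))
          · exact mul_le_one₀ (mul_le_one₀ (ic_le A _) (ic_nonneg A _) (ic_le A _))
              (mul_nonneg (ic_nonneg A _) (ic_nonneg A _)) (mul_le_one₀ (ic_le A _) (ic_nonneg A _) (ic_le A _))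
      _ = _ := by
          rw [sum_const, card_univ, nsmul_eq_mul, mul_one, Fintype.card_prod, Fintype.card_prod]
          push_cast
          ring
  have h2 : ∑ p : G × G × G, (∑ x, w1 x * g (p.1 - x) * (g (p.2.1 - x) * w2 (p.2.2 - p.1 + x))) ^ 2 =
      ∑ d, aut g d ^ 2 * aut w2 d * aut w1 d := by
    rw [← sum_diff w1 (fun d => aut g d ^ 2 * aut w2 d)]
    have h3 : ∀ p : G × G × G, (∑ x, w1 x * g (p.1 - x) * (g (p.2.1 - x) * w2 (p.2.2 - p.1 + x))) ^ 2 =
        ∑ x, ∑ x', (w1 x * w1 x') * ((g (p.1 - x) * g (p.1 - x')) * ((g (p.2.1 - x) * g (p.2.1 - x')) *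
          (w2 (p.2.2 - p.1 + x) * w2 (p.2.2 - p.1 + x')))) := by
      intro p
      rw [sq, sum_mul_sum]
      apply sum_congr rfl
      intro x _
      apply sum_congr rfl
      intro x' _
      ring
    rw [sum_congr rfl (fun p _ => h3 p), sum_comm]
    apply sum_congr rfl
    intro x _
    rw [sum_comm]
    apply sum_congr rfl
    intro x' _
    rw [← mul_sum]
    congr 1
    rw [Fintype.sum_prod_type]
    have h4 : ∀ a : G, ∑ q : G × G, (g (a - x) * g (a - x')) * ((g (q.1 - x) * g (q.1 - x')) *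
          (w2 (q.2 - a + x) * w2 (q.2 - a + x'))) =
        (g (a - x) * g (a - x')) * (aut g (x' - x) * aut w2 (x' - x)) := by
      intro a
      rw [← mul_sum, Fintype.sum_prod_type]
      congr 1
      simp only
      have h5 : ∀ b : G, ∑ c : G, (g (b - x) * g (b - x')) * (w2 (c - a + x) * w2 (c - a + x')) =
          (g (b - x) * g (b - x')) * aut w2 (x' - x) := by
        intro b
        rw [← mul_sum, aut_shift']
      rw [sum_congr rfl (fun b _ => h5 b), ← sum_mul, aut_shift]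
    simp only
    rw [sum_congr rfl (fun a _ => h4 a), ← sum_mul, aut_shift]
    ring
  rw [h2]
  apply mul_le_mul_of_nonneg_right h1
  rw [← h2]
  exact sum_nonneg fun _ _ => sq_nonneg _

lemma pow_sub_bd (a b B : ℝ) (ha : 0 ≤ a) (haB : a ≤ B) (hb : 0 ≤ b) (hbB : b ≤ B) (m : ℕ) :
    |a ^ (m + 1) - b ^ (m + 1)| ≤ (m + 1) * B ^ m * |a - b| := by
  have hB : 0 ≤ B := ha.trans haB
  induction m with
  | zero => simp
  | succ m ih =>
    have h1 : a ^ (m + 1 + 1) - b ^ (m + 1 + 1) = a * (a ^ (m + 1) - b ^ (m + 1)) + (a - b) * b ^ (m + 1) := by ring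
    rw [h1]
    refine (abs_add_le _ _).trans ?_
    rw [abs_mul, abs_mul, abs_of_nonneg ha, abs_of_nonneg (pow_nonneg hb _)]
    have h2 : a * |a ^ (m + 1) - b ^ (m + 1)| ≤ B * ((m + 1) * B ^ m * |a - b|) :=
      mul_le_mul haB ih (abs_nonneg _) hB
    have h3 : |a - b| * b ^ (m + 1) ≤ |a - b| * B ^ (m + 1) :=
      mul_le_mul_of_nonneg_left (pow_le_pow_left₀ hb hbB _) (abs_nonneg _)
    push_cast
    calc _ ≤ B * ((m + 1) * B ^ m * |a - b|) + |a - b| * B ^ (m + 1) := add_le_add h2 h3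
      _ = _ := by ring

lemma cyc_add1 (A : Finset G) (v w w2 g : G → ℝ) :
    cyc A (fun x => v x + w x) w2 g = cyc A v w2 g + cyc A w w2 g := by
  rw [cyc_eq1, cyc_eq1, cyc_eq1, ← sum_add_distrib]
  apply sum_congr rfl
  intro x _
  rw [← sum_add_distrib]
  apply sum_congr rfl
  intro x' _
  ring

lemma cyc_add2 (A : Finset G) (w1 v w g : G → ℝ) :
    cyc A w1 (fun x => v x + w x) g = cyc A w1 v g + cyc A w1 w g := by
  rw [cyc_eq1, cyc_eq1, cyc_eq1, ← sum_add_distrib]
  apply sum_congr rfl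
  intro x _
  rw [← sum_add_distrib]
  apply sum_congr rfl
  intro x' _
  ring

/-- the hypotheses of the counting lemma -/
structure Hyp (g h : G → ℝ) (σ : ℝ) : Prop where
  h0 : ∀ x, 0 ≤ h x
  h2 : ∀ x, h x ≤ 2
  abs : ∀ x, |g x| ≤ g x + h x
  sum : ∑ x, (g x + h x) ≤ 2 * Fintype.card G
  s0 : 0 ≤ σ
  s1 : σ ≤ 1
  q4 : ∑ d, aut g d ^ 4 ≤ σ ^ 16 * (Fintype.card G : ℝ) ^ 5

section
variable {g h : G → ℝ} {σ : ℝ}

lemma Hyp.nu (H : Hyp g h σ) (x : G) : 0 ≤ g x + h x := (abs_nonneg _).trans (H.abs x)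

lemma Hyp.aut2 (H : Hyp g h σ) : ∑ d, aut g d ^ 2 ≤ σ ^ 8 * (Fintype.card G : ℝ) ^ 3 := by
  have h1 : (∑ d, aut g d ^ 2) ^ 2 ≤ (σ ^ 8 * (Fintype.card G : ℝ) ^ 3) ^ 2 := by
    have h2 := sum_mul_sq_le_sq_mul_sq (univ : Finset G) (fun _ => (1 : ℝ)) (fun d => aut g d ^ 2)
    simp only [one_mul, one_pow, sum_const, card_univ, nsmul_eq_mul, mul_one] at h2
    calc _ ≤ (Fintype.card G : ℝ) * ∑ d, (aut g d ^ 2) ^ 2 := h2
      _ = (Fintype.card G : ℝ) * ∑ d, aut g d ^ 4 := by
          congr 1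
          apply sum_congr rfl
          intro d _
          ring
      _ ≤ (Fintype.card G : ℝ) * (σ ^ 16 * (Fintype.card G : ℝ) ^ 5) :=
          mul_le_mul_of_nonneg_left H.q4 (Nat.cast_nonneg _)
      _ = _ := by ring
  have h3 := H.s0
  exact le_of_sq_le_sq h1 (by positivity)

lemma Hyp.aut1 (H : Hyp g h σ) : ∑ d, |aut g d| ≤ σ ^ 4 * (Fintype.card G : ℝ) ^ 2 := by
  have h3 := H.s0
  have h1 : (∑ d, |aut g d|) ^ 2 ≤ (σ ^ 4 * (Fintype.card G : ℝ) ^ 2) ^ 2 := by
    have h2 := sum_mul_sq_le_sq_mul_sq (univ : Finset G) (fun _ => (1 : ℝ)) (fun d => |aut g d|)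
    simp only [one_mul, one_pow, sum_const, card_univ, nsmul_eq_mul, mul_one, sq_abs] at h2
    calc _ ≤ (Fintype.card G : ℝ) * ∑ d, (aut g d ^ 2) := h2
      _ ≤ (Fintype.card G : ℝ) * (σ ^ 8 * (Fintype.card G : ℝ) ^ 3) :=
          mul_le_mul_of_nonneg_left H.aut2 (Nat.cast_nonneg _)
      _ = _ := by ring
  exact le_of_sq_le_sq h1 (by positivity)

lemma Hyp.aut3 (H : Hyp g h σ) : ∑ d, |aut g d| ^ 3 ≤ σ ^ 12 * (Fintype.card G : ℝ) ^ 4 := by
  have h3 := H.s0
  have h1 : (∑ d, |aut g d| ^ 3) ^ 2 ≤ (σ ^ 12 * (Fintype.card G : ℝ) ^ 4) ^ 2 := by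
    have h2 := sum_mul_sq_le_sq_mul_sq (univ : Finset G) (fun d => |aut g d|) (fun d => |aut g d| ^ 2)
    calc (∑ d, |aut g d| ^ 3) ^ 2 = (∑ d, |aut g d| * |aut g d| ^ 2) ^ 2 := by
          congr 1
          apply sum_congr rfl
          intro d _
          ring
      _ ≤ (∑ d, |aut g d| ^ 2) * ∑ d, (|aut g d| ^ 2) ^ 2 := h2
      _ = (∑ d, aut g d ^ 2) * ∑ d, aut g d ^ 4 := by
          congr 1
          · apply sum_congr rfl
            intro d _
            rw [sq_abs]
          · apply sum_congr rfl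
            intro d _
            rw [sq_abs]
            ring
      _ ≤ (σ ^ 8 * (Fintype.card G : ℝ) ^ 3) * (σ ^ 16 * (Fintype.card G : ℝ) ^ 5) := by
          apply mul_le_mul H.aut2 H.q4 _ (by positivity)
          exact sum_nonneg fun d _ => by positivity
      _ = _ := by ring
  exact le_of_sq_le_sq h1 (by positivity)

lemma Hyp.auth (H : Hyp g h σ) (d : G) : 0 ≤ aut h d ∧ aut h d ≤ 4 * Fintype.card G := by
  constructor
  · exact sum_nonneg fun x _ => mul_nonneg (H.h0 _) (H.h0 _)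
  · unfold aut
    calc ∑ x, h x * h (x + d) ≤ ∑ _x : G, (4 : ℝ) := by
          apply sum_le_sum
          intro x _
          have := mul_le_mul (H.h2 x) (H.h2 (x + d)) (H.h0 _) (by norm_num)
          linarith
      _ = 4 * Fintype.card G := by simp; ring

lemma Hyp.cyc_hg (H : Hyp g h σ) (A : Finset G) : |cyc A h g g| ≤ 2 * σ ^ 6 * (Fintype.card G : ℝ) ^ 4 := by
  have h3 := H.s0
  apply abs_le_of_sq_le_sq _ (by positivity)
  refine (cyc_sq A h g g).trans ?_
  have h1 : ∑ d, aut g d ^ 2 * aut g d * aut h d ≤ ∑ d, |aut g d| ^ 3 * (4 * Fintype.card G) := by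
    apply sum_le_sum
    intro d _
    have h4 := H.auth d
    calc aut g d ^ 2 * aut g d * aut h d ≤ |aut g d ^ 2 * aut g d| * aut h d :=
          mul_le_mul_of_nonneg_right (le_abs_self _) h4.1
      _ = |aut g d| ^ 3 * aut h d := by
          congr 1
          rw [← abs_pow]
          congr 1
      _ ≤ _ := mul_le_mul_of_nonneg_left h4.2 (by positivity)
  rw [← sum_mul] at h1
  calc _ ≤ (Fintype.card G : ℝ) ^ 3 * ((∑ d, |aut g d| ^ 3) * (4 * Fintype.card G)) :=
        mul_le_mul_of_nonneg_left h1 (by positivity)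
    _ ≤ (Fintype.card G : ℝ) ^ 3 * ((σ ^ 12 * (Fintype.card G : ℝ) ^ 4) * (4 * Fintype.card G)) := by
        apply mul_le_mul_of_nonneg_left _ (by positivity)
        exact mul_le_mul_of_nonneg_right H.aut3 (by positivity)
    _ = _ := by ring

lemma Hyp.cyc_gh (H : Hyp g h σ) (A : Finset G) : |cyc A g h g| ≤ 2 * σ ^ 6 * (Fintype.card G : ℝ) ^ 4 := by
  have h1 : cyc A g h g = cyc A h g g := by
    rw [cyc_eq1, cyc_eq1, sum_comm]
    apply sum_congr rfl
    intro x _
    apply sum_congr rfl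
    intro x' _
    have h2 : cod A g x' x = cod A g x x' := by
      unfold cod
      apply sum_congr rfl
      intro y _
      ring
    rw [h2]
    ring
  rw [h1]
  exact H.cyc_hg A

lemma Hyp.cyc_gg (H : Hyp g h σ) (A : Finset G) : |cyc A g g g| ≤ σ ^ 8 * (Fintype.card G : ℝ) ^ 4 := by
  have h3 := H.s0
  apply abs_le_of_sq_le_sq _ (by positivity)
  refine (cyc_sq A g g g).trans ?_
  have h1 : ∑ d, aut g d ^ 2 * aut g d * aut g d = ∑ d, aut g d ^ 4 := by
    apply sum_congr rfl
    intro d _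
    ring
  rw [h1]
  calc _ ≤ (Fintype.card G : ℝ) ^ 3 * (σ ^ 16 * (Fintype.card G : ℝ) ^ 5) :=
        mul_le_mul_of_nonneg_left H.q4 (by positivity)
    _ = _ := by ring

lemma Hyp.cyc_hh (H : Hyp g h σ) (A : Finset G) : |cyc A h h g| ≤ 4 * σ ^ 4 * (Fintype.card G : ℝ) ^ 4 := by
  have h1 := bounded_weight (κ := Fin 2) A g h 2 (fun x => ⟨H.h0 x, H.h2 x⟩)
  simp only [Fintype.card_fin] at h1
  rw [cyc_eq2, abs_of_nonneg h1.1]
  refine h1.2.trans ?_
  calc (2 : ℝ) ^ 2 * ((Fintype.card G : ℝ) ^ 2 * ∑ d, |aut g d|) ≤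
      (2 : ℝ) ^ 2 * ((Fintype.card G : ℝ) ^ 2 * (σ ^ 4 * (Fintype.card G : ℝ) ^ 2)) := by
        apply mul_le_mul_of_nonneg_left _ (by positivity)
        exact mul_le_mul_of_nonneg_left H.aut1 (by positivity)
    _ = _ := by ring

/-- the second moment of the codegrees -/
lemma Hyp.second (H : Hyp g h σ) (A : Finset G) :
    cyc A (fun x => g x + h x) (fun x => g x + h x) g ≤ 9 * σ ^ 4 * (Fintype.card G : ℝ) ^ 4 := by
  have h3 := H.s0
  have h4 := H.s1
  rw [cyc_add1, cyc_add2, cyc_add2]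
  have e1 := (le_abs_self _).trans (H.cyc_gg A)
  have e2 := (le_abs_self _).trans (H.cyc_gh A)
  have e3 := (le_abs_self _).trans (H.cyc_hg A)
  have e4 := (le_abs_self _).trans (H.cyc_hh A)
  have p6 : σ ^ 6 ≤ σ ^ 4 := pow_le_pow_of_le_one h3 h4 (by norm_num)
  have p8 : σ ^ 8 ≤ σ ^ 4 := pow_le_pow_of_le_one h3 h4 (by norm_num)
  have hn : (0 : ℝ) ≤ (Fintype.card G : ℝ) ^ 4 := by positivity
  have q6 := mul_le_mul_of_nonneg_right p6 hn
  have q8 := mul_le_mul_of_nonneg_right p8 hn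
  nlinarith

/-- codegrees with the weight `g` are small -/
lemma Hyp.cod_small (H : Hyp g h σ) (A : Finset G) :
    ∑ x, ∑ x', |g x| * |g x'| * |cod A g x x'| ≤ 6 * σ ^ 2 * (Fintype.card G : ℝ) ^ 3 := by
  have h3 := H.s0
  have e1 : ∑ x, ∑ x', |g x| * |g x'| * |cod A g x x'| ≤
      ∑ x, ∑ x', (g x + h x) * (g x' + h x') * |cod A g x x'| := by
    apply sum_le_sum
    intro x _
    apply sum_le_sum
    intro x' _
    apply mul_le_mul_of_nonneg_right _ (abs_nonneg _)
    exact mul_le_mul (H.abs x) (H.abs x') (abs_nonneg _) (H.nu x)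
  refine e1.trans ?_
  have e2 : (∑ x, ∑ x', (g x + h x) * (g x' + h x') * |cod A g x x'|) ^ 2 ≤
      (6 * σ ^ 2 * (Fintype.card G : ℝ) ^ 3) ^ 2 := by
    have e3 : ∑ x, ∑ x', (g x + h x) * (g x' + h x') * |cod A g x x'| =
        ∑ p : G × G, √((g p.1 + h p.1) * (g p.2 + h p.2)) * (√((g p.1 + h p.1) * (g p.2 + h p.2)) * |cod A g p.1 p.2|) := by
      rw [Fintype.sum_prod_type]
      apply sum_congr rfl
      intro x _
      apply sum_congr rfl
      intro x' _
      simp only
      rw [← mul_assoc, Real.mul_self_sqrt (mul_nonneg (H.nu _) (H.nu _))]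
    rw [e3]
    refine (sum_mul_sq_le_sq_mul_sq _ _ _).trans ?_
    have e4 : ∑ p : G × G, √((g p.1 + h p.1) * (g p.2 + h p.2)) ^ 2 ≤ (2 * (Fintype.card G : ℝ)) ^ 2 := by
      have e5 : ∑ p : G × G, √((g p.1 + h p.1) * (g p.2 + h p.2)) ^ 2 = (∑ x, (g x + h x)) ^ 2 := by
        rw [sq (∑ x, (g x + h x)), sum_mul_sum, Fintype.sum_prod_type]
        apply sum_congr rfl
        intro x _
        apply sum_congr rfl
        intro x' _
        exact Real.sq_sqrt (mul_nonneg (H.nu _) (H.nu _))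
      rw [e5]
      exact pow_le_pow_left₀ (sum_nonneg fun x _ => H.nu x) H.sum 2
    have e6 : ∑ p : G × G, (√((g p.1 + h p.1) * (g p.2 + h p.2)) * |cod A g p.1 p.2|) ^ 2 ≤
        9 * σ ^ 4 * (Fintype.card G : ℝ) ^ 4 := by
      refine le_trans (le_of_eq ?_) (H.second A)
      rw [cyc_eq1, Fintype.sum_prod_type]
      apply sum_congr rfl
      intro x _
      apply sum_congr rfl
      intro x' _
      simp only
      rw [mul_pow, Real.sq_sqrt (mul_nonneg (H.nu _) (H.nu _)), sq_abs]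
    calc _ ≤ (2 * (Fintype.card G : ℝ)) ^ 2 * (9 * σ ^ 4 * (Fintype.card G : ℝ) ^ 4) :=
          mul_le_mul e4 e6 (sum_nonneg fun _ _ => sq_nonneg _) (by positivity)
      _ = _ := by ring
  exact le_of_sq_le_sq e2 (by positivity)

lemma Hyp.sum_h (H : Hyp g h σ) : ∑ x, h x ≤ 2 * Fintype.card G := by
  calc ∑ x, h x ≤ ∑ _x : G, (2 : ℝ) := sum_le_sum fun x _ => H.h2 x
    _ = _ := by simp; ring

/-- the form with all codegrees -/
lemma Hyp.form (H : Hyp g h σ) (A : Finset G) (m : ℕ) :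
    |∑ x, ∑ x', g x * g x' * cod A (fun y => g y + h y) x x' ^ m| ≤
      σ ^ 2 * (2 ^ m * (1 + 3 * m)) * (Fintype.card G : ℝ) ^ (m + 2) := by
  have h3 := H.s0
  have h4 := H.s1
  have hn : (0 : ℝ) ≤ (Fintype.card G : ℝ) := Nat.cast_nonneg _
  have p4 : σ ^ 4 ≤ σ ^ 2 := pow_le_pow_of_le_one h3 h4 (by norm_num)
  have main : |∑ x, ∑ x', g x * g x' * cod A h x x' ^ m| ≤ σ ^ 2 * 2 ^ m * (Fintype.card G : ℝ) ^ (m + 2) := by
    have h1 := bounded_weight (κ := Fin m) A g h 2 (fun x => ⟨H.h0 x, H.h2 x⟩)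
    simp only [Fintype.card_fin] at h1
    rw [abs_of_nonneg h1.1]
    refine h1.2.trans ?_
    calc (2 : ℝ) ^ m * ((Fintype.card G : ℝ) ^ m * ∑ d, |aut g d|) ≤
        (2 : ℝ) ^ m * ((Fintype.card G : ℝ) ^ m * (σ ^ 4 * (Fintype.card G : ℝ) ^ 2)) := by
          apply mul_le_mul_of_nonneg_left _ (by positivity)
          exact mul_le_mul_of_nonneg_left H.aut1 (by positivity)
      _ ≤ (2 : ℝ) ^ m * ((Fintype.card G : ℝ) ^ m * (σ ^ 2 * (Fintype.card G : ℝ) ^ 2)) := by
          apply mul_le_mul_of_nonneg_left _ (by positivity)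
          apply mul_le_mul_of_nonneg_left _ (by positivity)
          exact mul_le_mul_of_nonneg_right p4 (by positivity)
      _ = _ := by ring
  rcases Nat.eq_zero_or_pos m with hm | hm
  · rw [hm] at main ⊢
    simp only [pow_zero, mul_one] at main ⊢
    refine main.trans (le_of_eq ?_)
    simp
  · obtain ⟨k, rfl⟩ : ∃ k, m = k + 1 := ⟨m - 1, by omega⟩
    have e1 : ∑ x, ∑ x', g x * g x' * cod A (fun y => g y + h y) x x' ^ (k + 1) =
        ∑ x, ∑ x', g x * g x' * cod A h x x' ^ (k + 1) +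
        ∑ x, ∑ x', g x * g x' * (cod A (fun y => g y + h y) x x' ^ (k + 1) - cod A h x x' ^ (k + 1)) := by
      rw [← sum_add_distrib]
      apply sum_congr rfl
      intro x _
      rw [← sum_add_distrib]
      apply sum_congr rfl
      intro x' _
      ring
    have e2 : |∑ x, ∑ x', g x * g x' * (cod A (fun y => g y + h y) x x' ^ (k + 1) - cod A h x x' ^ (k + 1))| ≤
        ((k : ℝ) + 1) * (2 * (Fintype.card G : ℝ)) ^ k * (6 * σ ^ 2 * (Fintype.card G : ℝ) ^ 3) := by
      refine (abs_sum_le_sum_abs _ _).trans ?_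
      have e3 : ∀ x, |∑ x', g x * g x' * (cod A (fun y => g y + h y) x x' ^ (k + 1) - cod A h x x' ^ (k + 1))| ≤
          ((k : ℝ) + 1) * (2 * (Fintype.card G : ℝ)) ^ k * ∑ x', |g x| * |g x'| * |cod A g x x'| := by
        intro x
        refine (abs_sum_le_sum_abs _ _).trans ?_
        rw [mul_sum]
        apply sum_le_sum
        intro x' _
        rw [abs_mul, abs_mul]
        have e4 := pow_sub_bd (cod A (fun y => g y + h y) x x') (cod A h x x') (2 * (Fintype.card G : ℝ))
          (cod_nonneg A _ (fun y => H.nu y) x x') ((cod_le A _ (fun y => H.nu y) x x').trans H.sum)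
          (cod_nonneg A _ H.h0 x x') ((cod_le A _ H.h0 x x').trans H.sum_h) k
        have e5 : cod A (fun y => g y + h y) x x' - cod A h x x' = cod A g x x' := by
          rw [cod_add]
          ring
        rw [e5] at e4
        calc _ ≤ |g x| * |g x'| * ((k + 1) * (2 * (Fintype.card G : ℝ)) ^ k * |cod A g x x'|) :=
              mul_le_mul_of_nonneg_left e4 (by positivity)
          _ = _ := by ring
      refine (sum_le_sum fun x _ => e3 x).trans ?_
      rw [← mul_sum]
      exact mul_le_mul_of_nonneg_left (H.cod_small A) (by positivity)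
    rw [e1]
    refine (abs_add_le _ _).trans ((add_le_add main e2).trans (le_of_eq ?_))
    push_cast
    ring

/-- one vertex with the weight `g` -/
lemma Hyp.vertex (H : Hyp g h σ) {κ : Type} [Fintype κ] [DecidableEq κ] (A : Finset G) :
    ∑ y : κ → G, (∏ i, (g (y i) + h (y i))) * |∑ x, g x * ∏ i, ic A (x + y i)| ≤
      σ * (2 ^ Fintype.card κ * (1 + 3 * Fintype.card κ)) * (Fintype.card G : ℝ) ^ (Fintype.card κ + 1) := by
  have h3 := H.s0
  obtain ⟨m, hm⟩ : ∃ m, m = Fintype.card κ := ⟨_, rfl⟩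
  have hnu : ∀ y : κ → G, 0 ≤ ∏ i, (g (y i) + h (y i)) := fun y => prod_nonneg fun i _ => H.nu _
  have e2 : (∑ y : κ → G, (∏ i, (g (y i) + h (y i))) * |∑ x, g x * ∏ i, ic A (x + y i)|) ^ 2 ≤
      (σ * (2 ^ m * (1 + 3 * m)) * (Fintype.card G : ℝ) ^ (m + 1)) ^ 2 := by
    have e3 : ∑ y : κ → G, (∏ i, (g (y i) + h (y i))) * |∑ x, g x * ∏ i, ic A (x + y i)| =
        ∑ y : κ → G, √(∏ i, (g (y i) + h (y i))) * (√(∏ i, (g (y i) + h (y i))) * |∑ x, g x * ∏ i, ic A (x + y i)|) := by
      apply sum_congr rfl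
      intro y _
      rw [← mul_assoc, Real.mul_self_sqrt (hnu y)]
    rw [e3]
    refine (sum_mul_sq_le_sq_mul_sq _ _ _).trans ?_
    have e4 : ∑ y : κ → G, √(∏ i, (g (y i) + h (y i))) ^ 2 ≤ (2 * (Fintype.card G : ℝ)) ^ m := by
      have e5 : ∑ y : κ → G, √(∏ i, (g (y i) + h (y i))) ^ 2 = (∑ x, (g x + h x)) ^ m := by
        have h := Finset.prod_univ_sum (fun _ : κ => (univ : Finset G)) (fun _ y => g y + h y)
        rw [Finset.prod_const, Finset.card_univ, ← hm] at h
        rw [h]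
        have h6 : Fintype.piFinset (fun _ : κ => (univ : Finset G)) = univ := by
          ext y
          simp
        rw [h6]
        apply sum_congr rfl
        intro y _
        exact Real.sq_sqrt (hnu y)
      rw [e5]
      exact pow_le_pow_left₀ (sum_nonneg fun x _ => H.nu x) H.sum m
    have e6 : ∑ y : κ → G, (√(∏ i, (g (y i) + h (y i))) * |∑ x, g x * ∏ i, ic A (x + y i)|) ^ 2 ≤
        σ ^ 2 * (2 ^ m * (1 + 3 * m)) * (Fintype.card G : ℝ) ^ (m + 2) := by
      refine le_trans (le_of_eq ?_) ((le_abs_self _).trans (H.form A m))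
      rw [hm, sum_cod_pow]
      apply sum_congr rfl
      intro y _
      rw [mul_pow, Real.sq_sqrt (hnu y), sq_abs]
    calc _ ≤ (2 * (Fintype.card G : ℝ)) ^ m * (σ ^ 2 * (2 ^ m * (1 + 3 * m)) * (Fintype.card G : ℝ) ^ (m + 2)) :=
          mul_le_mul e4 e6 (sum_nonneg fun _ _ => sq_nonneg _) (by positivity)
      _ = (σ * 2 ^ m * (Fintype.card G : ℝ) ^ (m + 1)) ^ 2 * (1 + 3 * m) := by
          rw [mul_pow 2 (Fintype.card G : ℝ) m]
          ring
      _ ≤ (σ * 2 ^ m * (Fintype.card G : ℝ) ^ (m + 1)) ^ 2 * (1 + 3 * m) ^ 2 := by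
          apply mul_le_mul_of_nonneg_left _ (by positivity)
          have : (0 : ℝ) ≤ m := Nat.cast_nonneg _
          nlinarith
      _ = _ := by ring
  rw [← hm]
  exact le_of_sq_le_sq e2 (by positivity)

end

section
variable {ι : Type} [Fintype ι] [DecidableEq ι]

open Classical in
/-- the indicator function of cliques -/
noncomputable def cl {κ : Type} (A : Finset G) (y : κ → G) : ℝ := if ∀ i j, i ≠ j → y i + y j ∈ A then 1 else 0

lemma cl_nonneg {κ : Type} (A : Finset G) (y : κ → G) : 0 ≤ cl A y := by unfold cl; split_ifs <;> norm_num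
lemma cl_le {κ : Type} (A : Finset G) (y : κ → G) : cl A y ≤ 1 := by unfold cl; split_ifs <;> norm_num

/-- the weighted number of cliques -/
noncomputable def clq (A : Finset G) (f : ι → G → ℝ) : ℝ := ∑ y : ι → G, (∏ i, f i (y i)) * cl A y

lemma prod_ic {κ : Type} [Fintype κ] (A : Finset G) (x : G) (z : κ → G) :
    ∏ j, ic A (x + z j) = if ∀ j, x + z j ∈ A then 1 else 0 := by
  split_ifs with h
  · apply prod_eq_one
    intro j _
    unfold ic
    rw [if_pos (h j)]
  · push Not at h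
    obtain ⟨j, hj⟩ := h
    apply prod_eq_zero (mem_univ j)
    unfold ic
    rw [if_neg hj]

lemma clq_split (A : Finset G) (f : ι → G → ℝ) (i : ι) :
    clq A f = ∑ z : {j // j ≠ i} → G, (∏ j : {j // j ≠ i}, f j (z j)) * cl A z * ∑ x, f i x * ∏ j, ic A (x + z j) := by
  classical
  unfold clq
  rw [← Equiv.sum_comp (Equiv.funSplitAt i G).symm, Fintype.sum_prod_type_right]
  apply sum_congr rfl
  intro z _
  rw [mul_sum]
  apply sum_congr rfl
  intro x _
  have h1 : (Equiv.funSplitAt i G).symm (x, z) i = x := by simp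
  have h2 : ∀ j : {j // j ≠ i}, (Equiv.funSplitAt i G).symm (x, z) j = z j := by
    intro j
    simp [j.2]
  rw [Fintype.prod_eq_mul_prod_subtype_ne _ i, h1, prod_congr rfl (fun j _ => by rw [h2 j])]
  have h3 : cl A ((Equiv.funSplitAt i G).symm (x, z)) = cl A z * ∏ j, ic A (x + z j) := by
    rw [prod_ic]
    unfold cl
    by_cases hc : ∀ a b, a ≠ b → z a + z b ∈ A
    · by_cases hd : ∀ j, x + z j ∈ A
      · rw [if_pos hc, if_pos hd, if_pos, one_mul]
        intro a b hab
        by_cases ha : a = i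
        · subst ha
          rw [h1]
          have := h2 ⟨b, fun h => hab h.symm⟩
          simp only at this
          rw [this]
          exact hd _
        · by_cases hb : b = i
          · subst hb
            rw [h1]
            have := h2 ⟨a, hab⟩
            simp only at this
            rw [this, add_comm]
            exact hd _
          · have ea := h2 ⟨a, ha⟩
            have eb := h2 ⟨b, hb⟩
            simp only at ea eb
            rw [ea, eb]
            exact hc _ _ (fun h => hab (congrArg Subtype.val h))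
      · rw [if_neg hd, mul_zero, if_neg]
        push Not at hd ⊢
        obtain ⟨j, hj⟩ := hd
        refine ⟨i, j, fun h => j.2 h.symm, ?_⟩
        rw [h1, h2]
        exact hj
    · rw [if_neg hc, zero_mul, if_neg]
      push Not at hc ⊢
      obtain ⟨a, b, hab, hj⟩ := hc
      refine ⟨a, b, fun h => hab (Subtype.ext h), ?_⟩
      rw [h2, h2]
      exact hj
  rw [h3]
  ring

/-- changing the weight at one vertex -/
lemma Hyp.step {g h : G → ℝ} {σ : ℝ} (H : Hyp g h σ) (A : Finset G) (f f' : ι → G → ℝ) (i : ι)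
    (hf : ∀ j, j ≠ i → f j = f' j) (hi : ∀ x, f i x - f' i x = g x)
    (h0 : ∀ j, j ≠ i → ∀ x, 0 ≤ f j x) (hh : ∀ j, j ≠ i → ∀ x, f j x ≤ g x + h x) (m : ℕ) (hm : m + 1 = Fintype.card ι) :
    |clq A f - clq A f'| ≤ σ * (2 ^ m * (1 + 3 * m)) * (Fintype.card G : ℝ) ^ (m + 1) := by
  have hc : Fintype.card {j // j ≠ i} = m := by
    rw [Fintype.card_subtype_compl, Fintype.card_subtype_eq]
    omega
  have e1 : clq A f - clq A f' = ∑ z : {j // j ≠ i} → G, (∏ j : {j // j ≠ i}, f j (z j)) * cl A z *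
      ∑ x, g x * ∏ j, ic A (x + z j) := by
    rw [clq_split A f i, clq_split A f' i, ← sum_sub_distrib]
    apply sum_congr rfl
    intro z _
    have e2 : ∏ j : {j // j ≠ i}, f' j (z j) = ∏ j : {j // j ≠ i}, f j (z j) := by
      apply prod_congr rfl
      intro j _
      rw [hf j j.2]
    rw [e2, ← mul_sub, ← sum_sub_distrib]
    congr 1
    apply sum_congr rfl
    intro x _
    rw [← hi x]
    ring
  rw [e1]
  refine (abs_sum_le_sum_abs _ _).trans ?_
  have e3 := H.vertex (κ := {j // j ≠ i}) A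
  rw [hc] at e3
  refine le_trans ?_ e3
  apply sum_le_sum
  intro z _
  rw [abs_mul]
  apply mul_le_mul_of_nonneg_right _ (abs_nonneg _)
  have p0 : 0 ≤ ∏ j : {j // j ≠ i}, f j (z j) := prod_nonneg fun j _ => h0 j j.2 _
  rw [abs_of_nonneg (mul_nonneg p0 (cl_nonneg A z))]
  calc (∏ j : {j // j ≠ i}, f j (z j)) * cl A z ≤ (∏ j : {j // j ≠ i}, f j (z j)) * 1 :=
        mul_le_mul_of_nonneg_left (cl_le A z) p0
    _ = ∏ j : {j // j ≠ i}, f j (z j) := mul_one _
    _ ≤ _ := prod_le_prod (fun j _ => h0 j j.2 _) (fun j _ => hh j j.2 _)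

/-- **The counting lemma.** -/
theorem Hyp.count {lam mu : G → ℝ} {σ : ℝ} (H : Hyp (fun x => lam x - mu x) (fun x => mu x + 1) σ) (A : Finset G)
    (hl : ∀ x, 0 ≤ lam x) (hm0 : ∀ x, 0 ≤ mu x) (hm1 : ∀ x, mu x ≤ 1) (m : ℕ) (hm : m + 1 = Fintype.card ι) :
    |clq A (fun _ : ι => lam) - clq A (fun _ : ι => mu)| ≤
      Fintype.card ι * (σ * (2 ^ m * (1 + 3 * m)) * (Fintype.card G : ℝ) ^ (m + 1)) := by
  have key : ∀ S : Finset ι, |clq A (fun i x => if i ∈ S then lam x else mu x) - clq A (fun _ : ι => mu)| ≤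
      S.card * (σ * (2 ^ m * (1 + 3 * m)) * (Fintype.card G : ℝ) ^ (m + 1)) := by
    intro S
    induction S using Finset.induction_on with
    | empty => simp
    | insert a S ha ih =>
      have h1 := H.step A (fun i x => if i ∈ insert a S then lam x else mu x) (fun i x => if i ∈ S then lam x else mu x) a
        (by
          intro j hj
          funext x
          have : j ∈ insert a S ↔ j ∈ S := by simp [hj]
          simp only [this])
        (by
          intro x
          simp [ha])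
        (by
          intro j _ x
          split_ifs
          · exact hl x
          · exact hm0 x)
        (by
          intro j _ x
          split_ifs
          · linarith
          · linarith [hl x, hm1 x])
        m hm
      rw [card_insert_of_notMem ha]
      push_cast
      calc _ ≤ _ + _ := abs_sub_le _ (clq A (fun i x => if i ∈ S then lam x else mu x)) _
        _ ≤ _ := add_le_add h1 ih
        _ = _ := by ring
  have h := key univ
  simpa using h

end

end Pool.Agent.H68.MG
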