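import Pool.Graph.R_seed8.Helper868.DHJ

set_option autoImplicit false
set_option linter.unusedSectionVars false

/-! Dense sets contain all averages of many tuples. -/

namespace Pool.Agent.H68.MG
open Finset hiding dens
open Pool.Agent.Helper868.DHJ

/-- the words -/
def phi {k n : ℕ} (x : ℕ) (h : Fin k → ℕ) (w : Fin n → Fin k × Fin k) : ℕ :=
  x + ∑ l, (h (w l).1 + h (w l).2)

/-- the number of wildcards -/
def wl {k n : ℕ} (u : Fin n → Option (Fin k × Fin k)) : ℕ := (univ.filter fun l => u l = none).card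

/-- the fixed part -/
def fx {k n : ℕ} (x : ℕ) (h : Fin k → ℕ) (u : Fin n → Option (Fin k × Fin k)) : ℕ :=
  x + ∑ l, (u l).elim 0 (fun b => h b.1 + h b.2)

lemma phi_pt {k n : ℕ} (x : ℕ) (h : Fin k → ℕ) (u : Fin n → Option (Fin k × Fin k)) (b : Fin k × Fin k) :
    phi x h (pt u b) = fx x h u + wl u * (h b.1 + h b.2) := by
  unfold phi fx wl
  have h1 : ∀ l, h (pt u b l).1 + h (pt u b l).2 =
      (u l).elim 0 (fun b => h b.1 + h b.2) + if u l = none then (h b.1 + h b.2) else 0 := by
    intro l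
    unfold pt
    cases hu : u l <;> simp
  rw [sum_congr rfl (fun l _ => h1 l), sum_add_distrib, ← sum_filter, sum_const, smul_eq_mul]
  ring

/-- **Dense sets contain all averages of many tuples.** -/
theorem dense (k : ℕ) (hk : 0 < k) (δ : ℝ) (hδ : 0 < δ) : ∃ c : ℝ, 0 < c ∧ ∃ M₀ : ℕ, ∀ M ≥ M₀, ∀ C : Finset ℕ,
    (∀ t ∈ C, t < M) → δ * M ≤ C.card →
    c * (M : ℝ) ^ k ≤ ((univ : Finset (Fin k → Fin M)).filter
      (fun y => ∀ i j, i ≠ j → ∃ t ∈ C, (y i : ℕ) + y j = 2 * t)).card := by
  classical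
  obtain ⟨N, hN⟩ := density_hales_jewett (Fin k × Fin k) (δ / 4) (by linarith)
  obtain ⟨n, hn⟩ : ∃ n, n = N + 1 := ⟨_, rfl⟩
  have hn0 : 0 < n := by omega
  have hn0' : (0 : ℝ) < n := by exact_mod_cast hn0
  obtain ⟨q, hq⟩ : ∃ q : ℝ, q = Fintype.card (Fin n → Option (Fin k × Fin k)) := ⟨_, rfl⟩
  have hq0 : 0 < q := by
    rw [hq]
    exact_mod_cast Fintype.card_pos
  refine ⟨δ / 2 * (δ / (16 * n)) ^ (k - 1) / q, by positivity, ⌈16 * n / δ⌉₊ + 1, ?_⟩
  intro M hM C hC hCc
  have hM0 : 0 < M := by omega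
  have hM0' : (0 : ℝ) < M := by exact_mod_cast hM0
  have hM1 : 16 * n / δ ≤ M := by
    have h1 := Nat.le_ceil (16 * n / δ)
    have h2 : ((⌈16 * n / δ⌉₊ : ℕ) : ℝ) ≤ M := by exact_mod_cast (by omega : ⌈16 * n / δ⌉₊ ≤ M)
    linarith
  obtain ⟨H, hH⟩ : ∃ H, H = ⌊δ * M / (8 * n)⌋₊ := ⟨_, rfl⟩
  have hH1 : (H : ℝ) ≤ δ * M / (8 * n) := by
    rw [hH]
    exact Nat.floor_le (by positivity)
  have hH2 : δ * M / (16 * n) ≤ H := by
    have h1 : δ * M / (8 * n) < H + 1 := by
      rw [hH]
      exact Nat.lt_floor_add_one _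
    have h2 : 1 ≤ δ * M / (16 * n) := by
      rw [le_div_iff₀ (by positivity)]
      rw [div_le_iff₀ hδ] at hM1
      linarith
    have h3 : δ * M / (8 * n) = δ * M / (16 * n) + δ * M / (16 * n) := by
      field_simp
      ring
    linarith
  have hH0' : (0 : ℝ) < H := lt_of_lt_of_le (by positivity) hH2
  have hH0 : 0 < H := by exact_mod_cast hH0'
  have : NeZero H := ⟨by omega⟩
  have : NeZero M := ⟨by omega⟩
  have : NeZero k := ⟨by omega⟩
  -- the sets
  set A : Fin M × (Fin k → Fin H) → Set (Fin n → Fin k × Fin k) :=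
    fun p => {w | phi (p.1 : ℕ) (fun i => (p.2 i : ℕ)) w ∈ C} with hA
  have step1 : 3 * δ / 4 ≤ av (fun p => dens (A p)) := by
    have e1 : av (fun p => dens (A p)) = av (fun w => av fun p : Fin M × (Fin k → Fin H) => ind (A p) w) := by
      unfold dens
      rw [av_comm]
    have e2 : ∀ w : Fin n → Fin k × Fin k, av (fun p : Fin M × (Fin k → Fin H) => ind (A p) w) =
        av (fun h : Fin k → Fin H => av fun x : Fin M => ind (A (x, h)) w) := by
      intro w
      rw [av_prod, av_comm]
    rw [e1]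
    have e3 : ∀ (w : Fin n → Fin k × Fin k) (h : Fin k → Fin H), 3 * δ / 4 ≤ av fun x : Fin M => ind (A (x, h)) w := by
      intro w h
      obtain ⟨s, hs⟩ : ∃ s, s = ∑ l, ((h (w l).1 : ℕ) + (h (w l).2 : ℕ)) := ⟨_, rfl⟩
      have hs1 : (s : ℝ) ≤ δ * M / 4 := by
        have h1 : s ≤ ∑ _l : Fin n, (H + H) := by
          rw [hs]
          apply sum_le_sum
          intro l _
          exact add_le_add (h _).2.le (h _).2.le
        have h2 : (s : ℝ) ≤ n * (H + H) := by
          have : s ≤ n * (H + H) := by simpa using h1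
          exact_mod_cast this
        have h3 : (n : ℝ) * (H + H) ≤ n * (δ * M / (8 * n) + δ * M / (8 * n)) :=
          mul_le_mul_of_nonneg_left (add_le_add hH1 hH1) hn0'.le
        have h4 : n * (δ * M / (8 * n) + δ * M / (8 * n)) = δ * M / 4 := by
          field_simp
          ring
        linarith
      rw [av_eq_sum, Fintype.card_fin, le_div_iff₀ hM0']
      have e4 : ∑ x : Fin M, ind (A (x, h)) w = ((univ.filter fun x : Fin M => (x : ℕ) + s ∈ C).card : ℝ) := by
        rw [card_filter]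
        push_cast
        apply sum_congr rfl
        intro x _
        by_cases hx : (x : ℕ) + s ∈ C
        · rw [if_pos hx]
          apply ind_mem
          rw [hA]
          simp only [Set.mem_ofPred_eq]
          unfold phi
          rw [← hs]
          exact hx
        · rw [if_neg hx]
          apply ind_not_mem
          rw [hA]
          simp only [Set.mem_ofPred_eq]
          unfold phi
          rw [← hs]
          exact hx
      rw [e4]
      have e5 : C.card ≤ (univ.filter fun x : Fin M => (x : ℕ) + s ∈ C).card + s := by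
        have h1 : C ⊆ (univ.filter fun x : Fin M => (x : ℕ) + s ∈ C).image (fun x : Fin M => (x : ℕ) + s) ∪ range s := by
          intro t ht
          rw [mem_union]
          by_cases hts : t < s
          · right
            exact mem_range.2 hts
          · left
            rw [mem_image]
            have h2 := hC t ht
            refine ⟨⟨t - s, by omega⟩, ?_, ?_⟩
            · rw [mem_filter]
              refine ⟨mem_univ _, ?_⟩
              simp only
              rw [Nat.sub_add_cancel (by omega)]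
              exact ht
            · simp only
              omega
        calc C.card ≤ _ := card_le_card h1
          _ ≤ _ := card_union_le _ _
          _ ≤ _ := by
            rw [card_range]
            exact Nat.add_le_add_right card_image_le _
      have e6 : (C.card : ℝ) ≤ ((univ.filter fun x : Fin M => (x : ℕ) + s ∈ C).card : ℝ) + s := by exact_mod_cast e5
      linarith
    calc 3 * δ / 4 = av (fun _ : Fin n → Fin k × Fin k => 3 * δ / 4) := (av_const _).symm
      _ ≤ _ := by
        apply av_mono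
        intro w
        rw [e2]
        calc 3 * δ / 4 = av (fun _ : Fin k → Fin H => 3 * δ / 4) := (av_const _).symm
          _ ≤ _ := av_mono fun h => e3 w h
  set good : Set (Fin M × (Fin k → Fin H)) := {p | δ / 4 ≤ dens (A p)} with hgood
  have step2 : δ / 2 ≤ dens good := by
    have h1 : av (fun p => dens (A p)) ≤ av (fun p => δ / 4 + ind good p) := by
      apply av_mono
      intro p
      by_cases hp : p ∈ good
      · rw [ind_mem hp]
        linarith [dens_le_one (A p)]
      · rw [ind_not_mem hp]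
        rw [hgood] at hp
        simp only [Set.mem_ofPred_eq, not_le] at hp
        linarith
    rw [av_add, av_const] at h1
    unfold dens
    linarith
  have step3 : ∀ p ∈ good, ∃ u : Fin n → Option (Fin k × Fin k), (∃ l, u l = none) ∧ ∀ b, pt u b ∈ A p := by
    intro p hp
    by_contra hcon
    push Not at hcon
    have h1 := hN (Fin n) (by rw [Fintype.card_fin]; omega) (A p) (fun u hu => hcon u hu)
    rw [hgood] at hp
    simp only [Set.mem_ofPred_eq] at hp
    linarith
  choose! U hU1 hU2 using step3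
  obtain ⟨Y, hY⟩ : ∃ Y, Y = ((univ : Finset (Fin k → Fin M)).filter
      (fun y => ∀ i j, i ≠ j → ∃ t ∈ C, (y i : ℕ) + y j = 2 * t)) := ⟨_, rfl⟩
  rw [← hY]
  have hmem : ∀ p ∈ good, ∀ i j, fx (p.1 : ℕ) (fun i => (p.2 i : ℕ)) (U p) + wl (U p) * ((p.2 i : ℕ) + (p.2 j : ℕ)) ∈ C := by
    intro p hp i j
    have h1 := hU2 p hp (i, j)
    rw [hA] at h1
    simp only [Set.mem_ofPred_eq] at h1
    rw [phi_pt] at h1
    exact h1
  have hwl : ∀ p ∈ good, 0 < wl (U p) := by
    intro p hp
    obtain ⟨l, hl⟩ := hU1 p hp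
    unfold wl
    apply card_pos.2
    exact ⟨l, mem_filter.2 ⟨mem_univ _, hl⟩⟩
  -- the map
  let F : Fin M × (Fin k → Fin H) → ((Fin n → Option (Fin k × Fin k)) × Fin H) × (Fin k → Fin M) :=
    fun p => ((U p, p.2 0), fun i => Fin.ofNat M (fx (p.1 : ℕ) (fun i => (p.2 i : ℕ)) (U p) + wl (U p) * ((p.2 i : ℕ) + (p.2 i : ℕ))))
  have hFv : ∀ p ∈ good, ∀ i, ((F p).2 i : ℕ) = fx (p.1 : ℕ) (fun i => (p.2 i : ℕ)) (U p) + wl (U p) * ((p.2 i : ℕ) + (p.2 i : ℕ)) := by
    intro p hp i
    simp only [F, Fin.val_ofNat]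
    exact Nat.mod_eq_of_lt (hC _ (hmem p hp i i))
  have hinj : Set.InjOn F good := by
    intro p hp p' hp' he
    have h1 : U p = U p' := congrArg (fun z => z.1.1) he
    have h2 : p.2 0 = p'.2 0 := congrArg (fun z => z.1.2) he
    have h3 : ∀ i, ((F p).2 i : ℕ) = ((F p').2 i : ℕ) := by
      intro i
      rw [he]
    have h4 : ∀ i, fx (p.1 : ℕ) (fun i => (p.2 i : ℕ)) (U p) + wl (U p) * ((p.2 i : ℕ) + (p.2 i : ℕ)) =
        fx (p'.1 : ℕ) (fun i => (p'.2 i : ℕ)) (U p) + wl (U p) * ((p'.2 i : ℕ) + (p'.2 i : ℕ)) := by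
      intro i
      have h5 := h3 i
      rw [hFv p hp, hFv p' hp', ← h1] at h5
      exact h5
    have h5 : fx (p.1 : ℕ) (fun i => (p.2 i : ℕ)) (U p) = fx (p'.1 : ℕ) (fun i => (p'.2 i : ℕ)) (U p) := by
      have h6 := h4 0
      rw [h2] at h6
      omega
    have h6 : ∀ i, p.2 i = p'.2 i := by
      intro i
      have h7 := h4 i
      rw [h5] at h7
      have h8 := Nat.add_left_cancel h7
      have h9 := Nat.eq_of_mul_eq_mul_left (hwl p hp) h8
      apply Fin.ext
      omega
    have h7 : p.2 = p'.2 := funext h6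
    have h8 : p.1 = p'.1 := by
      rw [h7] at h5
      unfold fx at h5
      apply Fin.ext
      omega
    exact Prod.ext h8 h7
  obtain ⟨GF, hGF⟩ : ∃ GF : Finset (Fin M × (Fin k → Fin H)), ∀ p, p ∈ GF ↔ p ∈ good :=
    ⟨univ.filter fun p => p ∈ good, fun p => by rw [mem_filter]; exact ⟨fun h => h.2, fun h => ⟨mem_univ _, h⟩⟩⟩
  have step4 : GF.card ≤
      ((univ : Finset ((Fin n → Option (Fin k × Fin k)) × Fin H)) ×ˢ Y).card := by
    apply card_le_card_of_injOn F
    · intro p hp
      rw [mem_coe, hGF] at hp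
      rw [mem_coe, mem_product]
      refine ⟨mem_univ _, ?_⟩
      rw [hY, mem_filter]
      refine ⟨mem_univ _, ?_⟩
      intro i j _
      refine ⟨_, hmem p hp i j, ?_⟩
      rw [hFv p hp, hFv p hp]
      ring
    · intro p hp p' hp'
      rw [mem_coe, hGF] at hp hp'
      exact hinj hp hp'
  have step5 : dens good * (M * (H : ℝ) ^ k) = (GF.card : ℝ) := by
    unfold dens
    rw [av_eq_sum]
    have e1 : ∑ p, ind good p = (GF.card : ℝ) := by
      rw [card_eq_sum_ones, ← sum_subset (subset_univ GF)]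
      · push_cast
        apply sum_congr rfl
        intro p hp
        exact ind_mem ((hGF p).1 hp)
      · intro p _ hp
        exact ind_not_mem (fun h => hp ((hGF p).2 h))
    rw [e1]
    have e2 : (Fintype.card (Fin M × (Fin k → Fin H)) : ℝ) = M * (H : ℝ) ^ k := by
      simp
    rw [e2]
    field_simp
  have step6 : δ / 2 * (M * (H : ℝ) ^ k) ≤ q * H * Y.card := by
    have h1 : δ / 2 * (M * (H : ℝ) ^ k) ≤ dens good * (M * (H : ℝ) ^ k) :=
      mul_le_mul_of_nonneg_right step2 (by positivity)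
    rw [step5] at h1
    refine h1.trans ?_
    have h2 : (GF.card : ℝ) ≤
      (((univ : Finset ((Fin n → Option (Fin k × Fin k)) × Fin H)) ×ˢ Y).card : ℝ) := by exact_mod_cast step4
    refine h2.trans (le_of_eq ?_)
    rw [card_product, card_univ, Fintype.card_prod, Fintype.card_fin, hq]
    push_cast
    ring
  obtain ⟨k', rfl⟩ : ∃ k', k = k' + 1 := ⟨k - 1, by omega⟩
  have step7 : δ / 2 * (M * (H : ℝ) ^ k') ≤ q * Y.card := by
    have h1 : (δ / 2 * (M * (H : ℝ) ^ k')) * H ≤ (q * Y.card) * H := by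
      calc _ = δ / 2 * (M * (H : ℝ) ^ (k' + 1)) := by ring
        _ ≤ _ := step6
        _ = _ := by ring
    exact le_of_mul_le_mul_right h1 hH0'
  have step8 : (δ * M / (16 * n)) ^ k' ≤ (H : ℝ) ^ k' := pow_le_pow_left₀ (by positivity) hH2 k'
  have step9 : δ / 2 * (M * (δ * M / (16 * n)) ^ k') ≤ q * Y.card := by
    refine le_trans ?_ step7
    apply mul_le_mul_of_nonneg_left _ (by positivity)
    exact mul_le_mul_of_nonneg_left step8 hM0'.le
  rw [Nat.add_sub_cancel]
  rw [div_mul_eq_mul_div, div_le_iff₀ hq0]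
  calc δ / 2 * (δ / (16 * n)) ^ k' * (M : ℝ) ^ (k' + 1) = δ / 2 * (M * (δ * M / (16 * n)) ^ k') := by
        rw [show δ * M / (16 * n) = (δ / (16 * n)) * M by ring, mul_pow]
        ring
    _ ≤ q * Y.card := step9
    _ = Y.card * q := by ring

end Pool.Agent.H68.MG
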