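import Mathlib
import Pool.Agent.H68.MG.Arith
import Pool.Agent.H68.MG.Count
import Pool.Agent.H68.MG.Dense

set_option autoImplicit false
set_option linter.unusedSectionVars false
set_option linter.unusedVariables false

/-! Transfer to a cyclic group. -/

namespace Pool.Agent.H68.MG
open Finset
open Pool.Agent.H373R2.T7 Pool.Agent.N730.PT

open scoped ArithmeticFunction.vonMangoldt

lemma sum_zmod (N : ℕ) [NeZero N] (F : ZMod N → ℝ) : ∑ x, F x = ∑ k ∈ range N, F (k : ZMod N) := by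
  symm
  apply sum_nbij' (fun k : ℕ => (k : ZMod N)) (fun x : ZMod N => x.val)
  · intro k _
    exact mem_univ _
  · intro x _
    exact mem_range.2 (ZMod.val_lt x)
  · intro k hk
    exact ZMod.val_cast_of_lt (mem_range.1 hk)
  · intro x _
    exact ZMod.natCast_zmod_val x
  · intro k _
    rfl

/-- a function on `[0, M)` as a function on the cyclic group -/
noncomputable def ext (M : ℕ) (f : ℕ → ℝ) (x : ZMod (2 * M + 1)) : ℝ := if x.val < M then f x.val else 0

lemma ext_cast (M : ℕ) (f : ℕ → ℝ) (k : ℕ) (hk : k < 2 * M + 1) : ext M f (k : ZMod (2 * M + 1)) = if k < M then f k else 0 := by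
  unfold ext
  rw [ZMod.val_cast_of_lt hk]

lemma sum_ext (M : ℕ) (f : ℕ → ℝ) : ∑ x, ext M f x = ∑ m ∈ range M, f m := by
  rw [sum_zmod]
  have h1 : ∀ k ∈ range (2 * M + 1), ext M f (k : ZMod (2 * M + 1)) = if k < M then f k else 0 := fun k hk =>
    ext_cast M f k (mem_range.1 hk)
  rw [sum_congr rfl h1, ← sum_filter]
  apply sum_congr _ (fun _ _ => rfl)
  ext k
  rw [mem_filter, mem_range, mem_range]
  omega

lemma aut_ext (M : ℕ) (f : ℕ → ℝ) (d : ℕ) (hd : d ≤ M) :
    aut (ext M f) (d : ZMod (2 * M + 1)) = ∑ m ∈ range (M - d), f m * f (m + d) := by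
  unfold aut
  rw [sum_zmod]
  have h1 : ∀ k ∈ range (2 * M + 1), ext M f (k : ZMod (2 * M + 1)) * ext M f ((k : ZMod (2 * M + 1)) + (d : ZMod (2 * M + 1))) =
      if k < M - d then f k * f (k + d) else 0 := by
    intro k hk
    rw [mem_range] at hk
    rw [ext_cast M f k hk]
    by_cases hkM : k < M
    · rw [if_pos hkM, ← Nat.cast_add, ext_cast M f (k + d) (by omega)]
      by_cases h2 : k + d < M
      · rw [if_pos h2, if_pos (by omega)]
      · rw [if_neg h2, if_neg (by omega), mul_zero]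
    · rw [if_neg hkM, zero_mul, if_neg (by omega)]
  rw [sum_congr rfl h1, ← sum_filter]
  apply sum_congr _ (fun _ _ => rfl)
  ext k
  rw [mem_filter, mem_range, mem_range]
  omega

/-- even functions on the cyclic group -/
lemma sum_even (M : ℕ) (F : ZMod (2 * M + 1) → ℝ) (h0 : ∀ x, 0 ≤ F x) (hF : ∀ x, F (-x) = F x) :
    ∑ x, F x ≤ 2 * ∑ k ∈ range (M + 1), F (k : ZMod (2 * M + 1)) := by
  rw [sum_zmod]
  have h1 : range (2 * M + 1) = range (M + 1) ∪ (Ico (M + 1) (2 * M + 1)) := by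
    ext k
    simp only [mem_union, mem_range, mem_Ico]
    omega
  have h2 : Disjoint (range (M + 1)) (Ico (M + 1) (2 * M + 1)) := by
    rw [disjoint_left]
    intro k
    rw [mem_range, mem_Ico]
    omega
  rw [h1, sum_union h2]
  have h3 : ∑ k ∈ Ico (M + 1) (2 * M + 1), F (k : ZMod (2 * M + 1)) = ∑ k ∈ Icc 1 M, F (k : ZMod (2 * M + 1)) := by
    apply sum_nbij' (fun k => 2 * M + 1 - k) (fun k => 2 * M + 1 - k)
    · intro k hk
      rw [mem_Ico] at hk
      rw [mem_Icc]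
      omega
    · intro k hk
      rw [mem_Icc] at hk
      rw [mem_Ico]
      omega
    · intro k hk
      rw [mem_Ico] at hk
      omega
    · intro k hk
      rw [mem_Icc] at hk
      omega
    · intro k hk
      rw [mem_Ico] at hk
      rw [← hF]
      congr 1
      rw [Nat.cast_sub (by omega), ZMod.natCast_self, zero_sub]
  rw [h3]
  have h4 : ∑ k ∈ Icc 1 M, F (k : ZMod (2 * M + 1)) ≤ ∑ k ∈ range (M + 1), F (k : ZMod (2 * M + 1)) := by
    apply sum_le_sum_of_subset_of_nonneg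
    · intro k hk
      rw [mem_Icc] at hk
      rw [mem_range]
      omega
    · intro k _ _
      exact h0 _
  linarith

/-- the hypotheses of the counting lemma hold -/
theorem hyp_holds (σ : ℝ) (hσ : 0 < σ) (hσ1 : σ ≤ 1) : ∃ w₀ : ℕ, 2 ≤ w₀ ∧ ∀ w ≥ w₀, ∃ M₀ : ℕ, ∀ M ≥ M₀, ∀ b, Cls w b →
    Hyp (fun x => ext M (lamn w b) x - ext M (fun _ => 1) x) (fun x => ext M (fun _ => 1) x + 1) σ := by
  obtain ⟨w₀, hw₀, H⟩ := arith (σ ^ 16 / 2) (by positivity)
  refine ⟨w₀, hw₀, fun w hw => ?_⟩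
  have hw2 : 2 ≤ w := hw₀.trans hw
  obtain ⟨M1, H1⟩ := H w hw
  obtain ⟨M2, H2⟩ := first_moment w hw2
  obtain ⟨M3, H3⟩ := ev_L' (1 + Dw w)
  refine ⟨max (max M1 M2) (max M3 1), fun M hM b hb => ?_⟩
  have c1 : M1 ≤ M := le_trans (le_trans (le_max_left _ _) (le_max_left _ _)) hM
  have c2 : M2 ≤ M := le_trans (le_trans (le_max_right _ _) (le_max_left _ _)) hM
  have c3 : M3 ≤ M := le_trans (le_trans (le_max_left _ _) (le_max_right _ _)) hM
  have c4 : 1 ≤ M := le_trans (le_trans (le_max_right _ _) (le_max_right _ _)) hM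
  have hM0 : (1 : ℝ) ≤ M := by exact_mod_cast c4
  have hcard : (Fintype.card (ZMod (2 * M + 1)) : ℝ) = 2 * M + 1 := by
    rw [ZMod.card]
    push_cast
    ring
  have hmu0 : ∀ x, 0 ≤ ext M (fun _ => (1 : ℝ)) x := by
    intro x
    unfold ext
    split_ifs <;> norm_num
  have hmu1 : ∀ x, ext M (fun _ => (1 : ℝ)) x ≤ 1 := by
    intro x
    unfold ext
    split_ifs <;> norm_num
  have hla0 : ∀ x, 0 ≤ ext M (lamn w b) x := by
    intro x
    unfold ext
    split_ifs
    · exact lamn_nonneg w b _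
    · exact le_rfl
  have hDpos := Dw_pos w
  refine ⟨fun x => by have := hmu0 x; linarith, fun x => by have := hmu1 x; linarith, ?_, ?_, hσ.le, hσ1, ?_⟩
  · intro x
    have h1 := hmu0 x
    have h2 := hmu1 x
    have h3 := hla0 x
    rw [abs_le]
    constructor <;> linarith
  · have e1 : ∀ x : ZMod (2 * M + 1), ext M (lamn w b) x - ext M (fun _ => (1 : ℝ)) x + (ext M (fun _ => (1 : ℝ)) x + 1) =
        ext M (lamn w b) x + 1 := by
      intro x
      ring
    rw [sum_congr rfl (fun x _ => e1 x), sum_add_distrib, sum_ext, sum_const, card_univ, nsmul_eq_mul, mul_one, hcard]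
    obtain ⟨X, hX⟩ : ∃ X, X = Dw w * M := ⟨_, rfl⟩
    have hXM : M ≤ X := by
      rw [hX]
      exact Nat.le_mul_of_pos_left M hDpos
    have e2 := H2 X (c2.trans hXM) b hb M (by rw [hX])
    have e3 := H3 X (c3.trans hXM)
    have hD1 : (1 : ℝ) ≤ Dw w := by exact_mod_cast hDpos
    have e4 : (X : ℝ) / Real.log X ^ 3 ≤ M := by
      have e5 : (Dw w : ℝ) ≤ Real.log X ^ 3 := by
        have e6 : (1 : ℝ) ≤ Real.log X := by linarith
        calc (Dw w : ℝ) ≤ Real.log X := by linarith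
          _ = Real.log X ^ 1 := (pow_one _).symm
          _ ≤ Real.log X ^ 3 := pow_le_pow_right₀ e6 (by norm_num)
      have e7 : 0 < Real.log X ^ 3 := by linarith
      rw [div_le_iff₀ e7]
      calc (X : ℝ) = M * Dw w := by
            rw [hX]
            push_cast
            ring
        _ ≤ M * Real.log X ^ 3 := mul_le_mul_of_nonneg_left e5 (by linarith)
    have e8 := (abs_le.1 e2).2
    linarith
  · have e1 : (fun x => ext M (lamn w b) x - ext M (fun _ => (1 : ℝ)) x) = ext M (fun m => lamn w b m - 1) := by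
      funext x
      unfold ext
      split_ifs <;> ring
    rw [e1, hcard]
    refine (sum_even M _ (fun x => by positivity) (fun x => by rw [aut_neg])).trans ?_
    have e2 : ∀ k ∈ range (M + 1), aut (ext M (fun m => lamn w b m - 1)) (k : ZMod (2 * M + 1)) ^ 4 = acr w b M k ^ 4 := by
      intro k hk
      rw [mem_range] at hk
      rw [aut_ext M _ k (by omega)]
      rfl
    rw [sum_congr rfl e2, sum_range_succ]
    have e3 : acr w b M M = 0 := by
      unfold acr
      simp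
    rw [e3]
    have e4 := H1 M c1 b hb
    have e5 : (M : ℝ) ^ 5 ≤ (2 * (M : ℝ) + 1) ^ 5 := pow_le_pow_left₀ (by linarith) (by linarith) 5
    have e6 : 0 ≤ σ ^ 16 := by positivity
    nlinarith

/-- the averages as a subset of the cyclic group -/
noncomputable def avs (M : ℕ) (C : Finset ℕ) : Finset (ZMod (2 * M + 1)) := C.image (fun t => ((2 * t : ℕ) : ZMod (2 * M + 1)))

lemma mem_avs (M : ℕ) (C : Finset ℕ) (hC : ∀ t ∈ C, t < M) (a b : ℕ) (ha : a < M) (hb : b < M) :
    (a : ZMod (2 * M + 1)) + (b : ZMod (2 * M + 1)) ∈ avs M C ↔ ∃ t ∈ C, a + b = 2 * t := by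
  unfold avs
  rw [mem_image]
  constructor
  · rintro ⟨t, ht, h⟩
    refine ⟨t, ht, ?_⟩
    have h1 := hC t ht
    rw [← Nat.cast_add] at h
    have h2 := congrArg ZMod.val h
    rw [ZMod.val_cast_of_lt (by omega), ZMod.val_cast_of_lt (by omega)] at h2
    exact h2.symm
  · rintro ⟨t, ht, h⟩
    refine ⟨t, ht, ?_⟩
    rw [← h]
    push_cast
    rfl

/-- weighted cliques are sums over `[0, M)` -/
lemma clq_ext {k : ℕ} (M : ℕ) (C : Finset ℕ) (hC : ∀ t ∈ C, t < M) (f : ℕ → ℝ) :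
    clq (avs M C) (fun _ : Fin k => ext M f) =
      ∑ y ∈ ((univ : Finset (Fin k → Fin M)).filter (fun y => ∀ i j, i ≠ j → ∃ t ∈ C, (y i : ℕ) + y j = 2 * t)),
        ∏ i, f (y i) := by
  classical
  unfold clq
  rw [sum_filter]
  have hM2 : ∀ a : ℕ, a < M → a < 2 * M + 1 := fun a ha => by omega
  -- the map
  have h1 : ∑ y : Fin k → Fin M, (if ∀ i j, i ≠ j → ∃ t ∈ C, (y i : ℕ) + y j = 2 * t then ∏ i, f (y i) else 0) =
      ∑ z ∈ (univ : Finset (Fin k → Fin M)).image (fun y i => (((y i : ℕ) : ZMod (2 * M + 1)))),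
        (∏ i, ext M f (z i)) * cl (avs M C) z := by
    rw [sum_image]
    · apply sum_congr rfl
      intro y _
      have e1 : ∏ i, ext M f (((y i : ℕ) : ZMod (2 * M + 1))) = ∏ i, f (y i) := by
        apply prod_congr rfl
        intro i _
        rw [ext_cast M f _ (hM2 _ (y i).2), if_pos (y i).2]
      rw [e1]
      unfold cl
      by_cases h : ∀ i j, i ≠ j → ∃ t ∈ C, (y i : ℕ) + y j = 2 * t
      · rw [if_pos h, if_pos, mul_one]
        intro i j hij
        exact (mem_avs M C hC _ _ (y i).2 (y j).2).2 (h i j hij)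
      · rw [if_neg h, if_neg, mul_zero]
        intro h2
        apply h
        intro i j hij
        exact (mem_avs M C hC _ _ (y i).2 (y j).2).1 (h2 i j hij)
    · intro y _ y' _ h
      funext i
      apply Fin.ext
      have h2 := congrFun h i
      simp only at h2
      have h3 := congrArg ZMod.val h2
      rw [ZMod.val_cast_of_lt (hM2 _ (y i).2), ZMod.val_cast_of_lt (hM2 _ (y' i).2)] at h3
      exact h3
  rw [h1]
  symm
  apply sum_subset (subset_univ _)
  intro z _ hz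
  have h2 : ∃ i, ¬ (z i).val < M := by
    by_contra hcon
    push Not at hcon
    apply hz
    rw [mem_image]
    refine ⟨fun i => ⟨(z i).val, hcon i⟩, mem_univ _, ?_⟩
    funext i
    simp
  obtain ⟨i, hi⟩ := h2
  rw [prod_eq_zero (mem_univ i), zero_mul]
  unfold ext
  rw [if_neg hi]

/-- **Weighted cliques of primes.** -/
theorem weighted (k : ℕ) (hk : 0 < k) (δ : ℝ) (hδ : 0 < δ) : ∃ c : ℝ, 0 < c ∧ ∃ w₀ : ℕ, 2 ≤ w₀ ∧ ∀ w ≥ w₀, ∃ M₀ : ℕ,
    ∀ M ≥ M₀, ∀ b, Cls w b → ∀ C : Finset ℕ, (∀ t ∈ C, t < M) → δ * M ≤ C.card →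
    c * (M : ℝ) ^ k ≤ ∑ y ∈ ((univ : Finset (Fin k → Fin M)).filter
      (fun y => ∀ i j, i ≠ j → ∃ t ∈ C, (y i : ℕ) + y j = 2 * t)), ∏ i, lamn w b (y i) := by
  obtain ⟨c, hc, M1, h1⟩ := dense k hk δ hδ
  obtain ⟨m, hm⟩ : ∃ m, m + 1 = k := ⟨k - 1, by omega⟩
  obtain ⟨Q, hQ⟩ : ∃ Q : ℝ, Q = k * ((2 ^ m * (1 + 3 * m)) * 3 ^ (m + 1)) := ⟨_, rfl⟩
  have hQ0 : 0 < Q := by
    rw [hQ]
    have : (0 : ℝ) < k := by exact_mod_cast hk
    positivity
  obtain ⟨σ, hσd⟩ : ∃ σ, σ = min 1 (c / (2 * Q)) := ⟨_, rfl⟩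
  have hσ : 0 < σ := by
    rw [hσd]
    exact lt_min one_pos (by positivity)
  have hσ1 : σ ≤ 1 := by rw [hσd]; exact min_le_left _ _
  have hσ2 : σ * Q ≤ c / 2 := by
    have : σ ≤ c / (2 * Q) := by rw [hσd]; exact min_le_right _ _
    calc σ * Q ≤ c / (2 * Q) * Q := mul_le_mul_of_nonneg_right this hQ0.le
      _ = c / 2 := by field_simp
  obtain ⟨w₀, hw₀, H⟩ := hyp_holds σ hσ hσ1
  refine ⟨c / 2, by positivity, w₀, hw₀, fun w hw => ?_⟩
  obtain ⟨M2, H2⟩ := H w hw
  refine ⟨max (max M1 M2) 1, fun M hM b hb C hC hCc => ?_⟩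
  have c1 : M1 ≤ M := le_trans (le_trans (le_max_left _ _) (le_max_left _ _)) hM
  have c2 : M2 ≤ M := le_trans (le_trans (le_max_right _ _) (le_max_left _ _)) hM
  have c3 : 1 ≤ M := le_trans (le_max_right _ _) hM
  have hM0 : (1 : ℝ) ≤ M := by exact_mod_cast c3
  have e1 := h1 M c1 C hC hCc
  have hy := H2 M c2 b hb
  have e2 := hy.count (ι := Fin k) (avs M C)
    (by
      intro x
      unfold ext
      split_ifs
      · exact lamn_nonneg w b _
      · exact le_rfl)
    (by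
      intro x
      unfold ext
      split_ifs <;> norm_num)
    (by
      intro x
      unfold ext
      split_ifs <;> norm_num) m (by rw [Fintype.card_fin]; exact hm)
  rw [clq_ext M C hC, clq_ext M C hC] at e2
  have e3 : ∑ y ∈ ((univ : Finset (Fin k → Fin M)).filter (fun y => ∀ i j, i ≠ j → ∃ t ∈ C, (y i : ℕ) + y j = 2 * t)),
        ∏ i : Fin k, (fun _ : ℕ => (1 : ℝ)) (y i) = (((univ : Finset (Fin k → Fin M)).filter
      (fun y => ∀ i j, i ≠ j → ∃ t ∈ C, (y i : ℕ) + y j = 2 * t)).card : ℝ) := by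
    simp
  rw [e3] at e2
  have hcard : (Fintype.card (ZMod (2 * M + 1)) : ℝ) = 2 * M + 1 := by
    rw [ZMod.card]
    push_cast
    ring
  rw [hcard, Fintype.card_fin] at e2
  have e4 : (2 * (M : ℝ) + 1) ^ (m + 1) ≤ 3 ^ (m + 1) * (M : ℝ) ^ (m + 1) := by
    rw [← mul_pow]
    exact pow_le_pow_left₀ (by linarith) (by linarith) _
  have e5 : (k : ℝ) * (σ * (2 ^ m * (1 + 3 * m)) * (2 * (M : ℝ) + 1) ^ (m + 1)) ≤ c / 2 * (M : ℝ) ^ k := by
    calc (k : ℝ) * (σ * (2 ^ m * (1 + 3 * m)) * (2 * (M : ℝ) + 1) ^ (m + 1)) ≤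
        (k : ℝ) * (σ * (2 ^ m * (1 + 3 * m)) * (3 ^ (m + 1) * (M : ℝ) ^ (m + 1))) := by
          apply mul_le_mul_of_nonneg_left _ (Nat.cast_nonneg _)
          apply mul_le_mul_of_nonneg_left e4
          positivity
      _ = σ * Q * (M : ℝ) ^ k := by
          rw [hQ, ← hm]
          push_cast
          ring
      _ ≤ c / 2 * (M : ℝ) ^ k := mul_le_mul_of_nonneg_right hσ2 (by positivity)
  have e6 := (abs_le.1 e2).1
  linarith

end Pool.Agent.H68.MG
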