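import Mathlib
import Pool.Agent.H68.MG.Trans
import Pool.Graph.R_pool_sql_team_seeded_63374d34.N730.PT.Cnt

set_option autoImplicit false
set_option linter.unusedSectionVars false
set_option linter.unusedVariables false

/-! From weights to tuples of primes. -/

namespace Pool.Agent.H68.MG
open Finset
open Pool.Agent.H373R2.T7 Pool.Agent.N730.PT

open scoped ArithmeticFunction.vonMangoldt

open Classical in
lemma prod_bad {k : ℕ} (M : ℕ) (f : ℕ → ℝ) (hf : ∀ m, 0 ≤ f m) (A B : ℝ) (hA : ∑ m ∈ range M, f m ≤ A)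
    (P : ℕ → Prop) (hB : ∑ m ∈ (range M).filter P, f m ≤ B) (i : Fin k) :
    ∑ y : Fin k → Fin M, (if P (y i) then ∏ j, f (y j) else 0) ≤ B * A ^ (k - 1) := by
  have h1 : ∀ y : Fin k → Fin M, (if P (y i) then ∏ j, f (y j) else 0) =
      ∏ j, (if j = i then (if P (y j) then f (y j) else 0) else f (y j)) := by
    intro y
    by_cases h : P (y i)
    · rw [if_pos h]
      apply prod_congr rfl
      intro j _
      by_cases hj : j = i
      · rw [if_pos hj, hj, if_pos h]
      · rw [if_neg hj]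
    · rw [if_neg h]
      symm
      apply prod_eq_zero (mem_univ i)
      rw [if_pos rfl, if_neg h]
  rw [sum_congr rfl (fun y _ => h1 y)]
  have h2 := Finset.prod_univ_sum (fun _ : Fin k => (univ : Finset (Fin M)))
    (fun j (m : Fin M) => if j = i then (if P m then f m else 0) else f m)
  have h3 : Fintype.piFinset (fun _ : Fin k => (univ : Finset (Fin M))) = univ := by
    ext y
    simp
  rw [h3] at h2
  rw [← h2, ← mul_prod_erase univ _ (mem_univ i)]
  have h4 : ∑ m : Fin M, (if i = i then (if P m then f m else 0) else f m) = ∑ m ∈ (range M).filter P, f m := by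
    rw [sum_filter, sum_range]
    apply sum_congr rfl
    intro m _
    rw [if_pos rfl]
  have h5 : ∀ j ∈ univ.erase i, ∑ m : Fin M, (if j = i then (if P m then f m else 0) else f m) = ∑ m ∈ range M, f m := by
    intro j hj
    rw [mem_erase] at hj
    rw [sum_range]
    apply sum_congr rfl
    intro m _
    rw [if_neg hj.1]
  rw [h4, prod_congr rfl h5, prod_const, card_erase_of_mem (mem_univ i), card_univ, Fintype.card_fin]
  have hB0 : 0 ≤ ∑ m ∈ (range M).filter P, f m := sum_nonneg fun m _ => hf m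
  have hA0 : 0 ≤ ∑ m ∈ range M, f m := sum_nonneg fun m _ => hf m
  exact mul_le_mul hB (pow_le_pow_left₀ hA0 hA _) (pow_nonneg hA0 _) (hB0.trans hB)

lemma card_coinc {k : ℕ} (M : ℕ) (i j : Fin k) (hij : i ≠ j) :
    ((univ : Finset (Fin k → Fin M)).filter (fun y => y i = y j)).card ≤ M ^ (k - 1) := by
  have h1 : ((univ : Finset (Fin k → Fin M)).filter (fun y => y i = y j)).card ≤
      (univ : Finset ({l : Fin k // l ≠ j} → Fin M)).card := by
    apply card_le_card_of_injOn (fun (y : Fin k → Fin M) (l : {l : Fin k // l ≠ j}) => y l)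
    · intro y _
      exact mem_coe.2 (mem_univ _)
    · intro y hy y' hy' h
      rw [mem_coe, mem_filter] at hy hy'
      have h2 : ∀ l, l ≠ j → y l = y' l := fun l hl => congrFun h ⟨l, hl⟩
      funext l
      by_cases hl : l = j
      · rw [hl, ← hy.2, ← hy'.2]
        exact h2 i hij
      · exact h2 l hl
  refine h1.trans (le_of_eq ?_)
  rw [card_univ, Fintype.card_fun, Fintype.card_fin, Fintype.card_subtype_compl, Fintype.card_subtype_eq, Fintype.card_fin]

open Classical in
/-- the good tuples -/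
noncomputable def goodT (k w b M : ℕ) (C : Finset ℕ) : Finset (Fin k → Fin M) :=
  univ.filter (fun y => (∀ i j, i ≠ j → ∃ t ∈ C, (y i : ℕ) + y j = 2 * t) ∧ Function.Injective y ∧
    ∀ i, (Dw w * (y i : ℕ) + b).Prime)

theorem tuples (k : ℕ) (hk : 0 < k) (δ : ℝ) (hδ : 0 < δ) : ∃ c : ℝ, 0 < c ∧ ∃ w₀ : ℕ, 2 ≤ w₀ ∧ ∀ w ≥ w₀, ∃ M₀ : ℕ,
    ∀ M ≥ M₀, ∀ b, Cls w b → ∀ C : Finset ℕ, (∀ t ∈ C, t < M) → δ * M ≤ C.card →
    c * (M : ℝ) ^ k ≤ Real.log (Dw w * M : ℕ) ^ k * (goodT k w b M C).card := by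
  classical
  obtain ⟨c, hc, w₀, hw₀, H⟩ := weighted k hk δ hδ
  refine ⟨c / 2, by positivity, w₀, hw₀, fun w hw => ?_⟩
  have hw2 : 2 ≤ w := hw₀.trans hw
  obtain ⟨M1, H1⟩ := H w hw
  obtain ⟨M2, H2⟩ := first_moment w hw2
  have hDpos := Dw_pos w
  obtain ⟨D, hD⟩ : ∃ D : ℝ, D = Dw w := ⟨_, rfl⟩
  have hD0 : 0 < D := by rw [hD]; exact_mod_cast hDpos
  obtain ⟨M3, H3⟩ := ev_L' (1 + D)
  obtain ⟨M4, H4⟩ := ev_log' 1 (4 * D * (k * (2 * 2 ^ (k - 1))) / c)
  obtain ⟨M5, H5⟩ := ev_log' k (4 * D * (k * k) / c)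
  refine ⟨max (max (max M1 M2) (max M3 M4)) (max M5 1), fun M hM b hb C hC hCc => ?_⟩
  have c1 : M1 ≤ M := le_trans (le_trans (le_trans (le_max_left _ _) (le_max_left _ _)) (le_max_left _ _)) hM
  have c2 : M2 ≤ M := le_trans (le_trans (le_trans (le_max_right _ _) (le_max_left _ _)) (le_max_left _ _)) hM
  have c3 : M3 ≤ M := le_trans (le_trans (le_trans (le_max_left _ _) (le_max_right _ _)) (le_max_left _ _)) hM
  have c4 : M4 ≤ M := le_trans (le_trans (le_trans (le_max_right _ _) (le_max_right _ _)) (le_max_left _ _)) hM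
  have c5 : M5 ≤ M := le_trans (le_trans (le_max_left _ _) (le_max_right _ _)) hM
  have c6 : 1 ≤ M := le_trans (le_trans (le_max_right _ _) (le_max_right _ _)) hM
  have hM0 : (1 : ℝ) ≤ M := by exact_mod_cast c6
  obtain ⟨X, hX⟩ : ∃ X, X = Dw w * M := ⟨_, rfl⟩
  have hXM : M ≤ X := by
    rw [hX]
    exact Nat.le_mul_of_pos_left M hDpos
  have hXr : (X : ℝ) = D * M := by
    rw [hX, hD]
    push_cast
    ring
  have hX1 : (1 : ℝ) ≤ X := by exact_mod_cast c6.trans hXM
  have hX0 : (0 : ℝ) < X := by linarith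
  rw [← hX]
  obtain ⟨L, hL⟩ : ∃ L : ℝ, L = Real.log X := ⟨_, rfl⟩
  have d3 := H3 X (c3.trans hXM)
  have d4 := H4 X (c4.trans hXM)
  have d5 := H5 X (c5.trans hXM)
  rw [← hL] at d3 d4 d5 ⊢
  have hL1 : 1 ≤ L := by linarith
  have hL0 : 0 < L := by linarith
  have e0 := H1 M c1 b hb C hC hCc
  -- moments
  have s1 : ∑ m ∈ range M, lamn w b m ≤ 2 * M := by
    have e2 := H2 X (c2.trans hXM) b hb M (by rw [hX])
    have e4 : (X : ℝ) / Real.log X ^ 3 ≤ M := by
      rw [← hL]
      have e5 : D ≤ L ^ 3 := by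
        calc D ≤ L := by linarith
          _ = L ^ 1 := (pow_one _).symm
          _ ≤ L ^ 3 := pow_le_pow_right₀ hL1 (by norm_num)
      have e7 : 0 < L ^ 3 := by positivity
      rw [div_le_iff₀ e7]
      calc (X : ℝ) = M * D := by rw [hXr]; ring
        _ ≤ M * L ^ 3 := mul_le_mul_of_nonneg_left e5 (by linarith)
    have e8 := (abs_le.1 e2).2
    linarith
  have s2 : ∑ m ∈ (range M).filter (fun m => ¬ (Dw w * m + b).Prime), lamn w b m ≤ 2 * √(X : ℝ) * L := by
    have h1 := np_sum X (by omega)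
    rw [← hL] at h1
    refine le_trans ?_ h1
    have h2 : ∀ m ∈ (range M).filter (fun m => ¬ (Dw w * m + b).Prime), lamn w b m ≤ Λ (Dw w * m + b) := by
      intro m _
      unfold lamn
      exact mul_le_of_le_one_left ArithmeticFunction.vonMangoldt_nonneg (Vz_le_one w)
    refine (sum_le_sum h2).trans ?_
    have hinj : Set.InjOn (fun m => Dw w * m + b) (((range M).filter (fun m => ¬ (Dw w * m + b).Prime) : Finset ℕ) : Set ℕ) := by
      intro m _ m' _ h
      simp only at h
      have h3 : Dw w * m = Dw w * m' := by omega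
      exact Nat.eq_of_mul_eq_mul_left hDpos h3
    rw [← sum_image (f := fun n => Λ n) (g := fun m => Dw w * m + b) hinj]
    apply sum_le_sum_of_subset_of_nonneg _ (fun _ _ _ => ArithmeticFunction.vonMangoldt_nonneg)
    intro n hn
    rw [mem_image] at hn
    obtain ⟨m, hm, rfl⟩ := hn
    rw [mem_filter, mem_range] at hm
    rw [mem_filter, mem_Icc]
    have h3 := Nat.mul_le_mul_left (Dw w) (Nat.succ_le_of_lt hm.1)
    rw [Nat.mul_succ, ← hX] at h3
    have h4 := hb.lt
    have h5 := hb.pos hw2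
    exact ⟨⟨by omega, by omega⟩, hm.2⟩
  have hprod0 : ∀ y : Fin k → Fin M, 0 ≤ ∏ i, lamn w b (y i) := fun y => prod_nonneg fun i _ => lamn_nonneg w b _
  have hprodL : ∀ y : Fin k → Fin M, ∏ i, lamn w b (y i) ≤ L ^ k := by
    intro y
    calc ∏ i, lamn w b (y i) ≤ ∏ _i : Fin k, L := by
          apply prod_le_prod (fun i _ => lamn_nonneg w b _)
          intro i _
          have := lamn_le w b M (y i) hb hw2 (y i).2
          rw [← hX, ← hL] at this
          exact this
      _ = L ^ k := by simp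
  have hpt : ∀ y ∈ ((univ : Finset (Fin k → Fin M)).filter (fun y => ∀ i j, i ≠ j → ∃ t ∈ C, (y i : ℕ) + y j = 2 * t)),
      ∏ i, lamn w b (y i) ≤ (if y ∈ goodT k w b M C then L ^ k else 0) +
        (∑ i, (if ¬ (Dw w * (y i : ℕ) + b).Prime then ∏ j, lamn w b (y j) else 0)) +
        (∑ p ∈ (univ : Finset (Fin k × Fin k)).filter (fun p => p.1 ≠ p.2), if y p.1 = y p.2 then L ^ k else 0) := by
    intro y hy
    rw [mem_filter] at hy
    have t1 : 0 ≤ (if y ∈ goodT k w b M C then L ^ k else 0) := by split_ifs <;> positivity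
    have t2 : ∀ i, 0 ≤ (if ¬ (Dw w * (y i : ℕ) + b).Prime then ∏ j, lamn w b (y j) else 0) := by
      intro i
      split_ifs
      · exact le_rfl
      · exact hprod0 y
    have t3 : ∀ p : Fin k × Fin k, 0 ≤ (if y p.1 = y p.2 then L ^ k else 0) := by
      intro p
      split_ifs <;> positivity
    by_cases h1 : ∃ i, ¬ (Dw w * (y i : ℕ) + b).Prime
    · obtain ⟨i, hi⟩ := h1
      have h2 : ∏ i, lamn w b (y i) ≤ ∑ i, (if ¬ (Dw w * (y i : ℕ) + b).Prime then ∏ j, lamn w b (y j) else 0) := by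
        calc ∏ i, lamn w b (y i) = (if ¬ (Dw w * (y i : ℕ) + b).Prime then ∏ j, lamn w b (y j) else 0) := by rw [if_pos hi]
          _ ≤ _ := single_le_sum (f := fun i => if ¬ (Dw w * (y i : ℕ) + b).Prime then ∏ j, lamn w b (y j) else 0)
              (fun i _ => t2 i) (mem_univ i)
      have h3 := sum_nonneg (s := (univ : Finset (Fin k × Fin k)).filter (fun p => p.1 ≠ p.2)) (fun p _ => t3 p)
      linarith
    · push Not at h1
      by_cases h2 : Function.Injective y
      · have h3 : y ∈ goodT k w b M C := by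
          unfold goodT
          rw [mem_filter]
          exact ⟨mem_univ _, hy.2, h2, h1⟩
        rw [if_pos h3]
        have h4 := sum_nonneg (s := (univ : Finset (Fin k × Fin k)).filter (fun p => p.1 ≠ p.2)) (fun p _ => t3 p)
        have h5 := sum_nonneg (s := (univ : Finset (Fin k))) (fun i _ => t2 i)
        linarith [hprodL y]
      · have h3 : ∃ i j, i ≠ j ∧ y i = y j := by
          by_contra hcon
          push Not at hcon
          apply h2
          intro i j hij
          by_contra hne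
          exact hcon i j hne hij
        obtain ⟨i, j, hij, hyy⟩ := h3
        have h4 : L ^ k ≤ ∑ p ∈ (univ : Finset (Fin k × Fin k)).filter (fun p => p.1 ≠ p.2), if y p.1 = y p.2 then L ^ k else 0 := by
          calc L ^ k = (if y (i, j).1 = y (i, j).2 then L ^ k else 0) := by rw [if_pos hyy]
            _ ≤ _ := single_le_sum (f := fun p : Fin k × Fin k => if y p.1 = y p.2 then L ^ k else 0)
              (fun p _ => t3 p) (mem_filter.2 ⟨mem_univ _, hij⟩)
        have h5 := sum_nonneg (s := (univ : Finset (Fin k))) (fun i _ => t2 i)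
        linarith [hprodL y]
  have e1 := e0.trans (sum_le_sum hpt)
  rw [sum_add_distrib, sum_add_distrib] at e1
  have g1 : ∑ y ∈ ((univ : Finset (Fin k → Fin M)).filter (fun y => ∀ i j, i ≠ j → ∃ t ∈ C, (y i : ℕ) + y j = 2 * t)),
      (if y ∈ goodT k w b M C then L ^ k else 0) ≤ L ^ k * (goodT k w b M C).card := by
    rw [← sum_filter, sum_const, nsmul_eq_mul, mul_comm]
    apply mul_le_mul_of_nonneg_left _ (by positivity)
    have : (filter (fun y => y ∈ goodT k w b M C) ((univ : Finset (Fin k → Fin M)).filter (fun y => ∀ i j, i ≠ j → ∃ t ∈ C, (y i : ℕ) + y j = 2 * t))).card ≤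
        (goodT k w b M C).card := by
      apply card_le_card
      intro y hy
      rw [mem_filter] at hy
      exact hy.2
    exact_mod_cast this
  have g2 : ∑ y ∈ ((univ : Finset (Fin k → Fin M)).filter (fun y => ∀ i j, i ≠ j → ∃ t ∈ C, (y i : ℕ) + y j = 2 * t)),
      ∑ i, (if ¬ (Dw w * (y i : ℕ) + b).Prime then ∏ j, lamn w b (y j) else 0) ≤
      k * (2 * √(X : ℝ) * L * (2 * M) ^ (k - 1)) := by
    rw [sum_comm]
    have h1 : ∀ i ∈ (univ : Finset (Fin k)), ∑ y ∈ ((univ : Finset (Fin k → Fin M)).filter (fun y => ∀ i j, i ≠ j → ∃ t ∈ C, (y i : ℕ) + y j = 2 * t)),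
      (if ¬ (Dw w * (y i : ℕ) + b).Prime then ∏ j, lamn w b (y j) else 0) ≤ 2 * √(X : ℝ) * L * (2 * M) ^ (k - 1) := by
      intro i _
      refine le_trans (sum_le_sum_of_subset_of_nonneg (filter_subset _ _) ?_) ?_
      · intro y _ _
        split_ifs
        · exact le_rfl
        · exact hprod0 y
      · have h2 := prod_bad (k := k) M (lamn w b) (fun m => lamn_nonneg w b m) (2 * M) (2 * √(X : ℝ) * L) s1
          (fun m => ¬ (Dw w * m + b).Prime) (by convert s2) i
        refine le_trans (le_of_eq ?_) h2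
        apply sum_congr rfl
        intro y _
        congr 1
    refine (sum_le_sum h1).trans ?_
    rw [sum_const, card_univ, Fintype.card_fin, nsmul_eq_mul]
  have g3 : ∑ y ∈ ((univ : Finset (Fin k → Fin M)).filter (fun y => ∀ i j, i ≠ j → ∃ t ∈ C, (y i : ℕ) + y j = 2 * t)),
      ∑ p ∈ (univ : Finset (Fin k × Fin k)).filter (fun p => p.1 ≠ p.2), (if y p.1 = y p.2 then L ^ k else 0) ≤
      (k * k) * (L ^ k * (M : ℝ) ^ (k - 1)) := by
    rw [sum_comm]
    have h1 : ∀ p ∈ (univ : Finset (Fin k × Fin k)).filter (fun p => p.1 ≠ p.2),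
        ∑ y ∈ ((univ : Finset (Fin k → Fin M)).filter (fun y => ∀ i j, i ≠ j → ∃ t ∈ C, (y i : ℕ) + y j = 2 * t)),
        (if y p.1 = y p.2 then L ^ k else 0) ≤ L ^ k * (M : ℝ) ^ (k - 1) := by
      intro p hp
      rw [mem_filter] at hp
      refine le_trans (sum_le_sum_of_subset_of_nonneg (filter_subset _ _) ?_) ?_
      · intro y _ _
        split_ifs <;> positivity
      · rw [← sum_filter, sum_const, nsmul_eq_mul, mul_comm]
        apply mul_le_mul_of_nonneg_left _ (by positivity)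
        have := card_coinc M p.1 p.2 hp.2
        exact_mod_cast this
    refine (sum_le_sum h1).trans ?_
    rw [sum_const, nsmul_eq_mul]
    apply mul_le_mul_of_nonneg_right _ (by positivity)
    have h2 : ((univ : Finset (Fin k × Fin k)).filter (fun p => p.1 ≠ p.2)).card ≤ k * k := by
      calc _ ≤ (univ : Finset (Fin k × Fin k)).card := card_le_card (filter_subset _ _)
        _ = k * k := by rw [card_univ, Fintype.card_prod, Fintype.card_fin]
    exact_mod_cast h2
  -- small errors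
  have hk1 : (M : ℝ) ^ k = M ^ (k - 1) * M := by
    rw [← pow_succ, Nat.sub_add_cancel hk]
  have hMk : (0 : ℝ) ≤ M ^ (k - 1) := by positivity
  have hsq : √(X : ℝ) * √(X : ℝ) = X := Real.mul_self_sqrt hX0.le
  have hs0 : 0 ≤ √(X : ℝ) := Real.sqrt_nonneg _
  have hs1 : √(X : ℝ) ≤ X := by
    rw [Real.sqrt_le_left hX0.le]
    nlinarith
  have g4 : k * (2 * √(X : ℝ) * L * (2 * M) ^ (k - 1)) ≤ c / 4 * (M : ℝ) ^ k := by
    rw [pow_one] at d4
    have h1 : k * (2 * √(X : ℝ) * L * (2 * M) ^ (k - 1)) = (k * (2 * 2 ^ (k - 1)) * L) * √(X : ℝ) * M ^ (k - 1) := by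
      rw [mul_pow]
      ring
    have h2 : k * (2 * 2 ^ (k - 1)) * L = c / (4 * D) * (4 * D * (k * (2 * 2 ^ (k - 1))) / c * L) := by
      field_simp
    have h3 : k * (2 * 2 ^ (k - 1)) * L ≤ c / (4 * D) * √(X : ℝ) := by
      rw [h2]
      exact mul_le_mul_of_nonneg_left d4 (by positivity)
    rw [h1, hk1]
    calc (k * (2 * 2 ^ (k - 1)) * L) * √(X : ℝ) * (M : ℝ) ^ (k - 1) ≤ (c / (4 * D) * √(X : ℝ)) * √(X : ℝ) * M ^ (k - 1) := by
          apply mul_le_mul_of_nonneg_right _ hMk
          exact mul_le_mul_of_nonneg_right h3 hs0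
      _ = c / (4 * D) * (√(X : ℝ) * √(X : ℝ)) * M ^ (k - 1) := by ring
      _ = c / 4 * (M ^ (k - 1) * M) := by
          rw [hsq, hXr]
          field_simp
  have g5 : (k * k) * (L ^ k * (M : ℝ) ^ (k - 1)) ≤ c / 4 * (M : ℝ) ^ k := by
    have h2 : (k * k) * L ^ k = c / (4 * D) * (4 * D * (k * k) / c * L ^ k) := by
      field_simp
    have h3 : (k * k) * L ^ k ≤ c / (4 * D) * X := by
      rw [h2]
      exact mul_le_mul_of_nonneg_left (d5.trans hs1) (by positivity)
    rw [hk1]
    calc (k * k) * (L ^ k * (M : ℝ) ^ (k - 1)) = ((k * k) * L ^ k) * M ^ (k - 1) := by ring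
      _ ≤ (c / (4 * D) * X) * M ^ (k - 1) := mul_le_mul_of_nonneg_right h3 hMk
      _ = c / 4 * (M ^ (k - 1) * M) := by
          rw [hXr]
          field_simp
  linarith

end Pool.Agent.H68.MG
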