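import Mathlib
import Pool.Agent.H68.MG.Tup

set_option autoImplicit false
set_option linter.unusedSectionVars false
set_option linter.unusedVariables false

/-! Cliques of primes with averages in a dense set of rough numbers; the coloured version. -/

namespace Pool.Agent.H68.MG
open Finset
open Pool.Agent.H373R2.T7 Pool.Agent.N730.PT

open Classical in
/-- the natural numbers `1 ≤ n ≤ x` without a prime factor `≤ w` -/
noncomputable def Rough (w x : ℕ) : Finset ℕ := (Icc 1 x).filter (fun n => ∀ p, p.Prime → p ≤ w → ¬ p ∣ n)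

/-- `k`-tuples of distinct primes `≤ x` all of whose pairwise averages lie in `C` -/
def Tuples (k x : ℕ) (C : Finset ℕ) : Finset (Fin k → ℕ) :=
  (Fintype.piFinset (fun _ => (range (x + 1)).filter Nat.Prime)).filter
    (fun p => ∀ i j, i ≠ j → p i ≠ p j ∧ ∃ n ∈ C, p i + p j = 2 * n)

lemma mem_Rough {w x n : ℕ} : n ∈ Rough w x ↔ (1 ≤ n ∧ n ≤ x) ∧ ∀ p ∈ pz w, ¬ p ∣ n := by
  classical
  unfold Rough
  rw [mem_filter, mem_Icc]
  apply and_congr_right
  intro _
  constructor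
  · intro h p hp
    exact h p (mem_pz.1 hp).2 (mem_pz.1 hp).1
  · intro h p hp hpw
    exact h p (mem_pz.2 ⟨hpw, hp⟩)

/-- the reduced classes -/
def Bw (w : ℕ) : Finset ℕ := (range (Dw w)).filter (fun b => ∀ p ∈ pz w, ¬ p ∣ b)

lemma mem_Bw {w b : ℕ} : b ∈ Bw w ↔ Cls w b := by
  unfold Bw
  rw [mem_filter, mem_range]
  exact ⟨fun h => ⟨h.1, h.2⟩, fun h => ⟨h.lt, h.cop⟩⟩

lemma dvd_mod (w n p : ℕ) (hp : p ∈ pz w) : p ∣ n % Dw w ↔ p ∣ n := by
  have h2 : p ∣ Dw w := dvd_prod_of_mem _ hp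
  exact Nat.dvd_mod_iff h2

lemma one_Bw (w : ℕ) (hw : 2 ≤ w) : 1 ∈ Bw w := by
  rw [mem_Bw]
  have h2 : 2 ∈ pz w := mem_pz.2 ⟨hw, Nat.prime_two⟩
  have h3 : 2 ∣ Dw w := dvd_prod_of_mem _ h2
  refine ⟨?_, ?_⟩
  · have := Nat.le_of_dvd (Dw_pos w) h3
    omega
  · intro p hp h
    have hp' := (mem_pz.1 hp).2.two_le
    have := Nat.le_of_dvd one_pos h
    omega

/-- many rough numbers -/
lemma rough_ge (w x M : ℕ) (hw : 2 ≤ w) (hM : Dw w * M ≤ x) : (Bw w).card * M ≤ (Rough w x).card := by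
  have h1 : ((Bw w) ×ˢ (range M)).card ≤ (Rough w x).card := by
    apply card_le_card_of_injOn (fun q : ℕ × ℕ => Dw w * q.2 + q.1)
    · intro q hq
      rw [mem_coe, mem_product, mem_Bw, mem_range] at hq
      rw [mem_coe, mem_Rough]
      beta_reduce
      have h3 := Nat.mul_le_mul_left (Dw w) (Nat.succ_le_of_lt hq.2)
      rw [Nat.mul_succ] at h3
      have h4 := hq.1.lt
      have h5 := hq.1.pos hw
      exact ⟨⟨by omega, by omega⟩, fun p hp => hq.1.of hp _⟩
    · intro q hq q' hq' h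
      rw [mem_coe, mem_product, mem_Bw, mem_range] at hq hq'
      simp only at h
      have h1 : q.1 = q'.1 := by
        have e1 : (Dw w * q.2 + q.1) % Dw w = q.1 := by rw [Nat.mul_add_mod, Nat.mod_eq_of_lt hq.1.lt]
        have e2 : (Dw w * q'.2 + q'.1) % Dw w = q'.1 := by rw [Nat.mul_add_mod, Nat.mod_eq_of_lt hq'.1.lt]
        rw [← e1, ← e2, h]
      have h2 : q.2 = q'.2 := by
        rw [h1] at h
        exact Nat.eq_of_mul_eq_mul_left (Dw_pos w) (Nat.add_right_cancel h)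
      exact Prod.ext h1 h2
  rwa [card_product, card_range] at h1

/-- a class with many elements -/
lemma exists_class (w : ℕ) (hw : 2 ≤ w) (δ : ℝ) (hδ : 0 < δ) (x M : ℕ) (hM : Dw w * M ≤ x) (hM2 : x < Dw w * (M + 1))
    (hMδ : 2 * (Dw w : ℝ) / δ ≤ M) (C : Finset ℕ) (hC : C ⊆ Rough w x) (hCc : δ * (Rough w x).card ≤ C.card) :
    ∃ b, Cls w b ∧ δ / 2 * M ≤ ((range M).filter (fun t => Dw w * t + b ∈ C)).card := by
  by_contra hcon
  push Not at hcon
  have h1 : C ⊆ ((Bw w).biUnion (fun b => ((range M).filter (fun t => Dw w * t + b ∈ C)).image (fun t => Dw w * t + b))) ∪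
      Ico (Dw w * M) (Dw w * (M + 1)) := by
    intro n hn
    have h2 := mem_Rough.1 (hC hn)
    rw [mem_union]
    by_cases h3 : n < Dw w * M
    · left
      rw [mem_biUnion]
      have h4 : Dw w * (n / Dw w) + n % Dw w = n := Nat.div_add_mod n (Dw w)
      refine ⟨n % Dw w, ?_, ?_⟩
      · rw [mem_Bw]
        exact ⟨Nat.mod_lt _ (Dw_pos w), fun p hp h => h2.2 p hp ((dvd_mod w n p hp).1 h)⟩
      · rw [mem_image]
        refine ⟨n / Dw w, ?_, h4⟩
        rw [mem_filter, mem_range]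
        refine ⟨Nat.div_lt_of_lt_mul h3, ?_⟩
        rw [h4]
        exact hn
    · right
      rw [mem_Ico]
      omega
  have h2 : C.card ≤ ∑ b ∈ Bw w, ((range M).filter (fun t => Dw w * t + b ∈ C)).card + Dw w := by
    calc C.card ≤ _ := card_le_card h1
      _ ≤ _ := card_union_le _ _
      _ ≤ _ := by
        apply Nat.add_le_add
        · refine card_biUnion_le.trans ?_
          apply sum_le_sum
          intro b _
          exact card_image_le
        · rw [Nat.card_Ico, Nat.mul_succ]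
          omega
  have h3 : (C.card : ℝ) ≤ ∑ b ∈ Bw w, (((range M).filter (fun t => Dw w * t + b ∈ C)).card : ℝ) + Dw w := by exact_mod_cast h2
  have h4 : ∑ b ∈ Bw w, (((range M).filter (fun t => Dw w * t + b ∈ C)).card : ℝ) < ∑ b ∈ Bw w, δ / 2 * M := by
    apply sum_lt_sum_of_nonempty ⟨1, one_Bw w hw⟩
    intro b hb
    exact hcon b (mem_Bw.1 hb)
  rw [sum_const, nsmul_eq_mul] at h4
  have h5 := rough_ge w x M hw hM
  have h6 : ((Bw w).card : ℝ) * M ≤ (Rough w x).card := by exact_mod_cast h5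
  have h7 : δ * ((Bw w).card * M) ≤ δ * (Rough w x).card := mul_le_mul_of_nonneg_left h6 hδ.le
  have h8 : 1 ≤ (Bw w).card := card_pos.2 ⟨1, one_Bw w hw⟩
  have h9 : (1 : ℝ) ≤ (Bw w).card := by exact_mod_cast h8
  rw [div_le_iff₀ hδ] at hMδ
  have h10 : (Dw w : ℝ) ≤ δ / 2 * ((Bw w).card * M) := by
    have h11 : (M : ℝ) ≤ (Bw w).card * M := le_mul_of_one_le_left (Nat.cast_nonneg _) h9
    nlinarith
  nlinarith

/-- **Cliques.** -/
theorem cliques (k : ℕ) (hk : 1 ≤ k) (δ : ℝ) (hδ : 0 < δ) : ∃ w₀ : ℕ, ∀ w ≥ w₀, ∃ c : ℝ, 0 < c ∧ ∃ x₀ : ℕ, ∀ x ≥ x₀,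
    ∀ C ⊆ Rough w x, δ * (Rough w x).card ≤ C.card →
      c * ((x : ℝ) / Real.log x) ^ k ≤ (Tuples k x C).card := by
  classical
  obtain ⟨c, hc, w₀, hw₀, H⟩ := tuples k hk (δ / 2) (by positivity)
  refine ⟨w₀, fun w hw => ?_⟩
  have hw2 : 2 ≤ w := hw₀.trans hw
  obtain ⟨M₀, H1⟩ := H w hw
  have hDpos := Dw_pos w
  have hD1 : (1 : ℝ) ≤ Dw w := by exact_mod_cast hDpos
  refine ⟨c * (1 / (2 * Dw w)) ^ k, by positivity, Dw w * (M₀ + 1 + ⌈2 * (Dw w : ℝ) / δ⌉₊) + 3, fun x hx C hC hCc => ?_⟩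
  obtain ⟨M, hM⟩ : ∃ M, M = x / Dw w := ⟨_, rfl⟩
  have hM1 : Dw w * M ≤ x := by
    rw [hM]
    exact Nat.mul_div_le x (Dw w)
  have hM2 : x < Dw w * (M + 1) := by
    rw [hM]
    exact Nat.lt_mul_div_succ x hDpos
  have hM3 : M₀ + 1 + ⌈2 * (Dw w : ℝ) / δ⌉₊ ≤ M := by
    rw [hM, Nat.le_div_iff_mul_le hDpos, mul_comm]
    omega
  have hMδ : 2 * (Dw w : ℝ) / δ ≤ M := by
    have h1 := Nat.le_ceil (2 * (Dw w : ℝ) / δ)
    have h2 : ((⌈2 * (Dw w : ℝ) / δ⌉₊ : ℕ) : ℝ) ≤ M := by exact_mod_cast (by omega : ⌈2 * (Dw w : ℝ) / δ⌉₊ ≤ M)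
    linarith
  have hMpos : (1 : ℝ) ≤ M := by exact_mod_cast (by omega : 1 ≤ M)
  obtain ⟨b, hb, hbC⟩ := exists_class w hw2 δ hδ x M hM1 hM2 hMδ C hC hCc
  have key := H1 M (by omega) b hb ((range M).filter (fun t => Dw w * t + b ∈ C))
    (fun t ht => mem_range.1 (mem_filter.1 ht).1) hbC
  -- the injection
  have hinj : (goodT k w b M ((range M).filter (fun t => Dw w * t + b ∈ C))).card ≤ (Tuples k x C).card := by
    apply card_le_card_of_injOn (fun (y : Fin k → Fin M) (i : Fin k) => Dw w * (y i : ℕ) + b)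
    · intro y hy
      rw [mem_coe] at hy ⊢
      unfold goodT at hy
      rw [mem_filter] at hy
      obtain ⟨_, h1, h2, h3⟩ := hy
      unfold Tuples
      rw [mem_filter, Fintype.mem_piFinset]
      constructor
      · intro i
        rw [mem_filter, mem_range]
        beta_reduce
        refine ⟨?_, h3 i⟩
        have h4 := Nat.mul_le_mul_left (Dw w) (Nat.succ_le_of_lt (y i).2)
        rw [Nat.mul_succ] at h4
        have h5 := hb.lt
        omega
      · intro i j hij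
        constructor
        · intro h
          apply hij
          apply h2
          apply Fin.ext
          exact Nat.eq_of_mul_eq_mul_left hDpos (Nat.add_right_cancel h)
        · obtain ⟨t, ht, h4⟩ := h1 i j hij
          rw [mem_filter] at ht
          refine ⟨Dw w * t + b, ht.2, ?_⟩
          calc Dw w * (y i : ℕ) + b + (Dw w * (y j : ℕ) + b) = Dw w * ((y i : ℕ) + (y j : ℕ)) + 2 * b := by ring
            _ = 2 * (Dw w * t + b) := by rw [h4]; ring
    · intro y _ y' _ h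
      funext i
      apply Fin.ext
      have h1 := congrFun h i
      simp only at h1
      exact Nat.eq_of_mul_eq_mul_left hDpos (Nat.add_right_cancel h1)
  have hx3 : 3 ≤ x := by omega
  have hlogx : 0 < Real.log x := Real.log_pos (by exact_mod_cast (by omega : 1 < x))
  have hX1 : (1 : ℝ) ≤ ((Dw w * M : ℕ) : ℝ) := by
    push_cast
    nlinarith
  have hlog1 : Real.log ((Dw w * M : ℕ) : ℝ) ≤ Real.log x := by
    apply Real.log_le_log (by linarith)
    exact_mod_cast hM1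
  have hlog0 : 0 ≤ Real.log ((Dw w * M : ℕ) : ℝ) := Real.log_nonneg hX1
  have hT : (0 : ℝ) ≤ (Tuples k x C).card := Nat.cast_nonneg _
  have e1 : c * (M : ℝ) ^ k ≤ Real.log x ^ k * (Tuples k x C).card := by
    refine key.trans ?_
    have h1 : ((goodT k w b M ((range M).filter (fun t => Dw w * t + b ∈ C))).card : ℝ) ≤ (Tuples k x C).card := by
      exact_mod_cast hinj
    exact mul_le_mul (pow_le_pow_left₀ hlog0 hlog1 k) h1 (Nat.cast_nonneg _) (by positivity)
  have e2 : (x : ℝ) / (2 * Dw w) ≤ M := by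
    rw [div_le_iff₀ (by positivity)]
    have h1 : (x : ℝ) ≤ Dw w * (M + 1) := by exact_mod_cast hM2.le
    nlinarith
  have e3 : ((x : ℝ) / (2 * Dw w)) ^ k ≤ (M : ℝ) ^ k := pow_le_pow_left₀ (by positivity) e2 k
  have e4 : c * (1 / (2 * (Dw w : ℝ))) ^ k * ((x : ℝ) / Real.log x) ^ k = c * ((x : ℝ) / (2 * Dw w)) ^ k / Real.log x ^ k := by
    rw [div_pow (x : ℝ) (Real.log x), div_pow (x : ℝ) (2 * (Dw w : ℝ)), div_pow 1 (2 * (Dw w : ℝ)), one_pow]
    ring
  rw [e4, div_le_iff₀ (by positivity)]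
  calc c * ((x : ℝ) / (2 * Dw w)) ^ k ≤ c * (M : ℝ) ^ k := mul_le_mul_of_nonneg_left e3 hc.le
    _ ≤ _ := e1
    _ = _ := mul_comm _ _

/-- the Goldbach representations `2n = p + q` with primes `p < q` of the same colour -/
def Mono {r : ℕ} (χ : ℕ → Fin r) (n : ℕ) : Finset (ℕ × ℕ) :=
  (range (2 * n + 1) ×ˢ range (2 * n + 1)).filter
    (fun p => p.1.Prime ∧ p.2.Prime ∧ p.1 < p.2 ∧ p.1 + p.2 = 2 * n ∧ χ p.1 = χ p.2)

lemma mem_Mono {r : ℕ} (χ : ℕ → Fin r) (n : ℕ) (p : ℕ × ℕ) :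
    p ∈ Mono χ n ↔ p.1.Prime ∧ p.2.Prime ∧ p.1 < p.2 ∧ p.1 + p.2 = 2 * n ∧ χ p.1 = χ p.2 := by
  unfold Mono
  rw [mem_filter, mem_product, mem_range, mem_range]
  constructor
  · exact fun h => h.2
  · intro h
    exact ⟨⟨by omega, by omega⟩, h⟩

lemma pi_bd : ∃ x₀ : ℕ, ∀ x ≥ x₀, (((range (x + 1)).filter Nat.Prime).card : ℝ) ≤ 2 * ((x : ℝ) / Real.log x) := by
  have h1 := Chebyshev.eventually_primeCounting_le (ε := 2 - Real.log 4) (by
    have : Real.log 4 = 2 * Real.log 2 := by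
      rw [show (4 : ℝ) = 2 ^ 2 by norm_num, Real.log_pow]
      norm_num
    have h2 := Real.log_two_lt_d9
    linarith)
  have h2 := (tendsto_natCast_atTop_atTop (R := ℝ)).eventually h1
  rw [Filter.eventually_atTop] at h2
  obtain ⟨x₀, hx₀⟩ := h2
  refine ⟨x₀, fun x hx => ?_⟩
  have h3 := hx₀ x hx
  rw [Nat.floor_natCast] at h3
  have h4 : ((range (x + 1)).filter Nat.Prime).card = Nat.primeCounting x := by
    rw [Nat.primeCounting, Nat.primeCounting', Nat.count_eq_card_filter_range]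
  rw [h4]
  refine h3.trans (le_of_eq ?_)
  ring

/-- pairs inside tuples -/
lemma pair_count {r : ℕ} (χ : ℕ → Fin r) (k x : ℕ) (C : Finset ℕ) (i j : Fin k) (hij : i ≠ j) :
    ((Tuples k x C).filter (fun p => χ (p i) = χ (p j))).card ≤
      (2 * ∑ n ∈ C, (Mono χ n).card) * ((range (x + 1)).filter Nat.Prime).card ^ (k - 2) := by
  classical
  obtain ⟨P, hP⟩ : ∃ P, P = (range (x + 1)).filter Nat.Prime := ⟨_, rfl⟩
  rw [← hP]
  -- pairs
  let Q : Finset (ℕ × ℕ) := (P ×ˢ P).filter (fun q => q.1 ≠ q.2 ∧ χ q.1 = χ q.2 ∧ ∃ n ∈ C, q.1 + q.2 = 2 * n)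
  have hQ : Q.card ≤ 2 * ∑ n ∈ C, (Mono χ n).card := by
    have h1 : Q ⊆ C.biUnion (fun n => Mono χ n) ∪ C.biUnion (fun n => (Mono χ n).image Prod.swap) := by
      intro q hq
      simp only [Q, mem_filter, mem_product, hP, mem_range] at hq
      obtain ⟨⟨⟨_, h2⟩, ⟨_, h4⟩⟩, h5, h6, n, hn, h7⟩ := hq
      rw [mem_union, mem_biUnion, mem_biUnion]
      rcases lt_or_gt_of_ne h5 with h8 | h8
      · left
        refine ⟨n, hn, ?_⟩
        rw [mem_Mono]
        exact ⟨h2, h4, h8, h7, h6⟩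
      · right
        refine ⟨n, hn, ?_⟩
        rw [mem_image]
        refine ⟨(q.2, q.1), ?_, rfl⟩
        rw [mem_Mono]
        exact ⟨h4, h2, h8, by rw [← h7]; ring, h6.symm⟩
    calc Q.card ≤ _ := card_le_card h1
      _ ≤ _ := card_union_le _ _
      _ ≤ ∑ n ∈ C, (Mono χ n).card + ∑ n ∈ C, (Mono χ n).card := by
        apply Nat.add_le_add
        · exact card_biUnion_le
        · refine card_biUnion_le.trans (sum_le_sum fun n _ => card_image_le)
      _ = _ := by ring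
  have h1 : ((Tuples k x C).filter (fun p => χ (p i) = χ (p j))).card ≤
      (Q ×ˢ (Fintype.piFinset (fun _ : {l : Fin k // l ≠ i ∧ l ≠ j} => P))).card := by
    apply card_le_card_of_injOn (fun p => ((p i, p j), fun l => p l))
    · intro p hp
      rw [mem_coe, mem_filter] at hp
      obtain ⟨hp, hχ⟩ := hp
      unfold Tuples at hp
      rw [mem_filter, Fintype.mem_piFinset, ← hP] at hp
      rw [mem_coe, mem_product, Fintype.mem_piFinset]
      constructor
      · simp only [Q, mem_filter, mem_product]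
        exact ⟨⟨hp.1 i, hp.1 j⟩, (hp.2 i j hij).1, hχ, (hp.2 i j hij).2⟩
      · intro l
        exact hp.1 l
    · intro p _ p' _ h
      have e1 : p i = p' i := congrArg (fun z => z.1.1) h
      have e2 : p j = p' j := congrArg (fun z => z.1.2) h
      have e3 := congrArg (fun z => z.2) h
      funext l
      by_cases h4 : l = i
      · rw [h4]; exact e1
      · by_cases h5 : l = j
        · rw [h5]; exact e2
        · exact congrFun e3 ⟨l, h4, h5⟩
  refine h1.trans ?_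
  rw [card_product, Fintype.card_piFinset, prod_const, card_univ]
  have h2 : Fintype.card {l : Fin k // l ≠ i ∧ l ≠ j} = k - 2 := by
    rw [Fintype.card_subtype]
    have h3 : (univ.filter (fun l : Fin k => l ≠ i ∧ l ≠ j)) = univ \ {i, j} := by
      ext l
      simp
    rw [h3, card_sdiff_of_subset (subset_univ _), card_univ, Fintype.card_fin, card_pair hij]
  rw [h2]
  exact Nat.mul_le_mul_right _ hQ

/-- **Colours.** -/
theorem colours (r : ℕ) (δ : ℝ) (hδ : 0 < δ) : ∃ w₀ : ℕ, ∀ w ≥ w₀, ∃ c : ℝ, 0 < c ∧ ∃ x₀ : ℕ, ∀ x ≥ x₀, ∀ χ : ℕ → Fin r,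
    (((Rough w x).filter (fun n => ((Mono χ n).card : ℝ) < c * x / Real.log x ^ 2)).card : ℝ) ≤ δ * (Rough w x).card := by
  classical
  obtain ⟨w₀, H⟩ := cliques (r + 1) (by omega) δ hδ
  refine ⟨w₀, fun w hw => ?_⟩
  obtain ⟨c, hc, x₁, H1⟩ := H w hw
  obtain ⟨x₂, H2⟩ := pi_bd
  obtain ⟨K, hK⟩ : ∃ K : ℝ, K = ((r : ℝ) + 1) * (r + 1) * (2 * 2 ^ (r + 1 - 2)) := ⟨_, rfl⟩
  have hK0 : 0 < K := by rw [hK]; positivity
  refine ⟨c / (2 * K), by positivity, max (max x₁ x₂) 3, fun x hx χ => ?_⟩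
  have hx1 : x₁ ≤ x := le_trans (le_trans (le_max_left _ _) (le_max_left _ _)) hx
  have hx2 : x₂ ≤ x := le_trans (le_trans (le_max_right _ _) (le_max_left _ _)) hx
  have hx3 : 3 ≤ x := le_trans (le_max_right _ _) hx
  obtain ⟨C, hC⟩ : ∃ C, C = (Rough w x).filter (fun n => ((Mono χ n).card : ℝ) < c / (2 * K) * x / Real.log x ^ 2) := ⟨_, rfl⟩
  rw [← hC]
  by_contra hcon
  push Not at hcon
  have hCsub : C ⊆ Rough w x := by rw [hC]; exact filter_subset _ _
  have e1 := H1 x hx1 C hCsub hcon.le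
  have hxr : (3 : ℝ) ≤ x := by exact_mod_cast hx3
  have hx0 : (0 : ℝ) < x := by linarith
  have hL0 : 0 < Real.log x := Real.log_pos (by linarith)
  obtain ⟨Y, hY⟩ : ∃ Y : ℝ, Y = (x : ℝ) / Real.log x := ⟨_, rfl⟩
  have hY0 : 0 < Y := by rw [hY]; positivity
  rw [← hY] at e1
  -- pigeonhole
  have e2 : (Tuples (r + 1) x C).card ≤ ∑ q ∈ (univ : Finset (Fin (r + 1) × Fin (r + 1))).filter (fun q => q.1 ≠ q.2),
      ((Tuples (r + 1) x C).filter (fun p => χ (p q.1) = χ (p q.2))).card := by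
    have h1 : Tuples (r + 1) x C ⊆ ((univ : Finset (Fin (r + 1) × Fin (r + 1))).filter (fun q => q.1 ≠ q.2)).biUnion
        (fun q => (Tuples (r + 1) x C).filter (fun p => χ (p q.1) = χ (p q.2))) := by
      intro p hp
      rw [mem_biUnion]
      obtain ⟨i, j, hij, h⟩ := Fintype.exists_ne_map_eq_of_card_lt (fun i => χ (p i)) (by simp)
      refine ⟨(i, j), mem_filter.2 ⟨mem_univ _, hij⟩, ?_⟩
      rw [mem_filter]
      exact ⟨hp, h⟩
    exact (card_le_card h1).trans card_biUnion_le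
  have hsum : (∑ n ∈ C, ((Mono χ n).card : ℝ)) ≤ c / (2 * K) * Y ^ 2 := by
    have h1 : ∀ n ∈ C, ((Mono χ n).card : ℝ) ≤ c / (2 * K) * x / Real.log x ^ 2 := by
      intro n hn
      rw [hC, mem_filter] at hn
      exact hn.2.le
    refine (sum_le_sum h1).trans ?_
    rw [sum_const, nsmul_eq_mul]
    have h2 : (C.card : ℝ) ≤ x := by
      have h3 : C.card ≤ (Icc 1 x).card := card_le_card (fun n hn => mem_Icc.2 (mem_Rough.1 (hCsub hn)).1)
      rw [Nat.card_Icc, Nat.add_sub_cancel] at h3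
      exact_mod_cast h3
    calc (C.card : ℝ) * (c / (2 * K) * x / Real.log x ^ 2) ≤ x * (c / (2 * K) * x / Real.log x ^ 2) :=
          mul_le_mul_of_nonneg_right h2 (by positivity)
      _ = c / (2 * K) * Y ^ 2 := by
          rw [hY]
          ring
  have hpi := H2 x hx2
  rw [← hY] at hpi
  have e3 : ∀ q ∈ (univ : Finset (Fin (r + 1) × Fin (r + 1))).filter (fun q => q.1 ≠ q.2),
      (((Tuples (r + 1) x C).filter (fun p => χ (p q.1) = χ (p q.2))).card : ℝ) ≤
        (2 * (c / (2 * K) * Y ^ 2)) * (2 * Y) ^ (r + 1 - 2) := by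
    intro q hq
    rw [mem_filter] at hq
    have h1 := pair_count χ (r + 1) x C q.1 q.2 hq.2
    have h2 : (((Tuples (r + 1) x C).filter (fun p => χ (p q.1) = χ (p q.2))).card : ℝ) ≤
        (2 * ∑ n ∈ C, ((Mono χ n).card : ℝ)) * (((range (x + 1)).filter Nat.Prime).card : ℝ) ^ (r + 1 - 2) := by
      exact_mod_cast h1
    refine h2.trans ?_
    apply mul_le_mul (by linarith) (pow_le_pow_left₀ (Nat.cast_nonneg _) hpi _) (by positivity) (by positivity)
  have e4 : ((Tuples (r + 1) x C).card : ℝ) ≤ ((r : ℝ) + 1) * (r + 1) * ((2 * (c / (2 * K) * Y ^ 2)) * (2 * Y) ^ (r + 1 - 2)) := by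
    have h1 : ((Tuples (r + 1) x C).card : ℝ) ≤ ∑ q ∈ (univ : Finset (Fin (r + 1) × Fin (r + 1))).filter (fun q => q.1 ≠ q.2),
      (((Tuples (r + 1) x C).filter (fun p => χ (p q.1) = χ (p q.2))).card : ℝ) := by exact_mod_cast e2
    refine h1.trans ((sum_le_sum e3).trans ?_)
    rw [sum_const, nsmul_eq_mul]
    apply mul_le_mul_of_nonneg_right _ (by positivity)
    have h2 : ((univ : Finset (Fin (r + 1) × Fin (r + 1))).filter (fun q => q.1 ≠ q.2)).card ≤ (r + 1) * (r + 1) := by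
      calc _ ≤ (univ : Finset (Fin (r + 1) × Fin (r + 1))).card := card_le_card (filter_subset _ _)
        _ = _ := by rw [card_univ, Fintype.card_prod, Fintype.card_fin]
    exact_mod_cast h2
  -- colours: r = 0 is impossible
  have hr : 1 ≤ r := by
    rcases Nat.eq_zero_or_pos r with h | h
    · subst h
      exact (χ 0).elim0
    · exact h
  have e5 : ((r : ℝ) + 1) * (r + 1) * ((2 * (c / (2 * K) * Y ^ 2)) * (2 * Y) ^ (r + 1 - 2)) = c / 2 * Y ^ (r + 1) := by
    have h1 : Y ^ (r + 1) = Y ^ 2 * Y ^ (r + 1 - 2) := by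
      rw [← pow_add]
      congr 1
      omega
    rw [h1, mul_pow]
    calc _ = (((r : ℝ) + 1) * (r + 1) * (2 * 2 ^ (r + 1 - 2))) * (c / (2 * K)) * (Y ^ 2 * Y ^ (r + 1 - 2)) := by ring
      _ = K * (c / (2 * K)) * (Y ^ 2 * Y ^ (r + 1 - 2)) := by rw [← hK]
      _ = _ := by
        field_simp
  have h7 : 0 < c / 2 * Y ^ (r + 1) := by positivity
  linarith

end Pool.Agent.H68.MG
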