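import Mathlib
import Pool.Agent.H68.MG.Main

set_option autoImplicit false
set_option linter.unusedSectionVars false
set_option linter.unusedVariables false

/-! Upper bounds for the number of pairs of primes with averages in a given set. -/

namespace Pool.Agent.H68.MG
open Finset
open Pool.Agent.H373R2.T7 Pool.Agent.N730.PT

open scoped ArithmeticFunction.vonMangoldt

lemma conv_sq {G : Type} [AddCommGroup G] [Fintype G] [DecidableEq G] (f : G → ℝ) :
    ∑ s, (∑ x, f x * f (s - x)) ^ 2 = ∑ d, aut f d ^ 2 := by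
  have h1 : ∀ s : G, (∑ x, f x * f (s - x)) ^ 2 = ∑ x, ∑ x', (f x * f x') * (f (s - x) * f (s - x')) := by
    intro s
    rw [sq, sum_mul_sum]
    apply sum_congr rfl
    intro x _
    apply sum_congr rfl
    intro x' _
    ring
  rw [sum_congr rfl (fun s _ => h1 s), sum_comm]
  have h2 : ∀ x : G, ∑ s, ∑ x', (f x * f x') * (f (s - x) * f (s - x')) = ∑ x', f x * f x' * aut f (x' - x) := by
    intro x
    rw [sum_comm]
    apply sum_congr rfl
    intro x' _
    rw [← mul_sum, aut_shift]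
  rw [sum_congr rfl (fun x _ => h2 x), sum_diff f (fun d => aut f d)]
  apply sum_congr rfl
  intro d _
  ring

lemma cls21 : Cls 2 1 := by
  have h : pz 2 = {2} := by decide
  constructor
  · unfold Dw
    rw [h]
    simp
  · intro p hp
    rw [h, mem_singleton] at hp
    subst hp
    omega

lemma Dw2 : Dw 2 = 2 := by
  have h : pz 2 = {2} := by decide
  unfold Dw
  rw [h]
  simp

lemma Vz2 : Vz 2 = 1 / 2 := by
  have h : pz 2 = {2} := by decide
  unfold Vz
  rw [h, prod_singleton]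
  norm_num

theorem energy : ∃ C : ℝ, 0 < C ∧ ∃ M₀ : ℕ, ∀ M ≥ M₀,
    ∑ d : ZMod (2 * M + 1), aut (ext M (lamn 2 1)) d ^ 2 ≤ C * (M : ℝ) ^ 3 := by
  obtain ⟨M1, H1⟩ := arith_gen 2 le_rfl 2 (by norm_num)
  obtain ⟨M2, H2⟩ := first_moment 2 le_rfl
  obtain ⟨M3, H3⟩ := ev_L' 3
  obtain ⟨K, hK⟩ : ∃ K : ℝ, K = 27 * (8 * (Real.exp (16 / ((2 : ℕ) : ℝ)) - 1 + (1 / (((2 : ℕ) : ℝ))) ^ 4)) + 2 / 2 := ⟨_, rfl⟩
  have hK0 : 0 < K := by
    have h1 : 0 ≤ Real.exp (16 / ((2 : ℕ) : ℝ)) - 1 := by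
      have := Real.one_le_exp (show (0 : ℝ) ≤ 16 / ((2 : ℕ) : ℝ) by positivity)
      linarith
    rw [hK]
    positivity
  refine ⟨2 * √(6 * K) + 294, by positivity, max (max M1 M2) (max M3 1), fun M hM => ?_⟩
  have c1 : M1 ≤ M := le_trans (le_trans (le_max_left _ _) (le_max_left _ _)) hM
  have c2 : M2 ≤ M := le_trans (le_trans (le_max_right _ _) (le_max_left _ _)) hM
  have c3 : M3 ≤ M := le_trans (le_trans (le_max_left _ _) (le_max_right _ _)) hM
  have c4 : 1 ≤ M := le_trans (le_trans (le_max_right _ _) (le_max_right _ _)) hM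
  have hM0 : (1 : ℝ) ≤ M := by exact_mod_cast c4
  have hcard : (Fintype.card (ZMod (2 * M + 1)) : ℝ) = 2 * M + 1 := by
    rw [ZMod.card]
    push_cast
    ring
  have key := H1 M c1 1 cls21
  rw [← hK] at key
  -- first moment
  have s1 : ∑ m ∈ range M, lamn 2 1 m ≤ 2 * M := by
    have e2 := H2 (2 * M) (by omega) 1 cls21 M (by rw [Dw2])
    have e3 := H3 (2 * M) (by omega)
    have e4 : ((2 * M : ℕ) : ℝ) / Real.log ((2 * M : ℕ) : ℝ) ^ 3 ≤ M := by
      have e5 : (2 : ℝ) ≤ Real.log ((2 * M : ℕ) : ℝ) ^ 3 := by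
        calc (2 : ℝ) ≤ Real.log ((2 * M : ℕ) : ℝ) := by linarith
          _ = Real.log ((2 * M : ℕ) : ℝ) ^ 1 := (pow_one _).symm
          _ ≤ Real.log ((2 * M : ℕ) : ℝ) ^ 3 := pow_le_pow_right₀ (by linarith) (by norm_num)
      have e7 : 0 < Real.log ((2 * M : ℕ) : ℝ) ^ 3 := by linarith
      rw [div_le_iff₀ e7]
      calc ((2 * M : ℕ) : ℝ) = M * 2 := by
            push_cast
            ring
        _ ≤ M * Real.log ((2 * M : ℕ) : ℝ) ^ 3 := mul_le_mul_of_nonneg_left e5 (by linarith)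
    have e8 := (abs_le.1 e2).2
    linarith
  obtain ⟨g, hg⟩ : ∃ g : ZMod (2 * M + 1) → ℝ, g = ext M (fun m => lamn 2 1 m - 1) := ⟨_, rfl⟩
  obtain ⟨mu, hmu⟩ : ∃ mu : ZMod (2 * M + 1) → ℝ, mu = ext M (fun _ => 1) := ⟨_, rfl⟩
  have hmu0 : ∀ x, 0 ≤ mu x := by
    intro x
    rw [hmu]
    unfold ext
    split_ifs <;> norm_num
  have hmu1 : ∀ x, mu x ≤ 1 := by
    intro x
    rw [hmu]
    unfold ext
    split_ifs <;> norm_num
  have q4 : ∑ d, aut g d ^ 4 ≤ 2 * K * (M : ℝ) ^ 5 := by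
    refine (sum_even M _ (fun x => by positivity) (fun x => by rw [aut_neg])).trans ?_
    have e2 : ∀ k ∈ range (M + 1), aut g (k : ZMod (2 * M + 1)) ^ 4 = acr 2 1 M k ^ 4 := by
      intro k hk
      rw [mem_range] at hk
      rw [hg, aut_ext M _ k (by omega)]
      rfl
    rw [sum_congr rfl e2, sum_range_succ]
    have e3 : acr 2 1 M M = 0 := by
      unfold acr
      simp
    rw [e3]
    nlinarith
  have q2 : ∑ d, aut g d ^ 2 ≤ √(6 * K) * (M : ℝ) ^ 3 := by
    have h1 : (∑ d, aut g d ^ 2) ^ 2 ≤ (√(6 * K) * (M : ℝ) ^ 3) ^ 2 := by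
      have h2 := sum_mul_sq_le_sq_mul_sq (univ : Finset (ZMod (2 * M + 1))) (fun _ => (1 : ℝ)) (fun d => aut g d ^ 2)
      simp only [one_mul, one_pow, sum_const, card_univ, nsmul_eq_mul, mul_one] at h2
      rw [hcard] at h2
      have h3 : ∑ d, (aut g d ^ 2) ^ 2 = ∑ d, aut g d ^ 4 := by
        apply sum_congr rfl
        intro d _
        ring
      rw [h3] at h2
      calc _ ≤ (2 * (M : ℝ) + 1) * ∑ d, aut g d ^ 4 := h2
        _ ≤ (3 * M) * (2 * K * (M : ℝ) ^ 5) := by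
            apply mul_le_mul (by linarith) q4 (sum_nonneg fun d _ => by positivity) (by positivity)
        _ = (√(6 * K) * (M : ℝ) ^ 3) ^ 2 := by
            rw [mul_pow, Real.sq_sqrt (by positivity)]
            ring
    exact le_of_sq_le_sq h1 (by positivity)
  have hdec : ∀ x, ext M (lamn 2 1) x = g x + mu x := by
    intro x
    rw [hg, hmu]
    unfold ext
    split_ifs <;> ring
  have hgabs : ∑ x, |g x| ≤ 3 * M := by
    have h1 : ∀ x, |g x| ≤ ext M (lamn 2 1) x + mu x := by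
      intro x
      have h2 := hmu0 x
      have h3 : 0 ≤ ext M (lamn 2 1) x := by
        unfold ext
        split_ifs
        · exact lamn_nonneg 2 1 _
        · exact le_rfl
      have h4 : g x = ext M (lamn 2 1) x - mu x := by
        rw [hdec]
        ring
      rw [h4, abs_le]
      constructor <;> linarith
    refine (sum_le_sum fun x _ => h1 x).trans ?_
    rw [sum_add_distrib, hmu, sum_ext, sum_ext]
    simp only [sum_const, card_range, nsmul_eq_mul, mul_one]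
    linarith
  have hmusum : ∑ x, mu x = M := by
    rw [hmu, sum_ext]
    simp
  have hpt : ∀ d, aut (ext M (lamn 2 1)) d ^ 2 ≤ 2 * aut g d ^ 2 + 2 * (49 * (M : ℝ) ^ 2) := by
    intro d
    have e1 : aut (ext M (lamn 2 1)) d = aut g d + (∑ x, g x * mu (x + d) + ∑ x, mu x * g (x + d) + aut mu d) := by
      unfold aut
      rw [← sum_add_distrib, ← sum_add_distrib, ← sum_add_distrib]
      apply sum_congr rfl
      intro x _
      rw [hdec, hdec]
      ring
    have e2 : |∑ x, g x * mu (x + d)| ≤ 3 * M := by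
      refine (abs_sum_le_sum_abs _ _).trans (le_trans (sum_le_sum fun x _ => ?_) hgabs)
      rw [abs_mul, abs_of_nonneg (hmu0 (x + d))]
      exact mul_le_of_le_one_right (abs_nonneg _) (hmu1 _)
    have e3 : |∑ x, mu x * g (x + d)| ≤ 3 * M := by
      have e4 : ∑ x, |g (x + d)| = ∑ x, |g x| := Equiv.sum_comp (Equiv.addRight d) (fun x => |g x|)
      refine (abs_sum_le_sum_abs _ _).trans (le_trans (sum_le_sum fun x _ => ?_) (e4.le.trans hgabs))
      rw [abs_mul, abs_of_nonneg (hmu0 x)]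
      exact mul_le_of_le_one_left (abs_nonneg _) (hmu1 _)
    have e5 : |aut mu d| ≤ M := by
      unfold aut
      refine (abs_sum_le_sum_abs _ _).trans (le_trans (sum_le_sum fun x _ => ?_) hmusum.le)
      rw [abs_mul, abs_of_nonneg (hmu0 x), abs_of_nonneg (hmu0 (x + d))]
      exact mul_le_of_le_one_right (hmu0 _) (hmu1 _)
    obtain ⟨u, hu⟩ : ∃ u, u = ∑ x, g x * mu (x + d) + ∑ x, mu x * g (x + d) + aut mu d := ⟨_, rfl⟩
    rw [e1, ← hu]
    have e6 : |u| ≤ 7 * M := by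
      rw [hu]
      refine (abs_add_le _ _).trans ?_
      have := abs_add_le (∑ x, g x * mu (x + d)) (∑ x, mu x * g (x + d))
      linarith
    have e7 : u ^ 2 ≤ 49 * (M : ℝ) ^ 2 := by
      rw [← sq_abs u]
      calc |u| ^ 2 ≤ (7 * (M : ℝ)) ^ 2 := pow_le_pow_left₀ (abs_nonneg _) e6 2
        _ = _ := by ring
    nlinarith [sq_nonneg (aut g d - u)]
  refine (sum_le_sum fun d _ => hpt d).trans ?_
  rw [sum_add_distrib, ← mul_sum, sum_const, card_univ, nsmul_eq_mul, hcard]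
  have h1 : (2 * (M : ℝ) + 1) * (2 * (49 * (M : ℝ) ^ 2)) ≤ 294 * (M : ℝ) ^ 3 := by
    have h2 : 2 * (M : ℝ) + 1 ≤ 3 * M := by linarith
    calc (2 * (M : ℝ) + 1) * (2 * (49 * (M : ℝ) ^ 2)) ≤ (3 * M) * (2 * (49 * (M : ℝ) ^ 2)) :=
          mul_le_mul_of_nonneg_right h2 (by positivity)
      _ = _ := by ring
  linarith

/-- few pairs of primes with averages in a small set -/
theorem pairs_small : ∃ C : ℝ, 0 < C ∧ ∃ x₀ : ℕ, ∀ x ≥ x₀, ∀ A B S : Finset ℕ,
    (∀ p ∈ A, p.Prime ∧ x ≤ p ^ 2 ∧ p ≤ x) → (∀ p ∈ B, p.Prime ∧ x ≤ p ^ 2 ∧ p ≤ x) → (S ⊆ Icc 1 x) →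
    ((((A ×ˢ B).filter (fun q => ∃ n ∈ S, q.1 + q.2 = 2 * n)).card : ℝ) * Real.log x ^ 2) ^ 2 ≤ C * S.card * (x : ℝ) ^ 3 := by
  classical
  obtain ⟨C, hC, M₀, H⟩ := energy
  refine ⟨256 * C, by positivity, 2 * M₀ + 5, fun x hx A B S hA hB hS => ?_⟩
  obtain ⟨M, hM⟩ : ∃ M, M = x / 2 + 1 := ⟨_, rfl⟩
  have hM1 : M₀ ≤ M := by omega
  have hMx : M ≤ x := by omega
  have key := H M hM1
  rw [← conv_sq] at key
  obtain ⟨la, hla⟩ : ∃ la : ZMod (2 * M + 1) → ℝ, la = ext M (lamn 2 1) := ⟨_, rfl⟩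
  rw [← hla] at key
  have hla0 : ∀ x, 0 ≤ la x := by
    intro x
    rw [hla]
    unfold ext
    split_ifs
    · exact lamn_nonneg 2 1 _
    · exact le_rfl
  have hxr : (5 : ℝ) ≤ x := by exact_mod_cast (by omega : 5 ≤ x)
  have hL0 : 0 < Real.log x := Real.log_pos (by linarith)
  -- the weight of a prime
  have hodd : ∀ p : ℕ, p.Prime → x ≤ p ^ 2 → p % 2 = 1 := by
    intro p hp hpx
    rcases hp.eq_two_or_odd with h | h
    · subst h
      omega
    · exact h
  have hwt : ∀ p : ℕ, p.Prime → x ≤ p ^ 2 → p ≤ x → Real.log x / 4 ≤ la ((p / 2 : ℕ) : ZMod (2 * M + 1)) := by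
    intro p hp hpx hpx2
    have h1 := hodd p hp hpx
    rw [hla, ext_cast M _ _ (by omega), if_pos (by omega)]
    unfold lamn
    rw [Vz2, Dw2]
    have h2 : 2 * (p / 2) + 1 = p := by omega
    rw [h2, ArithmeticFunction.vonMangoldt_apply_prime hp]
    have h3 : Real.log x ≤ 2 * Real.log p := by
      have h4 : Real.log x ≤ Real.log ((p : ℝ) ^ 2) := by
        apply Real.log_le_log (by linarith)
        exact_mod_cast hpx
      rw [Real.log_pow] at h4
      exact_mod_cast h4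
    linarith
  obtain ⟨Q, hQ⟩ : ∃ Q, Q = (A ×ˢ B).filter (fun q => ∃ n ∈ S, q.1 + q.2 = 2 * n) := ⟨_, rfl⟩
  rw [← hQ]
  have hval : ∀ n ∈ S, ∀ n' ∈ S, (((n - 1 : ℕ) : ZMod (2 * M + 1))) = (((n' - 1 : ℕ) : ZMod (2 * M + 1))) → n = n' := by
    intro n hn n' hn' h
    have h1 := mem_Icc.1 (hS hn)
    have h2 := mem_Icc.1 (hS hn')
    have h3 := congrArg ZMod.val h
    rw [ZMod.val_cast_of_lt (by omega), ZMod.val_cast_of_lt (by omega)] at h3
    omega
  -- the sum over pairs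
  have e1 : (Q.card : ℝ) * (Real.log x ^ 2 / 16) ≤ ∑ n ∈ S, ∑ u : ZMod (2 * M + 1), la u * la (((n - 1 : ℕ) : ZMod (2 * M + 1)) - u) := by
    have h1 : (Q.card : ℝ) * (Real.log x ^ 2 / 16) ≤ ∑ q ∈ Q, la ((q.1 / 2 : ℕ) : ZMod (2 * M + 1)) * la ((q.2 / 2 : ℕ) : ZMod (2 * M + 1)) := by
      rw [← nsmul_eq_mul]
      apply card_nsmul_le_sum
      intro q hq
      rw [hQ, mem_filter, mem_product] at hq
      have a1 := hA q.1 hq.1.1
      have a2 := hB q.2 hq.1.2
      have b1 := hwt q.1 a1.1 a1.2.1 a1.2.2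
      have b2 := hwt q.2 a2.1 a2.2.1 a2.2.2
      calc Real.log x ^ 2 / 16 = Real.log x / 4 * (Real.log x / 4) := by ring
        _ ≤ _ := mul_le_mul b1 b2 (by positivity) (hla0 _)
    refine h1.trans ?_
    rw [← sum_product']
    have hinj : Set.InjOn (fun q : ℕ × ℕ => ((q.1 + q.2) / 2, ((q.1 / 2 : ℕ) : ZMod (2 * M + 1)))) (Q : Set (ℕ × ℕ)) := by
      intro q hq q' hq' h
      rw [mem_coe, hQ, mem_filter, mem_product] at hq hq'
      obtain ⟨⟨ha, hb⟩, n, hn, hs⟩ := hq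
      obtain ⟨⟨ha', hb'⟩, n', hn', hs'⟩ := hq'
      have a1 := hA _ ha
      have a2 := hA _ ha'
      have o1 := hodd _ a1.1 a1.2.1
      have o2 := hodd _ a2.1 a2.2.1
      have h2 : (q.1 + q.2) / 2 = (q'.1 + q'.2) / 2 := congrArg Prod.fst h
      have h3 := congrArg (fun z => ZMod.val (Prod.snd z)) h
      simp only at h3
      rw [ZMod.val_cast_of_lt (by omega), ZMod.val_cast_of_lt (by omega)] at h3
      have h4 : q.1 = q'.1 := by omega
      have h5 : q.2 = q'.2 := by omega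
      exact Prod.ext h4 h5
    have h2 : ∑ q ∈ Q, la ((q.1 / 2 : ℕ) : ZMod (2 * M + 1)) * la ((q.2 / 2 : ℕ) : ZMod (2 * M + 1)) =
        ∑ z ∈ Q.image (fun q : ℕ × ℕ => ((q.1 + q.2) / 2, ((q.1 / 2 : ℕ) : ZMod (2 * M + 1)))),
          la z.2 * la (((z.1 - 1 : ℕ) : ZMod (2 * M + 1)) - z.2) := by
      rw [sum_image hinj]
      apply sum_congr rfl
      intro q hq
      rw [hQ, mem_filter, mem_product] at hq
      obtain ⟨⟨ha, hb⟩, n, hn, hs⟩ := hq
      have a1 := hA _ ha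
      have a2 := hB _ hb
      have o1 := hodd _ a1.1 a1.2.1
      have o2 := hodd _ a2.1 a2.2.1
      have h3 : (q.1 + q.2) / 2 - 1 = q.1 / 2 + q.2 / 2 := by omega
      simp only
      rw [h3]
      congr 2
      push_cast
      ring
    rw [h2]
    apply sum_le_sum_of_subset_of_nonneg
    · intro z hz
      rw [mem_image] at hz
      obtain ⟨q, hq, rfl⟩ := hz
      rw [hQ, mem_filter, mem_product] at hq
      obtain ⟨⟨ha, hb⟩, n, hn, hs⟩ := hq
      rw [mem_product]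
      refine ⟨?_, mem_univ _⟩
      simp only
      have : (q.1 + q.2) / 2 = n := by omega
      rw [this]
      exact hn
    · intro z _ _
      exact mul_nonneg (hla0 _) (hla0 _)
  -- Cauchy-Schwarz
  have e2 : (∑ n ∈ S, ∑ u : ZMod (2 * M + 1), la u * la (((n - 1 : ℕ) : ZMod (2 * M + 1)) - u)) ^ 2 ≤ S.card * (C * (M : ℝ) ^ 3) := by
    have h1 := sum_mul_sq_le_sq_mul_sq S (fun _ => (1 : ℝ)) (fun n => ∑ u : ZMod (2 * M + 1), la u * la (((n - 1 : ℕ) : ZMod (2 * M + 1)) - u))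
    simp only [one_mul, one_pow, sum_const, nsmul_eq_mul, mul_one] at h1
    refine h1.trans ?_
    apply mul_le_mul_of_nonneg_left _ (Nat.cast_nonneg _)
    refine le_trans ?_ key
    rw [← sum_image (s := S) (g := fun n => (((n - 1 : ℕ) : ZMod (2 * M + 1))))
      (f := fun s => (∑ u : ZMod (2 * M + 1), la u * la (s - u)) ^ 2)]
    · exact sum_le_sum_of_subset_of_nonneg (subset_univ _) (fun _ _ _ => sq_nonneg _)
    · intro n hn n' hn' h
      exact hval n hn n' hn' h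
  have e3 : ((Q.card : ℝ) * (Real.log x ^ 2 / 16)) ^ 2 ≤ S.card * (C * (M : ℝ) ^ 3) := by
    refine le_trans (pow_le_pow_left₀ (by positivity) e1 2) e2
  have e4 : (M : ℝ) ^ 3 ≤ (x : ℝ) ^ 3 := by
    apply pow_le_pow_left₀ (Nat.cast_nonneg _)
    exact_mod_cast hMx
  calc ((Q.card : ℝ) * Real.log x ^ 2) ^ 2 = 256 * ((Q.card : ℝ) * (Real.log x ^ 2 / 16)) ^ 2 := by ring
    _ ≤ 256 * (S.card * (C * (M : ℝ) ^ 3)) := by linarith
    _ ≤ 256 * (S.card * (C * (x : ℝ) ^ 3)) := by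
        apply mul_le_mul_of_nonneg_left _ (by norm_num)
        apply mul_le_mul_of_nonneg_left _ (Nat.cast_nonneg _)
        exact mul_le_mul_of_nonneg_left e4 hC.le
    _ = _ := by ring

end Pool.Agent.H68.MG
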