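import Mathlib
import Pool.Agent.H68.MG.Energy

set_option autoImplicit false
set_option linter.unusedSectionVars false
set_option linter.unusedVariables false

/-! The number of colours needed at finitely many primes. -/

namespace Pool.Agent.H68.MG
open Finset
open Pool.Agent.H373R2.T7 Pool.Agent.N730.PT

open scoped ArithmeticFunction.vonMangoldt

/-- the half systems -/
def half (l p : ℕ) : Bool := if l = 2 then decide (p % 4 = 1) else decide (2 * (p % l) < l)

lemma half_ne (l p q n : ℕ) (hl : l.Prime) (hp : p.Prime) (hq : q.Prime) (hpq : p < q) (hs : p + q = 2 * n) (hn : l ∣ n) :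
    half l p ≠ half l q := by
  unfold half
  by_cases h2 : l = 2
  · rw [if_pos h2, if_pos h2]
    subst h2
    obtain ⟨m, rfl⟩ := hn
    have hp2 : p ≠ 2 := by
      intro h
      subst h
      have h3 : 2 ∣ q := ⟨2 * m - 1, by omega⟩
      have h4 := (Nat.prime_dvd_prime_iff_eq Nat.prime_two hq).1 h3
      omega
    have hp1 := hp.eq_two_or_odd
    have h5 : p % 2 = 1 := by
      rcases hp1 with h | h
      · exact absurd h hp2
      · exact h
    have h6 : p % 4 = 1 ∨ p % 4 = 3 := by omega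
    rcases h6 with h6 | h6
    · have h7 : q % 4 = 3 := by omega
      rw [h6, h7]
      decide
    · have h7 : q % 4 = 1 := by omega
      rw [h6, h7]
      decide
  · rw [if_neg h2, if_neg h2]
    have hlodd : l % 2 = 1 := by
      rcases hl.eq_two_or_odd with h | h
      · exact absurd h h2
      · exact h
    have hdvd : l ∣ p + q := by
      rw [hs]
      exact hn.mul_left 2
    have hlp : ¬ l ∣ p := by
      intro h
      have h3 : l ∣ q := (Nat.dvd_add_right h).1 hdvd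
      have h4 := (Nat.prime_dvd_prime_iff_eq hl hp).1 h
      have h5 := (Nat.prime_dvd_prime_iff_eq hl hq).1 h3
      omega
    have hp0 : p % l ≠ 0 := fun h => hlp (Nat.dvd_of_mod_eq_zero h)
    have hpl : p % l < l := Nat.mod_lt _ hl.pos
    have hql : q % l < l := Nat.mod_lt _ hl.pos
    have h3 : (p % l + q % l) % l = 0 := by
      rw [← Nat.add_mod]
      exact Nat.mod_eq_zero_of_dvd hdvd
    have h4 : p % l + q % l = l := by
      have h5 : l ∣ p % l + q % l := Nat.dvd_of_mod_eq_zero h3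
      obtain ⟨c, hc⟩ := h5
      have hc1 : c < 2 := by
        by_contra hcon
        have : l * 2 ≤ l * c := Nat.mul_le_mul_left l (by omega)
        omega
      have hc0 : c ≠ 0 := by
        rintro rfl
        omega
      have hc2 : c = 1 := by omega
      rw [hc2, mul_one] at hc
      exact hc
    by_cases h5 : 2 * (p % l) < l
    · have h6 : ¬ 2 * (q % l) < l := by omega
      simp [h5, h6]
    · have h6 : 2 * (q % l) < l := by omega
      simp [h5, h6]

theorem sharp (P : Finset ℕ) (hP : ∀ l ∈ P, l.Prime) : ∃ χ : ℕ → Fin (2 ^ P.card), ∀ n : ℕ, (∃ l ∈ P, l ∣ n) → Mono χ n = ∅ := by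
  classical
  have hcard : Fintype.card ({l // l ∈ P} → Bool) = 2 ^ P.card := by
    rw [Fintype.card_fun, Fintype.card_bool, Fintype.card_coe]
  obtain e := Fintype.equivFinOfCardEq hcard
  refine ⟨fun p => e (fun l => half l p), fun n hn => ?_⟩
  obtain ⟨l, hl, hln⟩ := hn
  rw [eq_empty_iff_forall_notMem]
  intro p hp
  rw [mem_Mono] at hp
  obtain ⟨h1, h2, h3, h4, h5⟩ := hp
  have h6 := e.injective h5
  have h7 := congrFun h6 ⟨l, hl⟩
  exact half_ne l p.1 p.2 n (hP l hl) h1 h2 h3 h4 hln h7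

/-- many primes in a class -/
theorem class_primes (q a : ℕ) (hq : 1 ≤ q) (ha : a.Coprime q) : ∃ x₀ : ℕ, ∀ x ≥ x₀,
    (x : ℝ) / (2 * q * Real.log x) ≤
      (((range (x + 1)).filter (fun p => (p.Prime ∧ x ≤ p ^ 2) ∧ p ≡ a [MOD q])).card : ℝ) := by
  classical
  obtain ⟨m1, h1⟩ := lam_ap 1 1
  obtain ⟨m2, h2⟩ := ev_L' (4 * q + 1)
  obtain ⟨m3, h3⟩ := ev_log' 1 (12 * q)
  refine ⟨max (max m1 m2) (max m3 3), fun x hx => ?_⟩
  have d1 := h1 x (le_trans (le_trans (le_max_left _ _) (le_max_left _ _)) hx) q hq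
  have d2 := h2 x (le_trans (le_trans (le_max_right _ _) (le_max_left _ _)) hx)
  have d3 := h3 x (le_trans (le_trans (le_max_left _ _) (le_max_right _ _)) hx)
  have hx3 : 3 ≤ x := le_trans (le_trans (le_max_right _ _) (le_max_right _ _)) hx
  have hxr : (3 : ℝ) ≤ x := by exact_mod_cast hx3
  have hx0 : (0 : ℝ) < x := by linarith
  obtain ⟨L, hL⟩ : ∃ L : ℝ, L = Real.log x := ⟨_, rfl⟩
  rw [← hL] at d1 d2 d3 ⊢
  have hqr : (1 : ℝ) ≤ q := by exact_mod_cast hq
  have hL0 : 0 < L := by linarith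
  have key := d1 (by rw [pow_one]; linarith) a x le_rfl
  rw [if_pos ha, pow_one] at key
  obtain ⟨T, hT⟩ : ∃ T, T = (range (x + 1)).filter (fun p => (p.Prime ∧ x ≤ p ^ 2) ∧ p ≡ a [MOD q]) := ⟨_, rfl⟩
  rw [← hT]
  have hsq : √(x : ℝ) * √(x : ℝ) = x := Real.mul_self_sqrt hx0.le
  have hlog : ∀ n : ℕ, 1 ≤ n → n ≤ x → Λ n ≤ L := by
    intro n hn1 hn2
    refine ArithmeticFunction.vonMangoldt_le_log.trans ?_
    rw [hL]
    exact Real.log_le_log (by exact_mod_cast hn1) (by exact_mod_cast hn2)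
  have e1 : ∑ n ∈ (Icc 1 x).filter (fun n => n ≡ a [MOD q]), Λ n ≤ L * T.card + √(x : ℝ) * L + 2 * √(x : ℝ) * L := by
    have hsub : (Icc 1 x).filter (fun n => n ≡ a [MOD q]) ⊆ T ∪ ((Icc 1 x).filter (fun n => n ^ 2 < x) ∪ (Icc 1 x).filter (fun n => ¬ n.Prime)) := by
      intro n hn
      rw [mem_filter, mem_Icc] at hn
      rw [mem_union, mem_union, hT, mem_filter, mem_filter, mem_filter, mem_range, mem_Icc]
      by_cases hp : n.Prime
      · by_cases hs : x ≤ n ^ 2
        · left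
          exact ⟨by omega, ⟨hp, hs⟩, hn.2⟩
        · right; left
          exact ⟨hn.1, by omega⟩
      · right; right
        exact ⟨hn.1, hp⟩
    have h5 : ∑ n ∈ (Icc 1 x).filter (fun n => n ≡ a [MOD q]), Λ n ≤ ∑ n ∈ T, Λ n +
        (∑ n ∈ (Icc 1 x).filter (fun n => n ^ 2 < x), Λ n + ∑ n ∈ (Icc 1 x).filter (fun n => ¬ n.Prime), Λ n) := by
      refine (sum_le_sum_of_subset_of_nonneg hsub (fun _ _ _ => ArithmeticFunction.vonMangoldt_nonneg)).trans ?_
      have hu : ∀ (U V : Finset ℕ), ∑ n ∈ U ∪ V, Λ n ≤ ∑ n ∈ U, Λ n + ∑ n ∈ V, Λ n := by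
        intro U V
        have := sum_union_inter (s₁ := U) (s₂ := V) (f := fun n => Λ n)
        have h6 : 0 ≤ ∑ n ∈ U ∩ V, Λ n := sum_nonneg fun _ _ => ArithmeticFunction.vonMangoldt_nonneg
        linarith
      exact (hu _ _).trans (add_le_add le_rfl (hu _ _))
    have h6 : ∑ n ∈ T, Λ n ≤ L * T.card := by
      have h7 : ∀ n ∈ T, Λ n ≤ L := by
        intro n hn
        rw [hT, mem_filter, mem_range] at hn
        exact hlog n hn.2.1.1.one_le (by omega)
      refine (sum_le_sum h7).trans ?_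
      rw [sum_const, nsmul_eq_mul, mul_comm]
    have h7 : ∑ n ∈ (Icc 1 x).filter (fun n => n ^ 2 < x), Λ n ≤ √(x : ℝ) * L := by
      have h8 : ∀ n ∈ (Icc 1 x).filter (fun n => n ^ 2 < x), Λ n ≤ L := by
        intro n hn
        rw [mem_filter, mem_Icc] at hn
        exact hlog n hn.1.1 hn.1.2
      refine (sum_le_sum h8).trans ?_
      rw [sum_const, nsmul_eq_mul]
      apply mul_le_mul_of_nonneg_right _ hL0.le
      have h9 : (Icc 1 x).filter (fun n => n ^ 2 < x) ⊆ Icc 1 (Nat.sqrt x) := by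
        intro n hn
        rw [mem_filter, mem_Icc] at hn
        rw [mem_Icc]
        refine ⟨hn.1.1, Nat.le_sqrt'.2 hn.2.le⟩
      have h10 := card_le_card h9
      rw [Nat.card_Icc, Nat.add_sub_cancel] at h10
      have h11 : (Nat.sqrt x : ℝ) ≤ √(x : ℝ) := Real.nat_sqrt_le_real_sqrt
      have h12 : (((Icc 1 x).filter (fun n => n ^ 2 < x)).card : ℝ) ≤ Nat.sqrt x := by exact_mod_cast h10
      linarith
    have h8 := np_sum x (by omega)
    rw [← hL] at h8
    linarith
  have e2 := (abs_le.1 key).1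
  have hφ : (0 : ℝ) < Nat.totient q := by exact_mod_cast Nat.totient_pos.2 hq
  have e3 : (x : ℝ) / q ≤ (x : ℝ) / Nat.totient q := by
    apply div_le_div_of_nonneg_left hx0.le hφ
    exact_mod_cast Nat.totient_le q
  have e4 : (x : ℝ) / L ≤ x / (4 * q) := by
    apply div_le_div_of_nonneg_left hx0.le (by positivity)
    linarith
  have e5 : √(x : ℝ) * L + 2 * √(x : ℝ) * L ≤ x / (4 * q) := by
    rw [pow_one] at d3
    rw [le_div_iff₀ (by positivity)]
    calc (√(x : ℝ) * L + 2 * √(x : ℝ) * L) * (4 * q) = √(x : ℝ) * (12 * q * L) := by ring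
      _ ≤ √(x : ℝ) * √(x : ℝ) := mul_le_mul_of_nonneg_left d3 (Real.sqrt_nonneg _)
      _ = x := hsq
  have e6 : (x : ℝ) / (2 * q) ≤ L * T.card := by
    have h1 : (x : ℝ) / q = x / (2 * q) + (x / (4 * q) + x / (4 * q)) := by
      field_simp
      ring
    linarith
  rw [div_le_iff₀ (by positivity)]
  rw [div_le_iff₀ (by positivity)] at e6
  linarith

/-- the moduli -/
def md (l : ℕ) : ℕ := if l = 2 then 4 else l

/-- the classes with given signs -/
lemma signs (P : Finset ℕ) (hP : ∀ l ∈ P, l.Prime) (s : ℕ → Bool) :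
    ∃ a : ℕ, a.Coprime (∏ l ∈ P, md l) ∧ ∀ l ∈ P, a ≡ (if s l then 1 else md l - 1) [MOD md l] := by
  classical
  have hmd : ∀ l ∈ P, 2 ≤ md l := by
    intro l hl
    unfold md
    split_ifs
    · omega
    · exact (hP l hl).two_le
  have hcop : Set.Pairwise (P : Set ℕ) (Function.onFun Nat.Coprime md) := by
    intro l hl l' hl' hne
    have h1 := hP l hl
    have h2 := hP l' hl'
    have h3 : Nat.Coprime l l' := (Nat.coprime_primes h1 h2).2 hne
    unfold Function.onFun md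
    by_cases h4 : l = 2
    · rw [if_pos h4]
      by_cases h5 : l' = 2
      · exact absurd (h4.trans h5.symm) hne
      · rw [if_neg h5, show (4 : ℕ) = 2 ^ 2 by norm_num]
        rw [h4] at h3
        exact Nat.Coprime.pow_left 2 h3
    · rw [if_neg h4]
      by_cases h5 : l' = 2
      · rw [if_pos h5, show (4 : ℕ) = 2 ^ 2 by norm_num]
        rw [h5] at h3
        exact Nat.Coprime.pow_right 2 h3
      · rw [if_neg h5]
        exact h3
  obtain ⟨a, ha⟩ := Nat.chineseRemainderOfFinset (fun l => if s l then 1 else md l - 1) md P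
    (fun l hl => by have := hmd l hl; omega) hcop
  refine ⟨a, ?_, ha⟩
  apply Nat.Coprime.prod_right
  intro l hl
  have h1 := ha l hl
  have h2 := hmd l hl
  have h3 : Nat.Coprime (if s l then 1 else md l - 1) (md l) := by
    split_ifs
    · exact Nat.coprime_one_left _
    · have h4 : md l = (md l - 1) + 1 := by omega
      rw [h4, Nat.add_sub_cancel]
      exact (Nat.coprime_self_add_right).2 (Nat.coprime_one_right _)
  unfold Nat.Coprime at h3 ⊢
  rw [h1.gcd_eq]
  exact h3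

/-- **Fewer colours do not suffice.** -/
theorem optimal (P : Finset ℕ) (hP : ∀ l ∈ P, l.Prime) (r : ℕ) (hr : r < 2 ^ P.card) : ∃ c : ℝ, 0 < c ∧ ∃ x₀ : ℕ, ∀ x ≥ x₀,
    ∀ χ : ℕ → Fin r, c * x ≤
      (((Icc 1 x).filter (fun n => (∃ l ∈ P, l ∣ n) ∧ c * x / Real.log x ^ 2 ≤ ((Mono χ n).card : ℝ))).card : ℝ) := by
  classical
  rcases Nat.eq_zero_or_pos r with hr0 | hr0
  · subst hr0
    exact ⟨1, one_pos, 0, fun x _ χ => (χ 0).elim0⟩
  obtain ⟨q, hq⟩ : ∃ q, q = ∏ l ∈ P, md l := ⟨_, rfl⟩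
  have hmd : ∀ l ∈ P, 2 ≤ md l := by
    intro l hl
    unfold md
    split_ifs
    · omega
    · exact (hP l hl).two_le
  have hq1 : 1 ≤ q := by
    rw [hq]
    exact prod_pos (fun l hl => (by have := hmd l hl; omega : 0 < md l))
  have hqr : (1 : ℝ) ≤ q := by exact_mod_cast hq1
  choose a ha1 ha2 using signs P hP
  rw [← hq] at ha1
  -- signs as functions on P
  let sg' : ({l // l ∈ P} → Bool) → (ℕ → Bool) := fun s l => if h : l ∈ P then s ⟨l, h⟩ else false
  choose X₁ hX₁ using fun s : ({l // l ∈ P} → Bool) => class_primes q (a (sg' s)) hq1 (ha1 _)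
  obtain ⟨C, hC, x₂, H2⟩ := pairs_small
  obtain ⟨u, hu⟩ : ∃ u : ℝ, u = 1 / (2 * q * r) := ⟨_, rfl⟩
  have hrr : (1 : ℝ) ≤ r := by exact_mod_cast hr0
  have hu0 : 0 < u := by rw [hu]; positivity
  obtain ⟨c, hc⟩ : ∃ c : ℝ, c = min (u ^ 2 / 4) (u ^ 4 / (4 * C)) := ⟨_, rfl⟩
  have hc0 : 0 < c := by
    rw [hc]
    exact lt_min (by positivity) (by positivity)
  have hc1 : c ≤ u ^ 2 / 4 := by rw [hc]; exact min_le_left _ _
  have hc2 : c ≤ u ^ 4 / (4 * C) := by rw [hc]; exact min_le_right _ _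
  refine ⟨c, hc0, (univ.sup X₁) + x₂ + 5, fun x hx χ => ?_⟩
  have hxr : (3 : ℝ) ≤ x := by exact_mod_cast (by omega : 3 ≤ x)
  have hx0 : (0 : ℝ) < x := by linarith
  have hL0 : 0 < Real.log x := Real.log_pos (by linarith)
  obtain ⟨Y, hY⟩ : ∃ Y : ℝ, Y = (x : ℝ) / Real.log x := ⟨_, rfl⟩
  have hY0 : 0 < Y := by rw [hY]; positivity
  -- popular colours
  let T : ({l // l ∈ P} → Bool) → Finset ℕ := fun s =>
    (range (x + 1)).filter (fun p => (p.Prime ∧ x ≤ p ^ 2) ∧ p ≡ a (sg' s) [MOD q])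
  have hT : ∀ s, Y / (2 * q) ≤ ((T s).card : ℝ) := by
    intro s
    have h1 : X₁ s ≤ univ.sup X₁ := le_sup (mem_univ s)
    have h2 := hX₁ s x (by omega)
    refine le_trans (le_of_eq ?_) h2
    rw [hY]
    field_simp
  have hpop : ∀ s, ∃ i : Fin r, u * Y ≤ (((T s).filter (fun p => χ p = i)).card : ℝ) := by
    intro s
    by_contra hcon
    push Not at hcon
    have h1 : ((T s).card : ℝ) = ∑ i : Fin r, (((T s).filter (fun p => χ p = i)).card : ℝ) := by
      have h2 := card_eq_sum_card_fiberwise (f := χ) (s := T s) (t := univ) (fun _ _ => mem_coe.2 (mem_univ _))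
      rw [h2]
      push_cast
      rfl
    have : Nonempty (Fin r) := ⟨⟨0, hr0⟩⟩
    have h3 : ∑ i : Fin r, (((T s).filter (fun p => χ p = i)).card : ℝ) < ∑ i : Fin r, u * Y :=
      sum_lt_sum_of_nonempty univ_nonempty (fun i _ => hcon i)
    rw [sum_const, card_univ, Fintype.card_fin, nsmul_eq_mul] at h3
    have h4 : (r : ℝ) * (u * Y) = Y / (2 * q) := by
      rw [hu]
      field_simp
    have h5 := hT s
    linarith
  choose I hI using hpop
  obtain ⟨s, s', hss, hII⟩ := Fintype.exists_ne_map_eq_of_card_lt I (by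
    rw [Fintype.card_fin, Fintype.card_fun, Fintype.card_bool, Fintype.card_coe]
    exact hr)
  obtain ⟨l, hl⟩ : ∃ l, s l ≠ s' l := by
    by_contra hcon
    push Not at hcon
    exact hss (funext hcon)
  obtain ⟨A, hA⟩ : ∃ A, A = (T s).filter (fun p => χ p = I s) := ⟨_, rfl⟩
  obtain ⟨B, hB⟩ : ∃ B, B = (T s').filter (fun p => χ p = I s) := ⟨_, rfl⟩
  have hA1 := hI s
  have hB1 := hI s'
  rw [← hII, ← hB] at hB1
  rw [← hA] at hA1
  have hAm : ∀ p ∈ A, (p.Prime ∧ x ≤ p ^ 2 ∧ p ≤ x) ∧ p ≡ a (sg' s) [MOD q] ∧ χ p = I s := by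
    intro p hp
    simp only [hA, T, mem_filter, mem_range] at hp
    exact ⟨⟨hp.1.2.1.1, hp.1.2.1.2, by omega⟩, hp.1.2.2, hp.2⟩
  have hBm : ∀ p ∈ B, (p.Prime ∧ x ≤ p ^ 2 ∧ p ≤ x) ∧ p ≡ a (sg' s') [MOD q] ∧ χ p = I s := by
    intro p hp
    simp only [hB, T, mem_filter, mem_range] at hp
    exact ⟨⟨hp.1.2.1.1, hp.1.2.1.2, by omega⟩, hp.1.2.2, hp.2⟩
  -- sums
  have hmdq : md l ∣ q := by
    rw [hq]
    exact dvd_prod_of_mem _ l.2
  have hlP := hP l l.2
  have hml := hmd l l.2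
  have hsum0 : ∀ p ∈ A, ∀ p' ∈ B, md l ∣ p + p' := by
    intro p hp p' hp'
    have h1 := ((hAm p hp).2.1.of_dvd hmdq).trans (ha2 (sg' s) l l.2)
    have h2 := ((hBm p' hp').2.1.of_dvd hmdq).trans (ha2 (sg' s') l l.2)
    have h3 := h1.add h2
    have e1 : sg' s l = s l := by simp [sg']
    have e2 : sg' s' l = s' l := by simp [sg']
    rw [e1, e2] at h3
    have h4 : ((if s l = true then 1 else md l - 1) + (if s' l = true then 1 else md l - 1)) = md l := by
      cases hsl : s l <;> cases hsl' : s' l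
      · rw [hsl, hsl'] at hl
        exact absurd rfl hl
      · simp
        omega
      · simp
        omega
      · rw [hsl, hsl'] at hl
        exact absurd rfl hl
    rw [h4] at h3
    exact (Nat.modEq_zero_iff_dvd).1 (h3.trans (by
      exact (Nat.modEq_zero_iff_dvd).2 dvd_rfl))
  have hxbig : ∀ p : ℕ, p.Prime → x ≤ p ^ 2 → p % 2 = 1 := by
    intro p hp hpx
    rcases hp.eq_two_or_odd with h | h
    · subst h
      omega
    · exact h
  have hm3 : 3 ≤ md l := by
    unfold md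
    by_cases h2 : (l : ℕ) = 2
    · rw [if_pos h2]
      omega
    · rw [if_neg h2]
      have := hlP.two_le
      omega
  have hne : ∀ p ∈ A, ∀ p' ∈ B, p ≠ p' := by
    intro p hp p' hp' h
    have h1 := ((hAm p hp).2.1.of_dvd hmdq).trans (ha2 (sg' s) l l.2)
    have h2 := ((hBm p' hp').2.1.of_dvd hmdq).trans (ha2 (sg' s') l l.2)
    rw [← h] at h2
    have h3 := h1.symm.trans h2
    have e1 : sg' s l = s l := by simp [sg']
    have e2 : sg' s' l = s' l := by simp [sg']
    rw [e1, e2] at h3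
    unfold Nat.ModEq at h3
    cases hsl : s l <;> cases hsl' : s' l
    · rw [hsl, hsl'] at hl
      exact absurd rfl hl
    · rw [hsl, hsl'] at h3
      simp only [Bool.false_eq_true, if_false, if_true] at h3
      rw [Nat.mod_eq_of_lt (by omega), Nat.mod_eq_of_lt (by omega)] at h3
      omega
    · rw [hsl, hsl'] at h3
      simp only [Bool.false_eq_true, if_false, if_true] at h3
      rw [Nat.mod_eq_of_lt (by omega), Nat.mod_eq_of_lt (by omega)] at h3
      omega
    · rw [hsl, hsl'] at hl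
      exact absurd rfl hl
  have hsum : ∀ p ∈ A, ∀ p' ∈ B, ∃ n ∈ Icc 1 x, p + p' = 2 * n ∧ ∃ l ∈ P, l ∣ n := by
    intro p hp p' hp'
    have a1 := (hAm p hp).1
    have a2 := (hBm p' hp').1
    have o1 := hxbig p a1.1 a1.2.1
    have o2 := hxbig p' a2.1 a2.2.1
    have h1 := hsum0 p hp p' hp'
    have h2 : p + p' = 2 * ((p + p') / 2) := by omega
    refine ⟨(p + p') / 2, ?_, h2, l, l.2, ?_⟩
    · rw [mem_Icc]
      have := a1.1.two_le
      have := a2.1.two_le
      omega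
    · unfold md at h1
      by_cases h3 : (l : ℕ) = 2
      · rw [if_pos h3] at h1
        rw [h3]
        omega
      · rw [if_neg h3, h2] at h1
        have h4 : Nat.Coprime l 2 := (Nat.coprime_primes hlP Nat.prime_two).2 h3
        exact h4.dvd_of_dvd_mul_left h1
  obtain ⟨S, hS⟩ : ∃ S, S = (Icc 1 x).filter (fun n => (∃ l ∈ P, l ∣ n) ∧ c * x / Real.log x ^ 2 ≤ ((Mono χ n).card : ℝ)) := ⟨_, rfl⟩
  rw [← hS]
  obtain ⟨Q, hQ⟩ : ∃ Q, Q = (A ×ˢ B).filter (fun q => ∃ n ∈ S, q.1 + q.2 = 2 * n) := ⟨_, rfl⟩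
  obtain ⟨R, hR⟩ : ∃ R, R = (Icc 1 x).filter (fun n => ((Mono χ n).card : ℝ) < c * x / Real.log x ^ 2) := ⟨_, rfl⟩
  have hcover : A ×ˢ B ⊆ Q ∪ (R.biUnion (fun n => Mono χ n) ∪ R.biUnion (fun n => (Mono χ n).image Prod.swap)) := by
    intro z hz
    have hz' := mem_product.1 hz
    obtain ⟨n, hn, hn2, hn3⟩ := hsum z.1 hz'.1 z.2 hz'.2
    rw [mem_union]
    by_cases h1 : n ∈ S
    · left
      rw [hQ, mem_filter]
      exact ⟨hz, n, h1, hn2⟩
    · right
      have h2 : n ∈ R := by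
        rw [hR, mem_filter]
        refine ⟨hn, ?_⟩
        by_contra h3
        apply h1
        rw [hS, mem_filter]
        exact ⟨hn, hn3, not_lt.1 h3⟩
      have a1 := hAm z.1 hz'.1
      have a2 := hBm z.2 hz'.2
      have h4 : χ z.1 = χ z.2 := a1.2.2.trans a2.2.2.symm
      rw [mem_union, mem_biUnion, mem_biUnion]
      rcases lt_or_gt_of_ne (hne z.1 hz'.1 z.2 hz'.2) with h5 | h5
      · left
        refine ⟨n, h2, ?_⟩
        rw [mem_Mono]
        exact ⟨a1.1.1, a2.1.1, h5, hn2, h4⟩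
      · right
        refine ⟨n, h2, ?_⟩
        rw [mem_image]
        refine ⟨(z.2, z.1), ?_, rfl⟩
        rw [mem_Mono]
        exact ⟨a2.1.1, a1.1.1, h5, by rw [← hn2]; ring, h4.symm⟩
  have hcount : (A.card : ℝ) * B.card ≤ Q.card + 2 * c * Y ^ 2 := by
    have h1 := card_le_card hcover
    rw [card_product] at h1
    have h2 := h1.trans ((card_union_le _ _).trans (Nat.add_le_add_left ((card_union_le _ _).trans
      (Nat.add_le_add card_biUnion_le (card_biUnion_le.trans (sum_le_sum fun n _ => card_image_le)))) _))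
    have h3 : (A.card : ℝ) * B.card ≤ Q.card + (∑ n ∈ R, ((Mono χ n).card : ℝ) + ∑ n ∈ R, ((Mono χ n).card : ℝ)) := by
      exact_mod_cast h2
    have h4 : ∑ n ∈ R, ((Mono χ n).card : ℝ) ≤ c * Y ^ 2 := by
      have h5 : ∀ n ∈ R, ((Mono χ n).card : ℝ) ≤ c * x / Real.log x ^ 2 := by
        intro n hn
        rw [hR, mem_filter] at hn
        exact hn.2.le
      refine (sum_le_sum h5).trans ?_
      rw [sum_const, nsmul_eq_mul]
      have h6 : (R.card : ℝ) ≤ x := by
        have h7 : R.card ≤ (Icc 1 x).card := card_le_card (by rw [hR]; exact filter_subset _ _)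
        rw [Nat.card_Icc, Nat.add_sub_cancel] at h7
        exact_mod_cast h7
      calc (R.card : ℝ) * (c * x / Real.log x ^ 2) ≤ x * (c * x / Real.log x ^ 2) :=
            mul_le_mul_of_nonneg_right h6 (by positivity)
        _ = c * Y ^ 2 := by
            rw [hY]
            ring
    linarith
  have hlow : u ^ 2 * Y ^ 2 ≤ (A.card : ℝ) * B.card := by
    calc u ^ 2 * Y ^ 2 = (u * Y) * (u * Y) := by ring
      _ ≤ _ := mul_le_mul hA1 hB1 (by positivity) (Nat.cast_nonneg _)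
  have hQlow : u ^ 2 / 2 * Y ^ 2 ≤ Q.card := by
    have h1 : 2 * c * Y ^ 2 ≤ u ^ 2 / 2 * Y ^ 2 := mul_le_mul_of_nonneg_right (by linarith) (by positivity)
    have h2 : u ^ 2 * Y ^ 2 = u ^ 2 / 2 * Y ^ 2 + u ^ 2 / 2 * Y ^ 2 := by ring
    linarith
  have key := H2 x (by omega) A B S (fun p hp => (hAm p hp).1) (fun p hp => (hBm p hp).1) (by rw [hS]; exact filter_subset _ _)
  rw [← hQ] at key
  have e1 : (u ^ 2 / 2 * x ^ 2) ^ 2 ≤ ((Q.card : ℝ) * Real.log x ^ 2) ^ 2 := by
    apply pow_le_pow_left₀ (by positivity)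
    calc u ^ 2 / 2 * (x : ℝ) ^ 2 = u ^ 2 / 2 * Y ^ 2 * Real.log x ^ 2 := by
          rw [hY]
          field_simp
      _ ≤ _ := mul_le_mul_of_nonneg_right hQlow (by positivity)
  have e2 := e1.trans key
  have e3 : u ^ 4 / (4 * C) * x * (C * (x : ℝ) ^ 3) ≤ S.card * (C * (x : ℝ) ^ 3) := by
    calc u ^ 4 / (4 * C) * x * (C * (x : ℝ) ^ 3) = (u ^ 2 / 2 * x ^ 2) ^ 2 := by
          field_simp
          ring
      _ ≤ C * S.card * (x : ℝ) ^ 3 := e2
      _ = _ := by ring
  have e4 := le_of_mul_le_mul_right e3 (by positivity)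
  calc c * x ≤ u ^ 4 / (4 * C) * x := mul_le_mul_of_nonneg_right hc2 hx0.le
    _ ≤ _ := e4

end Pool.Agent.H68.MG
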