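import Mathlib
import Pool.Agent.H68.MG.Main

set_option autoImplicit false
set_option linter.unusedSectionVars false
set_option linter.unusedVariables false

/-! Monochromatic cliques. -/

namespace Pool.Agent.H68.MG
open Finset
open Pool.Agent.H373R2.T7 Pool.Agent.N730.PT

/-- `k`-tuples of distinct primes `≤ x` of one colour all of whose pairwise averages lie in `C` -/
def MTuples (k x : ℕ) {r : ℕ} (χ : ℕ → Fin r) (C : Finset ℕ) : Finset (Fin k → ℕ) :=
  (Fintype.piFinset (fun _ => (range (x + 1)).filter Nat.Prime)).filter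
    (fun p => ∀ i j, i ≠ j → p i ≠ p j ∧ χ (p i) = χ (p j) ∧ ∃ n ∈ C, p i + p j = 2 * n)

lemma count_emb (k K x : ℕ) (hkK : k ≤ K) {r : ℕ} (χ : ℕ → Fin r) (C : Finset ℕ) (e : Fin k ↪ Fin K) :
    ((Tuples K x C).filter (fun p => ∀ i j, χ (p (e i)) = χ (p (e j)))).card ≤
      (MTuples k x χ C).card * ((range (x + 1)).filter Nat.Prime).card ^ (K - k) := by
  classical
  obtain ⟨P, hP⟩ : ∃ P, P = (range (x + 1)).filter Nat.Prime := ⟨_, rfl⟩
  rw [← hP]
  have h1 : ((Tuples K x C).filter (fun p => ∀ i j, χ (p (e i)) = χ (p (e j)))).card ≤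
      ((MTuples k x χ C) ×ˢ (Fintype.piFinset (fun _ : {l : Fin K // l ∉ Set.range e} => P))).card := by
    apply card_le_card_of_injOn (fun p => (fun i => p (e i), fun l => p l))
    · intro p hp
      rw [mem_coe, mem_filter] at hp
      obtain ⟨hp, hχ⟩ := hp
      unfold Tuples at hp
      rw [mem_filter, Fintype.mem_piFinset, ← hP] at hp
      rw [mem_coe, mem_product, Fintype.mem_piFinset]
      constructor
      · unfold MTuples
        rw [mem_filter, Fintype.mem_piFinset, ← hP]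
        refine ⟨fun i => hp.1 (e i), fun i j hij => ?_⟩
        have h2 := hp.2 (e i) (e j) (fun h => hij (e.injective h))
        exact ⟨h2.1, hχ i j, h2.2⟩
      · intro l
        exact hp.1 l
    · intro p _ p' _ h
      have e1 := congrArg (fun z => z.1) h
      have e2 := congrArg (fun z => z.2) h
      funext l
      by_cases h4 : l ∈ Set.range e
      · obtain ⟨i, rfl⟩ := h4
        exact congrFun e1 i
      · exact congrFun e2 ⟨l, h4⟩
  refine h1.trans ?_
  rw [card_product, Fintype.card_piFinset, prod_const, card_univ]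
  have h2 : Fintype.card {l : Fin K // l ∉ Set.range e} = K - k := by
    rw [Fintype.card_subtype_compl, Fintype.card_fin]
    congr 1
    have h3 : Fintype.card {l : Fin K // l ∈ Set.range e} = Fintype.card (Set.range e) := rfl
    rw [Set.card_range_of_injective e.injective, Fintype.card_fin]
  rw [h2]

/-- **Monochromatic cliques.** -/
theorem mono_cliques (k r : ℕ) (δ : ℝ) (hδ : 0 < δ) : ∃ w₀ : ℕ, ∀ w ≥ w₀, ∃ c : ℝ, 0 < c ∧ ∃ x₀ : ℕ, ∀ x ≥ x₀,
    ∀ χ : ℕ → Fin r, ∀ C ⊆ Rough w x, δ * (Rough w x).card ≤ C.card →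
      c * ((x : ℝ) / Real.log x) ^ k ≤ (MTuples k x χ C).card := by
  classical
  rcases Nat.eq_zero_or_pos k with hk | hk
  · subst hk
    refine ⟨0, fun w _ => ⟨1, one_pos, 0, fun x _ χ C _ _ => ?_⟩⟩
    have h1 : (fun i : Fin 0 => i.elim0) ∈ MTuples 0 x χ C := by
      unfold MTuples
      rw [mem_filter, Fintype.mem_piFinset]
      exact ⟨fun i => i.elim0, fun i => i.elim0⟩
    have h2 : 1 ≤ (MTuples 0 x χ C).card := card_pos.2 ⟨_, h1⟩
    rw [pow_zero, mul_one]
    exact_mod_cast h2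
  obtain ⟨K, hK⟩ : ∃ K, K = r * (k - 1) + k := ⟨_, rfl⟩
  have hkK : k ≤ K := by rw [hK]; exact Nat.le_add_left _ _
  obtain ⟨w₀, H⟩ := cliques K (by omega) δ hδ
  refine ⟨w₀, fun w hw => ?_⟩
  obtain ⟨c, hc, x₁, H1⟩ := H w hw
  obtain ⟨x₂, H2⟩ := pi_bd
  obtain ⟨E, hE⟩ : ∃ E : ℝ, E = (Fintype.card (Fin k ↪ Fin K) : ℝ) + 1 := ⟨_, rfl⟩
  have hE0 : 0 < E := by rw [hE]; positivity
  refine ⟨c / (E * 2 ^ (K - k)), by positivity, max (max x₁ x₂) 3, fun x hx χ C hC hCc => ?_⟩
  have hx1 : x₁ ≤ x := le_trans (le_trans (le_max_left _ _) (le_max_left _ _)) hx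
  have hx2 : x₂ ≤ x := le_trans (le_trans (le_max_right _ _) (le_max_left _ _)) hx
  have hx3 : 3 ≤ x := le_trans (le_max_right _ _) hx
  have e1 := H1 x hx1 C hC hCc
  have hxr : (3 : ℝ) ≤ x := by exact_mod_cast hx3
  have hx0 : (0 : ℝ) < x := by linarith
  have hL0 : 0 < Real.log x := Real.log_pos (by linarith)
  obtain ⟨Y, hY⟩ : ∃ Y : ℝ, Y = (x : ℝ) / Real.log x := ⟨_, rfl⟩
  have hY0 : 0 < Y := by rw [hY]; positivity
  have hpi := H2 x hx2
  rw [← hY] at hpi e1 ⊢
  -- pigeonhole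
  have e2 : (Tuples K x C).card ≤ ∑ e : Fin k ↪ Fin K, ((Tuples K x C).filter (fun p => ∀ i j, χ (p (e i)) = χ (p (e j)))).card := by
    have h1 : Tuples K x C ⊆ (univ : Finset (Fin k ↪ Fin K)).biUnion
        (fun e => (Tuples K x C).filter (fun p => ∀ i j, χ (p (e i)) = χ (p (e j)))) := by
      intro p hp
      rw [mem_biUnion]
      have h2 : Fintype.card (Fin r) * (k - 1) < Fintype.card (Fin K) := by
        rw [Fintype.card_fin, Fintype.card_fin, hK]
        omega
      obtain ⟨y, hy⟩ := Fintype.exists_lt_card_fiber_of_mul_lt_card (fun i : Fin K => χ (p i)) h2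
      obtain ⟨s, hs, hsc⟩ := exists_subset_card_eq (s := univ.filter (fun i : Fin K => χ (p i) = y)) (n := k) (by omega)
      obtain ⟨e0⟩ : Nonempty (Fin k ≃ s) := ⟨(s.equivFinOfCardEq hsc).symm⟩
      refine ⟨e0.toEmbedding.trans (Function.Embedding.subtype _), mem_univ _, ?_⟩
      rw [mem_filter]
      refine ⟨hp, fun i j => ?_⟩
      have h3 : ∀ i, χ (p (e0 i)) = y := fun i => (mem_filter.1 (hs (e0 i).2)).2
      exact (h3 i).trans (h3 j).symm
    exact (card_le_card h1).trans card_biUnion_le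
  have e3 : ((Tuples K x C).card : ℝ) ≤ E * ((MTuples k x χ C).card * (2 * Y) ^ (K - k)) := by
    have h1 : ∀ e : Fin k ↪ Fin K, (((Tuples K x C).filter (fun p => ∀ i j, χ (p (e i)) = χ (p (e j)))).card : ℝ) ≤
        (MTuples k x χ C).card * (2 * Y) ^ (K - k) := by
      intro e
      have h2 := count_emb k K x hkK χ C e
      have h3 : (((Tuples K x C).filter (fun p => ∀ i j, χ (p (e i)) = χ (p (e j)))).card : ℝ) ≤
          (MTuples k x χ C).card * (((range (x + 1)).filter Nat.Prime).card : ℝ) ^ (K - k) := by exact_mod_cast h2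
      refine h3.trans ?_
      apply mul_le_mul_of_nonneg_left _ (Nat.cast_nonneg _)
      exact pow_le_pow_left₀ (Nat.cast_nonneg _) hpi _
    have h4 : ((Tuples K x C).card : ℝ) ≤ ∑ e : Fin k ↪ Fin K,
        (((Tuples K x C).filter (fun p => ∀ i j, χ (p (e i)) = χ (p (e j)))).card : ℝ) := by exact_mod_cast e2
    refine h4.trans ((sum_le_sum fun e _ => h1 e).trans ?_)
    rw [sum_const, card_univ, nsmul_eq_mul]
    apply mul_le_mul_of_nonneg_right _ (by positivity)
    rw [hE]
    linarith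
  have h5 : Y ^ K = Y ^ k * Y ^ (K - k) := by
    rw [← pow_add]
    congr 1
    omega
  have e4 : c * Y ^ k * Y ^ (K - k) ≤ (E * 2 ^ (K - k) * (MTuples k x χ C).card) * Y ^ (K - k) := by
    calc c * Y ^ k * Y ^ (K - k) = c * Y ^ K := by rw [h5]; ring
      _ ≤ _ := e1
      _ ≤ _ := e3
      _ = _ := by
        rw [mul_pow]
        ring
  have e5 := le_of_mul_le_mul_right e4 (by positivity)
  rw [div_mul_eq_mul_div, div_le_iff₀ (by positivity)]
  linarith

end Pool.Agent.H68.MG
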